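import Mathlib

open Finset

namespace Pool.Agent.H38.DP

section
variable {R : Type*} [CommRing R] (x z : R)

/-- Gaussian binomial coefficients -/
def gb : ℕ → ℕ → R
  | _, 0 => 1
  | 0, _ + 1 => 0
  | n + 1, k + 1 => gb n k + x ^ (k + 1) * gb n (k + 1)

@[simp] lemma gb_zero (n : ℕ) : gb x n 0 = 1 := by cases n <;> rfl

@[simp] lemma gb_zero_succ (k : ℕ) : gb x 0 (k + 1) = 0 := rfl

lemma gb_succ (n k : ℕ) : gb x (n + 1) (k + 1) = gb x n k + x ^ (k + 1) * gb x n (k + 1) := rfl

lemma gb_eq_zero : ∀ n k : ℕ, n < k → gb x n k = 0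
  | _, 0, h => absurd h (Nat.not_lt_zero _)
  | 0, _ + 1, _ => rfl
  | n + 1, k + 1, h => by
    rw [gb_succ, gb_eq_zero n k (by omega), gb_eq_zero n (k + 1) (by omega)]
    ring

/-- second Pascal rule -/
lemma gb_succ' : ∀ n k : ℕ, gb x (n + 1) (k + 1) = x ^ (n - k) * gb x n k + gb x n (k + 1)
  | 0, 0 => by rw [gb_succ]; simp
  | 0, k + 1 => by rw [gb_succ]; simp
  | n + 1, 0 => by
    rw [gb_succ]
    have ih := gb_succ' n 0
    simp only [gb_zero, Nat.sub_zero, mul_one] at ih ⊢
    have h2 := gb_succ x n 0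
    simp only [gb_zero, zero_add, pow_one] at h2
    -- gb (n+1) 1 = 1 + x gb n 1 = x^n + gb n 1
    rw [zero_add, pow_one]
    have h3 : gb x (n + 1) 1 = x ^ n + gb x n 1 := ih
    have h4 : gb x (n + 1) 1 = 1 + x * gb x n 1 := h2
    have : x * gb x (n + 1) 1 = x ^ (n + 1) + x * gb x n 1 := by rw [h3]; ring
    rw [this, h4]
    ring
  | n + 1, k + 1 => by
    rw [gb_succ]
    have ih1 := gb_succ' n k
    have ih2 := gb_succ' n (k + 1)
    have h1 := gb_succ x n k
    have h2 := gb_succ x n (k + 1)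
    by_cases hk : k + 1 ≤ n
    · obtain ⟨d, rfl⟩ := Nat.exists_eq_add_of_le hk
      have e1 : k + 1 + d - k = d + 1 := by omega
      have e2 : k + 1 + d - (k + 1) = d := by omega
      have e3 : k + 1 + d + 1 - (k + 1) = d + 1 := by omega
      rw [e1] at ih1
      rw [e2] at ih2
      rw [e3]
      linear_combination ih1 + x ^ (k + 2) * ih2 - x ^ (d + 1) * h1 - h2
    · have hz1 : gb x n (k + 1) = 0 := gb_eq_zero x n (k + 1) (by omega)
      have hz2 : gb x (n + 1) (k + 2) = 0 := gb_eq_zero x (n + 1) (k + 2) (by omega)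
      rw [hz2]
      have hz3 : n + 1 - (k + 1) = n - k := by omega
      rw [hz3]
      rcases Nat.lt_or_ge n k with h | h
      · rw [gb_eq_zero x (n + 1) (k + 1) (by omega)]
        ring
      · have : n = k := by omega
        subst this
        simp

/-- the `q`-binomial theorem -/
lemma qbinom (m : ℕ) : ∏ i ∈ range m, (1 + z * x ^ i) =
    ∑ k ∈ range (m + 1), z ^ k * x ^ (k * (k - 1) / 2) * gb x m k := by
  induction m with
  | zero => simp
  | succ m ih =>
    rw [prod_range_succ, ih]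
    -- use second Pascal rule
    have hexp : ∀ k : ℕ, (k + 1) * (k + 1 - 1) / 2 = k * (k - 1) / 2 + k := by
      intro k
      rw [Nat.add_sub_cancel]
      have h2 : 2 ∣ k * (k - 1) := by
        rcases k with _ | k
        · simp
        · rw [Nat.add_sub_cancel]; exact (Nat.even_mul_succ_self k).two_dvd.trans
            (dvd_of_eq (by ring))
      obtain ⟨t, ht⟩ := h2
      have : (k + 1) * k = 2 * (t + k) := by
        rcases k with _ | k
        · simp at ht ⊢; omega
        · rw [Nat.add_sub_cancel] at ht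
          nlinarith
      rw [this, ht]
      omega
    have hR : ∑ k ∈ range (m + 1 + 1), z ^ k * x ^ (k * (k - 1) / 2) * gb x (m + 1) k =
        ∑ k ∈ range (m + 1), z ^ k * x ^ (k * (k - 1) / 2) * gb x m k +
        ∑ k ∈ range (m + 1), z ^ (k + 1) * x ^ (k * (k - 1) / 2 + m) * gb x m k := by
      rw [sum_range_succ', sum_range_succ' (fun k => z ^ k * x ^ (k * (k - 1) / 2) * gb x m k)]
      have hz : gb x m (m + 1) = 0 := gb_eq_zero x m (m + 1) (by omega)
      have e1 : ∑ k ∈ range (m + 1), z ^ (k + 1) * x ^ ((k + 1) * (k + 1 - 1) / 2) *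
          gb x (m + 1) (k + 1) = ∑ k ∈ range (m + 1), (z ^ (k + 1) * x ^ ((k + 1) *
          (k + 1 - 1) / 2) * gb x m (k + 1)) +
          ∑ k ∈ range (m + 1), z ^ (k + 1) * x ^ (k * (k - 1) / 2 + m) * gb x m k := by
        rw [← sum_add_distrib]
        apply sum_congr rfl
        intro k hk
        have hk' : k ≤ m := by have := mem_range.1 hk; omega
        rw [gb_succ']
        have : x ^ ((k + 1) * (k + 1 - 1) / 2) * x ^ (m - k) = x ^ (k * (k - 1) / 2 + m) := by
          rw [hexp, ← pow_add]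
          congr 1
          omega
        rw [mul_add, ← this]
        ring
      rw [e1, sum_range_succ (fun k => z ^ (k + 1) * x ^ ((k + 1) * (k + 1 - 1) / 2) *
        gb x m (k + 1)), hz]
      simp
      ring
    rw [hR, mul_add, mul_one, sum_mul]
    congr 1
    apply sum_congr rfl
    intro k _
    rw [pow_add, pow_succ]
    ring

/-- the coefficient `x^(k(k-1)/2) [N-k choose k]` -/
def cc (N k : ℕ) : R := x ^ (k * (k - 1) / 2) * gb x (N - k) k

/-- the finite Sylvester type sum -/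
def SS (N : ℕ) : R := ∑ k ∈ range (N + 1), z ^ k * cc x N k

lemma tri_succ (k : ℕ) : (k + 1) * (k + 1 - 1) / 2 = k * (k - 1) / 2 + k := by
  rw [Nat.add_sub_cancel]
  have h2 : 2 ∣ k * (k - 1) := by
    rcases k with _ | k
    · simp
    · rw [Nat.add_sub_cancel]; exact (Nat.even_mul_succ_self k).two_dvd.trans
        (dvd_of_eq (by ring))
  obtain ⟨t, ht⟩ := h2
  have : (k + 1) * k = 2 * (t + k) := by
    rcases k with _ | k
    · simp at ht ⊢; omega
    · rw [Nat.add_sub_cancel] at ht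
      nlinarith
  rw [this, ht]
  omega

lemma cc_eq_zero (N k : ℕ) (h : N < 2 * k) : cc x N k = 0 := by
  unfold cc
  rw [gb_eq_zero x (N - k) k (by omega), mul_zero]

@[simp] lemma cc_zero (N : ℕ) : cc x N 0 = 1 := by
  unfold cc; simp

lemma cc_one (N : ℕ) : cc x (N + 3) 1 = cc x (N + 2) 1 + x ^ (N + 1) := by
  unfold cc
  have e1 : N + 3 - 1 = (N + 1) + 1 := by omega
  have e2 : N + 2 - 1 = N + 1 := by omega
  rw [e1, e2]
  have := gb_succ' x (N + 1) 0
  rw [zero_add] at this
  rw [this]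
  simp
  ring

/-- the recurrence of the coefficients -/
lemma cc_rec (N k : ℕ) : cc x (N + 4) (k + 2) = cc x (N + 3) (k + 2) +
    x ^ (N + 2) * cc x (N + 1) (k + 1) + x ^ (N + 1) * cc x N k := by
  rcases Nat.lt_or_ge N (2 * k) with h | h
  · rw [cc_eq_zero x (N + 4) (k + 2) (by omega), cc_eq_zero x (N + 3) (k + 2) (by omega),
      cc_eq_zero x (N + 1) (k + 1) (by omega), cc_eq_zero x N k h]
    ring
  · obtain ⟨d, rfl⟩ := Nat.exists_eq_add_of_le h
    unfold cc
    have e1 : 2 * k + d + 4 - (k + 2) = (k + d + 1) + 1 := by omega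
    have e2 : 2 * k + d + 3 - (k + 2) = k + d + 1 := by omega
    have e3 : 2 * k + d + 1 - (k + 1) = k + d := by omega
    have e4 : 2 * k + d - k = k + d := by omega
    rw [e1, e2, e3, e4, tri_succ (k + 1), tri_succ k]
    have h1 := gb_succ' x (k + d + 1) (k + 1)
    have h2 := gb_succ x (k + d) k
    have e5 : k + d + 1 - (k + 1) = d := by omega
    rw [e5] at h1
    rw [h1, h2]
    ring

lemma SS_zero : SS x z 0 = 1 := by simp [SS]

lemma SS_one : SS x z 1 = 1 := by
  simp [SS, sum_range_succ, cc_eq_zero x 1 1 (by norm_num)]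

lemma SS_two : SS x z 2 = 1 + z := by
  have h1 : cc x 2 1 = 1 := by
    unfold cc
    have := gb_succ x 0 0
    simp at this ⊢
    exact this
  simp [SS, sum_range_succ, h1, cc_eq_zero x 2 2 (by norm_num)]

lemma SS_three : SS x z 3 = 1 + z + z * x := by
  have h0 : cc x 2 1 = 1 := by
    unfold cc
    have := gb_succ x 0 0
    simp at this ⊢
    exact this
  have h1 : cc x 3 1 = 1 + x := by
    have := cc_one x 0
    simp at this
    rw [this, h0]
  simp [SS, sum_range_succ, h1, cc_eq_zero x 3 2 (by norm_num), cc_eq_zero x 3 3 (by norm_num)]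
  ring

/-- the recurrence of the sums -/
lemma SS_rec (N : ℕ) : SS x z (N + 4) = SS x z (N + 3) + z * x ^ (N + 2) * SS x z (N + 1) +
    z ^ 2 * x ^ (N + 1) * SS x z N := by
  unfold SS
  have e4 : ∑ k ∈ range (N + 4 + 1), z ^ k * cc x (N + 4) k =
      1 + z * cc x (N + 4) 1 + ∑ k ∈ range (N + 3), z ^ (k + 2) * cc x (N + 4) (k + 2) := by
    rw [sum_range_succ', sum_range_succ']
    simp
    ring
  have e3 : ∑ k ∈ range (N + 3 + 1), z ^ k * cc x (N + 3) k =
      1 + z * cc x (N + 3) 1 + ∑ k ∈ range (N + 3), z ^ (k + 2) * cc x (N + 3) (k + 2) := by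
    rw [sum_range_succ (fun k => z ^ (k + 2) * cc x (N + 3) (k + 2)) (N + 2),
      cc_eq_zero x (N + 3) (N + 2 + 2) (by omega), sum_range_succ', sum_range_succ']
    simp
    ring
  have e1 : ∑ k ∈ range (N + 1 + 1), z ^ k * cc x (N + 1) k =
      1 + ∑ k ∈ range (N + 3), z ^ (k + 1) * cc x (N + 1) (k + 1) := by
    rw [sum_range_succ', sum_range_succ (fun k => z ^ (k + 1) * cc x (N + 1) (k + 1)) (N + 2),
      sum_range_succ (fun k => z ^ (k + 1) * cc x (N + 1) (k + 1)) (N + 1),
      cc_eq_zero x (N + 1) (N + 2 + 1) (by omega), cc_eq_zero x (N + 1) (N + 1 + 1) (by omega)]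
    simp
    ring
  have e0 : ∑ k ∈ range (N + 1), z ^ k * cc x N k =
      ∑ k ∈ range (N + 3), z ^ k * cc x N k := by
    rw [sum_range_succ (fun k => z ^ k * cc x N k) (N + 2),
      sum_range_succ (fun k => z ^ k * cc x N k) (N + 1),
      cc_eq_zero x N (N + 2) (by omega), cc_eq_zero x N (N + 1) (by omega)]
    simp
  rw [e4, e3, e1, e0, mul_add, mul_sum, mul_sum]
  have hmain : ∑ k ∈ range (N + 3), z ^ (k + 2) * cc x (N + 4) (k + 2) =
      ∑ k ∈ range (N + 3), z ^ (k + 2) * cc x (N + 3) (k + 2) +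
      ∑ k ∈ range (N + 3), z * x ^ (N + 2) * (z ^ (k + 1) * cc x (N + 1) (k + 1)) +
      ∑ k ∈ range (N + 3), z ^ 2 * x ^ (N + 1) * (z ^ k * cc x N k) := by
    rw [← sum_add_distrib, ← sum_add_distrib]
    apply sum_congr rfl
    intro k _
    rw [cc_rec]
    ring
  have h1 := cc_one x (N + 1)
  rw [hmain, h1]
  ring

end

end Pool.Agent.H38.DP
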