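import Pool.Agent.H38.DP.Bridge
import Pool.Agent.H38.DP.GB

open Finset Polynomial

namespace Pool.Agent.H38.DP

/-- gap condition with an arbitrary gap function and an arbitrary set of allowed parts -/
def admG (g : ℕ → ℕ) (E : ℕ → Prop) (S : Finset ℕ) : Prop :=
  (∀ e ∈ S, 0 < e ∧ E e) ∧ ∀ x ∈ S, ∀ y ∈ S, y < x → y + g x ≤ x

open Classical in
/-- generating polynomial of the admissible sets with all parts at most `e` -/
noncomputable def V (g : ℕ → ℕ) (E : ℕ → Prop) (e : ℕ) : ℤ[X] :=
  ∑ S ∈ (range (e + 1)).powerset with admG g E S, X ^ (∑ i ∈ S, i)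

variable (g : ℕ → ℕ) (E : ℕ → Prop)

lemma V_zero : V g E 0 = 1 := by
  classical
  unfold V
  have : (range (0 + 1)).powerset.filter (fun S => admG g E S) = {∅} := by
    ext S
    rw [mem_filter, mem_singleton, mem_powerset]
    constructor
    · rintro ⟨h1, h2⟩
      by_contra hne
      obtain ⟨x, hx⟩ := nonempty_iff_ne_empty.2 hne
      have := mem_range.1 (h1 hx)
      have := (h2.1 x hx).1
      omega
    · rintro rfl
      exact ⟨by simp, by simp [admG]⟩
  rw [this]
  simp

lemma admG_insert (e : ℕ) (T : Finset ℕ) (hT : T ⊆ range (e + 1)) :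
    admG g E (insert (e + 1) T) ↔ E (e + 1) ∧ admG g E T ∧ ∀ y ∈ T, y + g (e + 1) ≤ e + 1 := by
  constructor
  · rintro ⟨h1, h2⟩
    refine ⟨(h1 _ (mem_insert_self _ _)).2, ⟨fun x hx => h1 x (mem_insert_of_mem hx),
      fun x hx y hy h => h2 x (mem_insert_of_mem hx) y (mem_insert_of_mem hy) h⟩, ?_⟩
    intro y hy
    have := mem_range.1 (hT hy)
    exact h2 _ (mem_insert_self _ _) y (mem_insert_of_mem hy) this
  · rintro ⟨h0, ⟨h1, h2⟩, h3⟩
    refine ⟨?_, ?_⟩
    · intro x hx
      rcases mem_insert.1 hx with rfl | hx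
      · exact ⟨by omega, h0⟩
      · exact h1 x hx
    · intro x hx y hy hyx
      rcases mem_insert.1 hx with rfl | hx <;> rcases mem_insert.1 hy with rfl | hy
      · omega
      · exact h3 y hy
      · have := mem_range.1 (hT hx)
        omega
      · exact h2 x hx y hy hyx

open Classical in
lemma V_succ (e : ℕ) (hg : 0 < g (e + 1)) :
    V g E (e + 1) = V g E e +
      if E (e + 1) then X ^ (e + 1) * V g E (e + 1 - g (e + 1)) else 0 := by
  have hVform : ∀ d, V g E d = ∑ S ∈ (range (d + 1)).powerset,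
      if admG g E S then (X : ℤ[X]) ^ (∑ i ∈ S, i) else 0 := by
    intro d
    unfold V
    rw [sum_filter]
  have hnot : e + 1 ∉ range (e + 1) := by simp
  rw [hVform (e + 1), range_add_one, sum_powerset_insert hnot, ← hVform e]
  congr 1
  split_ifs with hE
  · have h1 : ∑ T ∈ (range (e + 1)).powerset,
        (if admG g E (insert (e + 1) T) then (X : ℤ[X]) ^ (∑ i ∈ insert (e + 1) T, i) else 0) =
        ∑ T ∈ (range (e + 1)).powerset with admG g E T ∧ ∀ y ∈ T, y + g (e + 1) ≤ e + 1,
          (X : ℤ[X]) ^ (e + 1) * X ^ (∑ i ∈ T, i) := by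
      rw [sum_filter]
      apply sum_congr rfl
      intro T hT
      rw [mem_powerset] at hT
      have hnT : e + 1 ∉ T := fun h => hnot (hT h)
      have hiff := admG_insert g E e T hT
      by_cases hc : admG g E T ∧ ∀ y ∈ T, y + g (e + 1) ≤ e + 1
      · rw [if_pos hc, if_pos (hiff.2 ⟨hE, hc.1, hc.2⟩), sum_insert hnT, pow_add]
      · rw [if_neg hc, if_neg (fun h => hc (hiff.1 h).2)]
    rw [h1, ← mul_sum]
    congr 1
    unfold V
    apply sum_congr _ (fun _ _ => rfl)
    ext T
    simp only [mem_filter, mem_powerset]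
    constructor
    · rintro ⟨_, h2, h3⟩
      refine ⟨fun y hy => ?_, h2⟩
      have := h3 y hy
      exact mem_range.2 (by omega)
    · rintro ⟨h0, h2⟩
      refine ⟨fun y hy => ?_, h2, fun y hy => ?_⟩
      · have := mem_range.1 (h0 hy)
        exact mem_range.2 (by omega)
      · have := mem_range.1 (h0 hy)
        have := (h2.1 y hy).1
        omega
  · apply sum_eq_zero
    intro T hT
    rw [mem_powerset] at hT
    rw [if_neg (fun h => hE ((admG_insert g E e T hT).1 h).1)]

lemma V_const (hg : ∀ e, 0 < g e) (e1 e2 : ℕ) (hle : e1 ≤ e2)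
    (h : ∀ e, e1 < e → e ≤ e2 → ¬ E e) : V g E e2 = V g E e1 := by
  classical
  obtain ⟨d, rfl⟩ := Nat.exists_eq_add_of_le hle
  induction d with
  | zero => rfl
  | succ d ih =>
    rw [← add_assoc, V_succ g E (e1 + d) (hg _), if_neg (h _ (by omega) (by omega)), add_zero]
    exact ih (by omega) (fun e h1 h2 => h e h1 (by omega))

lemma V_coeff (e n : ℕ) (hn : n ≤ e) : (V g E e).coeff n = (cnt (admG g E) n : ℤ) := by
  classical
  unfold V
  rw [finsetSum_coeff]
  simp only [coeff_X_pow]
  rw [sum_boole]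
  unfold cnt
  norm_cast
  congr 1
  ext S
  simp only [mem_filter, mem_powerset]
  constructor
  · rintro ⟨⟨h1, h2⟩, h3⟩
    refine ⟨fun x hx => ?_, h2, h3.symm⟩
    have : x ≤ ∑ i ∈ S, i := single_le_sum (f := fun e => e) (fun _ _ => Nat.zero_le _) hx
    exact mem_range.2 (by omega)
  · rintro ⟨h1, h2, h3⟩
    exact ⟨⟨h1.trans (range_subset_range.2 (by omega)), h2⟩, h3.symm⟩

end Pool.Agent.H38.DP
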