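import Pool.Agent.H38.DP.Fin
import Pool.Agent.H38.DP.Listed

/-! The classification of the solutions with modulus at most 5. -/

open Finset

namespace Pool.Agent.H38.DP

theorem allR2 : ∀ R : Finset (ZMod 2),
    R = ∅ ∨
    R = {0} ∨
    R = {1} ∨
    R = {0, 1} := by
  decide +kernel

theorem allR3 : ∀ R : Finset (ZMod 3),
    R = ∅ ∨
    R = {0} ∨
    R = {1} ∨
    R = {2} ∨
    R = {0, 1} ∨
    R = {0, 2} ∨
    R = {1, 2} ∨
    R = {0, 1, 2} := by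
  decide +kernel

theorem allR4 : ∀ R : Finset (ZMod 4),
    R = ∅ ∨
    R = {0} ∨
    R = {1} ∨
    R = {2} ∨
    R = {3} ∨
    R = {0, 1} ∨
    R = {0, 2} ∨
    R = {0, 3} ∨
    R = {1, 2} ∨
    R = {1, 3} ∨
    R = {2, 3} ∨
    R = {0, 1, 2} ∨
    R = {0, 1, 3} ∨
    R = {0, 2, 3} ∨
    R = {1, 2, 3} ∨
    R = {0, 1, 2, 3} := by
  decide +kernel

theorem allR5 : ∀ R : Finset (ZMod 5),
    R = ∅ ∨
    R = {0} ∨
    R = {1} ∨
    R = {2} ∨
    R = {3} ∨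
    R = {4} ∨
    R = {0, 1} ∨
    R = {0, 2} ∨
    R = {0, 3} ∨
    R = {0, 4} ∨
    R = {1, 2} ∨
    R = {1, 3} ∨
    R = {1, 4} ∨
    R = {2, 3} ∨
    R = {2, 4} ∨
    R = {3, 4} ∨
    R = {0, 1, 2} ∨
    R = {0, 1, 3} ∨
    R = {0, 1, 4} ∨
    R = {0, 2, 3} ∨
    R = {0, 2, 4} ∨
    R = {0, 3, 4} ∨
    R = {1, 2, 3} ∨
    R = {1, 2, 4} ∨
    R = {1, 3, 4} ∨
    R = {2, 3, 4} ∨
    R = {0, 1, 2, 3} ∨
    R = {0, 1, 2, 4} ∨
    R = {0, 1, 3, 4} ∨
    R = {0, 2, 3, 4} ∨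
    R = {1, 2, 3, 4} ∨
    R = {0, 1, 2, 3, 4} := by
  decide +kernel

theorem class2 {R : Finset (ZMod 2)} {b : ZMod 2 → ℕ} {C : Finset ℕ}
    (h : IsSolution 2 R b C) : IsListed 2 R b C := by
  rcases allR2 R with rfl |
    rfl |
    rfl |
    rfl
  · exact (emptyType h rfl).elim
  · exact (F2_2 h).elim
  · obtain ⟨h1, h0, hC⟩ := F2_1 h
    exact Or.inr (Or.inl ⟨rfl, rfl, h1, h0, hC⟩)
  · exact Or.inl ⟨by decide, fullType (by norm_num) h (by decide)⟩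

theorem class3 {R : Finset (ZMod 3)} {b : ZMod 3 → ℕ} {C : Finset ℕ}
    (h : IsSolution 3 R b C) : IsListed 3 R b C := by
  rcases allR3 R with rfl |
    rfl |
    rfl |
    rfl |
    rfl |
    rfl |
    rfl |
    rfl
  · exact (emptyType h rfl).elim
  · exact (F3_3 h).elim
  · exact (F3_1 h).elim
  · exact (F3_2 h).elim
  · exact (F3_13 h).elim
  · exact (F3_23 h).elim
  · rcases F3_12 h with ⟨h1, h2, h0, hC⟩ | ⟨h1, h2, h0, hC⟩
    · exact Or.inr (Or.inr (Or.inl ⟨rfl, rfl, h1, h2, h0, hC⟩))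
    · exact Or.inr (Or.inr (Or.inr (Or.inl ⟨rfl, rfl, h1, h2, h0, hC⟩)))
  · exact Or.inl ⟨by decide, fullType (by norm_num) h (by decide)⟩

theorem class4 {R : Finset (ZMod 4)} {b : ZMod 4 → ℕ} {C : Finset ℕ}
    (h : IsSolution 4 R b C) : IsListed 4 R b C := by
  rcases allR4 R with rfl |
    rfl |
    rfl |
    rfl |
    rfl |
    rfl |
    rfl |
    rfl |
    rfl |
    rfl |
    rfl |
    rfl |
    rfl |
    rfl |
    rfl |
    rfl
  · exact (emptyType h rfl).elim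
  · exact (F4_4 h).elim
  · exact (F4_1 h).elim
  · exact (F4_2 h).elim
  · exact (F4_3 h).elim
  · exact (F4_14 h).elim
  · exact (F4_24 h).elim
  · exact (F4_34 h).elim
  · exact (F4_12 h).elim
  · obtain ⟨h1, h2, h3, h0, hC⟩ := F4_13 h
    exact Or.inr (Or.inr (Or.inr (Or.inr (Or.inl ⟨rfl, rfl, h1, h2, h3, h0, hC⟩))))
  · exact (F4_23 h).elim
  · rcases F4_124 h with ⟨h1, h2, h3, h0, hC⟩ | ⟨h1, h2, h3, h0, hC⟩
    · exact Or.inr (Or.inr (Or.inr (Or.inr (Or.inr (Or.inr (Or.inl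
        ⟨rfl, rfl, h1, h2, h3, h0, hC⟩))))))
    · exact Or.inr (Or.inr (Or.inr (Or.inr (Or.inr (Or.inl ⟨rfl, rfl, h1, h2, h3, h0, hC⟩)))))
  · exact (F4_134 h).elim
  · rcases F4_234 h with ⟨h1, h2, h3, h0, hC⟩ | ⟨h1, h2, h3, h0, hC⟩
    · exact Or.inr (Or.inr (Or.inr (Or.inr (Or.inr (Or.inr (Or.inr (Or.inr
        ⟨rfl, rfl, h1, h2, h3, h0, hC⟩)))))))
    · exact Or.inr (Or.inr (Or.inr (Or.inr (Or.inr (Or.inr (Or.inr (Or.inl
        ⟨rfl, rfl, h1, h2, h3, h0, hC⟩)))))))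
  · exact (F4_123 h).elim
  · exact Or.inl ⟨by decide, fullType (by norm_num) h (by decide)⟩

theorem class5 {R : Finset (ZMod 5)} {b : ZMod 5 → ℕ} {C : Finset ℕ}
    (h : IsSolution 5 R b C) : IsListed 5 R b C := by
  rcases allR5 R with rfl |
    rfl |
    rfl |
    rfl |
    rfl |
    rfl |
    rfl |
    rfl |
    rfl |
    rfl |
    rfl |
    rfl |
    rfl |
    rfl |
    rfl |
    rfl |
    rfl |
    rfl |
    rfl |
    rfl |
    rfl |
    rfl |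
    rfl |
    rfl |
    rfl |
    rfl |
    rfl |
    rfl |
    rfl |
    rfl |
    rfl |
    rfl
  · exact (emptyType h rfl).elim
  · exact (F5_5 h).elim
  · exact (F5_1 h).elim
  · exact (F5_2 h).elim
  · exact (F5_3 h).elim
  · exact (F5_4 h).elim
  · exact (F5_15 h).elim
  · exact (F5_25 h).elim
  · exact (F5_35 h).elim
  · exact (F5_45 h).elim
  · exact (F5_12 h).elim
  · exact (F5_13 h).elim
  · exact (F5_14 h).elim
  · exact (F5_23 h).elim
  · exact (F5_24 h).elim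
  · exact (F5_34 h).elim
  · exact (F5_125 h).elim
  · exact (F5_135 h).elim
  · exact (F5_145 h).elim
  · exact (F5_235 h).elim
  · exact (F5_245 h).elim
  · exact (F5_345 h).elim
  · exact (F5_123 h).elim
  · exact (F5_124 h).elim
  · exact (F5_134 h).elim
  · exact (F5_234 h).elim
  · exact (F5_1235 h).elim
  · exact (F5_1245 h).elim
  · exact (F5_1345 h).elim
  · exact (F5_2345 h).elim
  · exact (F5_1234 h).elim
  · exact Or.inl ⟨by decide, fullType (by norm_num) h (by decide)⟩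

theorem class1 {R : Finset (ZMod 1)} {b : ZMod 1 → ℕ} {C : Finset ℕ}
    (h : IsSolution 1 R b C) : IsListed 1 R b C := by
  rcases R.eq_empty_or_nonempty with hR | ⟨x, hx⟩
  · exact (emptyType h hR).elim
  · have hall : ∀ j, j ∈ R := fun j => by
      rw [Subsingleton.elim j x]
      exact hx
    exact Or.inl ⟨hall, fullType (by norm_num) h hall⟩

/-- every listed triple is a solution -/
theorem listed_sol {M : ℕ} (hM : 0 < M) {R : Finset (ZMod M)} {b : ZMod M → ℕ} {C : Finset ℕ}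
    (h : IsListed M R b C) : IsSolution M R b C := by
  rcases h with ⟨h1, h2, rfl⟩ | ⟨rfl, rfl, h1, h0, rfl⟩ | ⟨rfl, rfl, h1, h2, h0, rfl⟩ |
    ⟨rfl, rfl, h1, h2, h0, rfl⟩ | ⟨rfl, rfl, h1, h2, h3, h0, rfl⟩ |
    ⟨rfl, rfl, h1, h2, h3, h0, rfl⟩ | ⟨rfl, rfl, h1, h2, h3, h0, rfl⟩ |
    ⟨rfl, rfl, h1, h2, h3, h0, rfl⟩ | ⟨rfl, rfl, h1, h2, h3, h0, rfl⟩
  · exact fullSol hM h1 h2
  · exact sol2 b h1 h0
  · exact sol3a b h1 h2 h0
  · exact sol3b b h1 h2 h0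
  · exact sol4a b h1 h2 h3 h0
  · exact sol4b b h1 h2 h3 h0
  · exact sol4c b h1 h2 h3 h0
  · exact sol4d b h1 h2 h3 h0
  · exact sol4e b h1 h2 h3 h0

theorem classification {M : ℕ} (hM : 1 ≤ M) (hM5 : M ≤ 5) (R : Finset (ZMod M))
    (b : ZMod M → ℕ) (C : Finset ℕ) : IsSolution M R b C ↔ IsListed M R b C := by
  refine ⟨fun h => ?_, listed_sol hM⟩
  interval_cases M
  · exact class1 h
  · exact class2 h
  · exact class3 h
  · exact class4 h
  · exact class5 h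

end Pool.Agent.H38.DP
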