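import Pool.Agent.H38.DP.Tab

/-! Assembling certificates. -/

open Finset

namespace Pool.Agent.H38.DP

variable {M len fuel code : ℕ} {As : List ℕ} {prs : List (List ℕ)}
  {ext : List (List ℕ × List ℕ)}

theorem ext_nil (M : ℕ) (As : List ℕ) (prs : List (List ℕ)) :
    ∀ q ∈ ([] : List (List ℕ × List ℕ)), Excl M As prs q := by simp

/-- one segment of a search -/
theorem segOf {st : List (List ℕ × List ℕ)} (hM : 0 < M) (hlen : As.length = len)
    (hlen' : len ≤ 160) (h : run len As (packs As) prs ext fuel code st = true)
    (hext : ∀ q ∈ ext, Excl M As prs q) : ∀ q ∈ st, Excl M As prs q :=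
  run_sound QB_true hM hlen hlen' hext fuel code st h

/-- the whole search -/
theorem rootOf2 {st : List (List ℕ × List ℕ)} (hM : 0 < M)
    (hst : st = [(List.replicate M 1, List.replicate M 60000)])
    (h : ∀ q ∈ st, Excl M As prs q) :
    ∀ gb EC, Good M As gb EC → Concl M prs gb := by
  intro gb EC hG
  rw [hst] at h
  refine h (List.replicate M 1, List.replicate M 60000) (by simp) gb EC hG ?_
  have h1 : ∀ (x e : ℕ), gapOf M (List.replicate M x) e = x := by
    intro x e
    unfold gapOf
    rw [List.getD_eq_getElem _ _ (by rw [List.length_replicate]; exact Nat.mod_lt _ hM)]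
    simp
  refine ⟨by simp, by simp, ?_, ?_⟩
  · intro x hx
    have := List.eq_of_mem_replicate hx
    omega
  · intro e he
    simp only [h1]
    exact ⟨hG.1 e, Or.inr le_rfl⟩

end Pool.Agent.H38.DP
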