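import Pool.Agent.H38.DP.Compare

open Finset

namespace Pool.Agent.H38.DP

variable {M : ℕ}

/-- decreasing lists and finite sets -/
lemma ncard_lists (r : ℕ → ℕ → Prop) (hr : ∀ x y, r x y → y < x)
    (htr : ∀ x y z, r x y → r y z → r x z) (E : ℕ → Prop) (n : ℕ) (P : Finset ℕ → Prop)
    (hP : ∀ S, P S ↔ ((∀ e ∈ S, E e) ∧ ∀ x ∈ S, ∀ y ∈ S, y < x → r x y)) :
    Set.ncard {l : List ℕ | l.IsChain r ∧ (∀ e ∈ l, E e) ∧ l.sum = n} = cnt P n := by
  classical
  have : IsTrans ℕ r := ⟨htr⟩
  unfold cnt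
  rw [← Set.ncard_coe_finset]
  apply Set.ncard_congr (fun l _ => l.toFinset)
  · intro l hl
    obtain ⟨hch, hE, hsum⟩ := hl
    have hpw : l.Pairwise r := List.isChain_iff_pairwise.1 hch
    have hnd : l.Nodup := hpw.imp (fun h => (hr _ _ h).ne')
    have hsumF : ∑ e ∈ l.toFinset, e = n := by
      rw [List.sum_toFinset (fun e => e) hnd]
      simpa using hsum
    rw [mem_coe, mem_filter, mem_powerset, hP]
    refine ⟨?_, ⟨fun e he => hE e (List.mem_toFinset.1 he), ?_⟩, hsumF⟩
    · intro x hx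
      have : x ≤ ∑ e ∈ l.toFinset, e :=
        single_le_sum (f := fun e => e) (fun _ _ => Nat.zero_le _) hx
      exact mem_range.2 (by omega)
    · intro x hx y hy hyx
      rw [List.mem_toFinset] at hx hy
      have hs : l.Pairwise (fun x y => r x y) := hpw
      obtain ⟨i, hi, rfl⟩ := List.mem_iff_getElem.1 hx
      obtain ⟨j, hj, rfl⟩ := List.mem_iff_getElem.1 hy
      rcases Nat.lt_trichotomy i j with h | h | h
      · exact List.pairwise_iff_getElem.1 hs i j hi hj h
      · subst h
        exact absurd hyx (lt_irrefl _)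
      · have := hr _ _ (List.pairwise_iff_getElem.1 hs j i hj hi h)
        omega
  · intro l l' hl hl' heq
    have hpw : l.Pairwise r := List.isChain_iff_pairwise.1 hl.1
    have hpw' : l'.Pairwise r := List.isChain_iff_pairwise.1 hl'.1
    have hnd : l.Nodup := hpw.imp (fun h => (hr _ _ h).ne')
    have hnd' : l'.Nodup := hpw'.imp (fun h => (hr _ _ h).ne')
    have hperm : l.Perm l' := (List.perm_ext_iff_of_nodup hnd hnd').2 (fun a => by
      have := congrArg (fun S => a ∈ S) heq
      simpa using this)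
    exact List.Perm.eq_of_pairwise (fun a b _ _ h1 h2 => by
      have := hr _ _ h1
      have := hr _ _ h2
      omega) hpw hpw' hperm
  · intro S hS
    rw [mem_coe, mem_filter, hP] at hS
    obtain ⟨_, ⟨hE, hR⟩, hsum⟩ := hS
    refine ⟨S.sort (· ≥ ·), ⟨?_, ?_, ?_⟩, ?_⟩
    · have h1 : (S.sort (· ≥ ·)).SortedGT := sortedGT_sort S
      have h2 : (S.sort (· ≥ ·)).Pairwise (· > ·) := h1.pairwise
      rw [List.isChain_iff_pairwise]
      refine List.Pairwise.imp_of_mem ?_ h2
      intro a b ha hb hab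
      rw [mem_sort] at ha hb
      exact hR a ha b hb hab
    · intro e he
      rw [mem_sort] at he
      exact hE e he
    · have : (S.sort (· ≥ ·)).sum = ∑ e ∈ S, e := by
        have h1 := List.sum_toFinset (fun e : ℕ => e) (S.sort_nodup (· ≥ ·))
        rw [sort_toFinset] at h1
        simpa using h1.symm
      rw [this, hsum]
    · exact sort_toFinset S (· ≥ ·)

lemma cnt_congr {P Q : Finset ℕ → Prop} (h : ∀ S, P S ↔ Q S) (n : ℕ) : cnt P n = cnt Q n := by
  classical
  have : P = Q := funext fun S => propext (h S)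
  rw [this]

theorem countA_eq (R : Finset (ZMod M)) (n : ℕ) : countA M R n = cnt (admA R) n := by
  unfold countA
  exact ncard_lists (fun x y => y < x) (fun _ _ h => h) (fun _ _ _ h1 h2 => lt_trans h2 h1)
    (fun e => 0 < e ∧ (e : ZMod M) ∈ R) n (admA R)
    (fun S => ⟨fun h => ⟨h, fun _ _ _ _ h' => h'⟩, fun h => h.1⟩)

theorem countB_eq (b : ZMod M → ℕ) (hb : ∀ j, 0 < b j) (C : Finset ℕ) (n : ℕ) :
    countB M b C n = cnt (adm b C) n := by
  unfold countB
  exact ncard_lists (fun x y => y + b (x : ZMod M) ≤ x)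
    (fun x y h => by have := hb (x : ZMod M); omega)
    (fun x y z h1 h2 => by omega) (fun e => 0 < e ∧ e ∉ C) n (adm b C)
    (fun S => Iff.rfl)

lemma cnt_zero (P : Finset ℕ → Prop) (hP : P ∅) : cnt P 0 ≤ 2 ∧ 1 ≤ cnt P 0 := by
  classical
  constructor
  · unfold cnt
    refine (card_filter_le _ _).trans ?_
    simp
  · unfold cnt
    rw [Nat.one_le_iff_ne_zero, ne_eq, card_eq_zero]
    intro he
    have : (∅ : Finset ℕ) ∈ (range (0 + 1)).powerset.filter
        (fun S => P S ∧ ∑ e ∈ S, e = 0) := by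
      simp [hP]
    rw [he] at this
    simp at this

lemma cnt_adm_zero (b : ZMod M → ℕ) (C : Finset ℕ) : cnt (adm b C) 0 = 1 := by
  classical
  unfold cnt
  rw [card_eq_one]
  refine ⟨∅, ?_⟩
  ext S
  rw [mem_filter, mem_singleton, mem_powerset]
  constructor
  · rintro ⟨h1, h2, _⟩
    by_contra hne
    obtain ⟨x, hx⟩ := nonempty_iff_ne_empty.2 hne
    have := mem_range.1 (h1 hx)
    have := (h2.1 x hx).1
    omega
  · rintro rfl
    exact ⟨by simp, ⟨by simp, by simp⟩, by simp⟩

/-- the solutions `b` for a fixed `R` form an antichain -/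
theorem solution_le_eq (hM : 0 < M) {R : Finset (ZMod M)} {b b' : ZMod M → ℕ}
    {C C' : Finset ℕ} (h : IsSolution M R b C) (h' : IsSolution M R b' C')
    (hle : b ≤ b') : b = b' := by
  by_contra hne
  obtain ⟨j0, hj0⟩ : ∃ j0, b j0 < b' j0 := by
    by_contra hcon
    push Not at hcon
    exact hne (le_antisymm hle hcon)
  apply antichain_aux hM b b' C C' h.1 hle j0 hj0
  intro n
  rcases Nat.eq_zero_or_pos n with rfl | hn
  · rw [cnt_adm_zero, cnt_adm_zero]
  · rw [← countB_eq b h.1, ← countB_eq b' h'.1, ← h.2.2 n hn, ← h'.2.2 n hn]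

theorem solution_C_eq {R : Finset (ZMod M)} {b : ZMod M → ℕ}
    {C C' : Finset ℕ} (h : IsSolution M R b C) (h' : IsSolution M R b C') : C = C' := by
  apply except_unique b C C' h.2.1 h'.2.1
  intro n hn
  rw [← countB_eq b h.1, ← countB_eq b h'.1, ← h.2.2 n hn, ← h'.2.2 n hn]

/-- finiteness -/
theorem finite_solutions (hM : 0 < M) :
    {p : Finset (ZMod M) × (ZMod M → ℕ) × Finset ℕ |
      IsSolution M p.1 p.2.1 p.2.2}.Finite := by
  classical
  have : NeZero M := ⟨by omega⟩
  -- solutions for fixed R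
  have hfix : ∀ R : Finset (ZMod M),
      {p : (ZMod M → ℕ) × Finset ℕ | IsSolution M R p.1 p.2}.Finite := by
    intro R
    have hanti : {b : ZMod M → ℕ | ∃ C, IsSolution M R b C}.Finite := by
      apply IsAntichain.finite_of_partiallyWellOrderedOn (r := (· ≤ ·))
      · intro b hb b' hb' hne hle
        obtain ⟨C, hC⟩ := hb
        obtain ⟨C', hC'⟩ := hb'
        exact hne (solution_le_eq hM hC hC' hle)
      · exact Set.isPWO_of_wellQuasiOrderedLE _
    apply Set.Finite.of_finite_image (f := Prod.fst)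
    · apply hanti.subset
      rintro _ ⟨p, hp, rfl⟩
      exact ⟨p.2, hp⟩
    · intro p hp p' hp' heq
      have h1 : IsSolution M R p.1 p.2 := hp
      have h2 : IsSolution M R p'.1 p'.2 := hp'
      have heq' : p.1 = p'.1 := heq
      rw [heq'] at h1
      exact Prod.ext heq' (solution_C_eq h1 h2)
  have : {p : Finset (ZMod M) × (ZMod M → ℕ) × Finset ℕ | IsSolution M p.1 p.2.1 p.2.2} =
      ⋃ R : Finset (ZMod M), (fun p => (R, p)) ''
        {p : (ZMod M → ℕ) × Finset ℕ | IsSolution M R p.1 p.2} := by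
    ext ⟨R, p⟩
    simp only [Set.mem_iUnion, Set.mem_image]
    constructor
    · intro h
      exact ⟨R, p, h, rfl⟩
    · rintro ⟨R', p', h, heq⟩
      have e1 : R' = R := congrArg Prod.fst heq
      have e2 : p' = p := congrArg Prod.snd heq
      subst e1
      subst e2
      exact h
  rw [this]
  exact Set.finite_iUnion (fun R => (hfix R).image _)

end Pool.Agent.H38.DP
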