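import Pool.Agent.H38.DP.IdentI

/-! Numbers of admissible sets with bounded largest part, and packed digits. -/

open Finset Polynomial

namespace Pool.Agent.H38.DP

open Classical in
/-- number of admissible subsets of `{0, ..., T}` with sum `m` -/
noncomputable def cT (g : ℕ → ℕ) (E : ℕ → Prop) (T m : ℕ) : ℕ :=
  ((range (T + 1)).powerset.filter (fun S => admG g E S ∧ ∑ e ∈ S, e = m)).card

section
variable (g : ℕ → ℕ) (E : ℕ → Prop)

lemma V_coeff_cT (T m : ℕ) : (V g E T).coeff m = (cT g E T m : ℤ) := by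
  classical
  unfold V
  rw [finsetSum_coeff]
  simp only [coeff_X_pow]
  rw [sum_boole]
  unfold cT
  norm_cast
  congr 1
  ext S
  simp only [mem_filter, mem_powerset]
  constructor
  · rintro ⟨⟨h1, h2⟩, h3⟩
    exact ⟨h1, h2, h3.symm⟩
  · rintro ⟨h1, h2, h3⟩
    exact ⟨⟨h1, h2⟩, h3.symm⟩

lemma cT_zero (m : ℕ) : cT g E 0 m = if m = 0 then 1 else 0 := by
  have h := V_coeff_cT g E 0 m
  rw [V_zero, coeff_one] at h
  split_ifs at h ⊢ <;> exact_mod_cast h.symm

lemma cT_succ (T m : ℕ) (hg : 0 < g (T + 1)) : cT g E (T + 1) m = cT g E T m +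
    (open Classical in if E (T + 1) ∧ T + 1 ≤ m then cT g E (T + 1 - g (T + 1)) (m - (T + 1))
      else 0) := by
  classical
  have h1 := V_coeff_cT g E (T + 1) m
  rw [V_succ g E T hg, coeff_add, V_coeff_cT] at h1
  by_cases hE : E (T + 1)
  · rw [if_pos hE, coeff_X_pow_mul'] at h1
    by_cases hm : T + 1 ≤ m
    · rw [if_pos hm, V_coeff_cT] at h1
      rw [if_pos ⟨hE, hm⟩]
      exact_mod_cast h1.symm
    · rw [if_neg hm, add_zero] at h1
      rw [if_neg (fun h => hm h.2), add_zero]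
      exact_mod_cast h1.symm
  · rw [if_neg hE, coeff_zero, add_zero] at h1
    rw [if_neg (fun h => hE h.1), add_zero]
    exact_mod_cast h1.symm

lemma cT_eq_cnt (T m : ℕ) (h : m ≤ T) : cT g E T m = cnt (admG g E) m := by
  have h1 := V_coeff_cT g E T m
  rw [V_coeff g E T m h] at h1
  exact_mod_cast h1.symm

lemma cT_mono_T {T T' : ℕ} (h : T ≤ T') (m : ℕ) : cT g E T m ≤ cT g E T' m := by
  classical
  unfold cT
  apply card_le_card
  intro S hS
  rw [mem_filter, mem_powerset] at hS ⊢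
  exact ⟨hS.1.trans (range_subset_range.2 (by omega)), hS.2⟩

/-- monotonicity in the gaps (gaps larger than `T` count as infinite) -/
lemma cT_mono_g {g g' : ℕ → ℕ} {T : ℕ} (h : ∀ e, 0 < e → e ≤ T → g e ≤ g' e ∨ T < g' e)
    (m : ℕ) :
    cT g' E T m ≤ cT g E T m := by
  classical
  unfold cT
  apply card_le_card
  intro S hS
  rw [mem_filter, mem_powerset] at hS ⊢
  refine ⟨hS.1, ⟨hS.2.1.1, fun x hx y hy hyx => ?_⟩, hS.2.2⟩
  have h1 := hS.2.1.2 x hx y hy hyx
  have h2 := mem_range.1 (hS.1 hx)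
  rcases h x (hS.2.1.1 x hx).1 (by omega) with h3 | h3 <;> omega

lemma cT_congr_E {E E' : ℕ → Prop} {T : ℕ} (h : ∀ e, 0 < e → e ≤ T → (E e ↔ E' e)) (m : ℕ) :
    cT g E T m = cT g E' T m := by
  classical
  unfold cT
  congr 1
  apply filter_congr
  intro S hS
  rw [mem_powerset] at hS
  constructor
  · rintro ⟨⟨h1, h2⟩, h3⟩
    refine ⟨⟨fun e he => ?_, h2⟩, h3⟩
    have h4 := mem_range.1 (hS he)
    exact ⟨(h1 e he).1, (h e (h1 e he).1 (by omega)).1 (h1 e he).2⟩
  · rintro ⟨⟨h1, h2⟩, h3⟩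
    refine ⟨⟨fun e he => ?_, h2⟩, h3⟩
    have h4 := mem_range.1 (hS he)
    exact ⟨(h1 e he).1, (h e (h1 e he).1 (by omega)).2 (h1 e he).2⟩

/-- all counts are at most the number of partitions into distinct parts -/
lemma cT_le_all (T m : ℕ) : cT g E T m ≤ cnt (admG (fun _ => 1) (fun _ => True)) m := by
  classical
  unfold cT cnt
  apply card_le_card
  intro S hS
  rw [mem_filter, mem_powerset] at hS ⊢
  refine ⟨fun x hx => ?_, ⟨fun e he => ⟨(hS.2.1.1 e he).1, trivial⟩, fun x _ y _ h => h⟩,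
    hS.2.2⟩
  have : x ≤ ∑ e ∈ S, e := single_le_sum (f := fun e => e) (fun _ _ => Nat.zero_le _) hx
  exact mem_range.2 (by omega)

open Classical in
/-- the packed generating function -/
noncomputable def Wt (B : ℕ) (T : ℕ) : ℕ :=
  ∑ S ∈ (range (T + 1)).powerset with admG g E S, B ^ (∑ i ∈ S, i)

lemma Wt_eval (B T : ℕ) : (Wt g E B T : ℤ) = (V g E T).eval (B : ℤ) := by
  unfold Wt V
  rw [eval_finsetSum]
  push_cast
  apply sum_congr rfl
  intro S _
  rw [eval_pow, eval_X]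

lemma Wt_zero (B : ℕ) : Wt g E B 0 = 1 := by
  have h := Wt_eval g E B 0
  rw [V_zero, eval_one] at h
  exact_mod_cast h

lemma Wt_succ (B T : ℕ) (hg : 0 < g (T + 1)) : Wt g E B (T + 1) = Wt g E B T +
    (open Classical in if E (T + 1) then B ^ (T + 1) * Wt g E B (T + 1 - g (T + 1)) else 0) := by
  classical
  have h := Wt_eval g E B (T + 1)
  rw [V_succ g E T hg, eval_add, ← Wt_eval] at h
  split_ifs at h ⊢
  · rw [eval_mul, eval_pow, eval_X, ← Wt_eval] at h
    exact_mod_cast h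
  · rw [eval_zero, add_zero] at h
    rw [add_zero]
    exact_mod_cast h

lemma Wt_digits (B T L : ℕ) (hL : (T + 1) ^ 2 < L) :
    Wt g E B T = ∑ m ∈ range L, cT g E T m * B ^ m := by
  classical
  unfold Wt cT
  have hmaps : ∀ S ∈ (range (T + 1)).powerset.filter (fun S => admG g E S),
      (∑ e ∈ S, e) ∈ range L := by
    intro S hS
    have hsub := mem_powerset.1 (mem_filter.1 hS).1
    have : ∑ e ∈ S, e ≤ (T + 1) ^ 2 := by
      calc ∑ e ∈ S, e ≤ ∑ e ∈ range (T + 1), e := sum_le_sum_of_subset hsub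
        _ ≤ ∑ _e ∈ range (T + 1), (T + 1) := sum_le_sum (fun e he => by
            have := mem_range.1 he; omega)
        _ = (T + 1) ^ 2 := by simp [pow_two]
    exact mem_range.2 (by omega)
  rw [← sum_fiberwise_of_maps_to hmaps]
  apply sum_congr rfl
  intro m _
  rw [card_eq_sum_ones, sum_mul]
  rw [filter_filter]
  apply sum_congr rfl
  intro S hS
  rw [(mem_filter.1 hS).2.2, one_mul]

end

lemma sum_lt_pow (B : ℕ) (f : ℕ → ℕ) (m : ℕ) (hf : ∀ i, i < m → f i < B) :
    ∑ i ∈ range m, f i * B ^ i < B ^ m := by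
  induction m with
  | zero => simp
  | succ m ih =>
    have h1 := ih (fun i hi => hf i (by omega))
    have h2 := hf m (by omega)
    rw [sum_range_succ, pow_succ]
    have h3 : (f m + 1) * B ^ m ≤ B * B ^ m := Nat.mul_le_mul_right _ h2
    nlinarith

/-- extraction of a digit -/
lemma digit (B : ℕ) (f : ℕ → ℕ) (L m : ℕ) (hm : m < L) (hf : ∀ i, i ≤ m → f i < B) :
    (∑ i ∈ range L, f i * B ^ i) / B ^ m % B = f m := by
  obtain ⟨d, rfl⟩ := Nat.exists_eq_add_of_lt hm
  have hB : 0 < B := by have := hf m le_rfl; omega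
  have h1 := sum_lt_pow B f m (fun i hi => hf i (by omega))
  have e1 : m + d + 1 = m + (d + 1) := by ring
  rw [e1, sum_range_add]
  have h2 : ∑ x ∈ range (d + 1), f (m + x) * B ^ (m + x) =
      B ^ m * ∑ x ∈ range (d + 1), f (m + x) * B ^ x := by
    rw [mul_sum]
    apply sum_congr rfl
    intro x _
    rw [pow_add]
    ring
  rw [h2, Nat.add_mul_div_left _ _ (pow_pos hB m), Nat.div_eq_of_lt h1, zero_add,
    sum_range_succ']
  simp only [add_zero, pow_zero, mul_one]
  have h3 : ∑ k ∈ range d, f (m + (k + 1)) * B ^ (k + 1) =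
      B * ∑ k ∈ range d, f (m + (k + 1)) * B ^ k := by
    rw [mul_sum]
    apply sum_congr rfl
    intro x _
    rw [pow_succ]
    ring
  rw [h3, Nat.mul_add_mod, Nat.mod_eq_of_lt (hf m le_rfl)]

lemma mod_div_mod (B x n m : ℕ) (hm : m < n) : x % B ^ n / B ^ m % B = x / B ^ m % B := by
  obtain ⟨d, rfl⟩ := Nat.exists_eq_add_of_lt hm
  have e1 : m + d + 1 = m + (d + 1) := by ring
  rw [e1, pow_add, Nat.mod_mul_right_div_self, pow_succ']
  exact Nat.mod_mod_of_dvd _ (dvd_mul_right _ _)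

end Pool.Agent.H38.DP
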