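import Pool.Agent.H38.DP.Growth

open Finset

namespace Pool.Agent.H38.DP

variable {M : ℕ}

/-- sets satisfying the gap conditions and avoiding `C` -/
def adm (b : ZMod M → ℕ) (C : Finset ℕ) (S : Finset ℕ) : Prop :=
  (∀ e ∈ S, 0 < e ∧ e ∉ C) ∧ ∀ x ∈ S, ∀ y ∈ S, y < x → y + b (x : ZMod M) ≤ x

/-- sets with all elements in the classes of `R` -/
def admA (R : Finset (ZMod M)) (S : Finset ℕ) : Prop :=
  ∀ e ∈ S, 0 < e ∧ (e : ZMod M) ∈ R

lemma adm_insert (b : ZMod M → ℕ) (C : Finset ℕ) (B s w : ℕ) (hB : ∀ j, b j ≤ B)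
    (S pat : Finset ℕ) (hpat : pat ⊆ Ico (s + B) (s + w - B)) (hp : adm b C pat)
    (hS : adm b C S) : adm b C ((S \ Ico s (s + w)) ∪ pat) := by
  constructor
  · intro e he
    rcases mem_union.1 he with h | h
    · exact hS.1 e (mem_sdiff.1 h).1
    · exact hp.1 e h
  · intro x hx y hy hyx
    rcases mem_union.1 hx with hx | hx <;> rcases mem_union.1 hy with hy | hy
    · exact hS.2 x (mem_sdiff.1 hx).1 y (mem_sdiff.1 hy).1 hyx
    · have h1 := mem_Ico.1 (hpat hy)
      have h2 : ¬ (s ≤ x ∧ x < s + w) := fun h => (mem_sdiff.1 hx).2 (mem_Ico.2 h)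
      have h3 := hB (x : ZMod M)
      omega
    · have h1 := mem_Ico.1 (hpat hx)
      have h2 : ¬ (s ≤ y ∧ y < s + w) := fun h => (mem_sdiff.1 hy).2 (mem_Ico.2 h)
      have h3 := hB (x : ZMod M)
      omega
    · exact hp.2 x hx y hy hyx

/-- General comparison: if `P'` is a subfamily of the admissible sets which misses one
admissible pattern in every window, then its weighted sum is smaller by any factor. -/
theorem compare (b : ZMod M → ℕ) (C : Finset ℕ) (B : ℕ) (hB : ∀ j, b j ≤ B)
    (P' : Finset ℕ → Prop) (h1 : ∀ S, P' S → adm b C S) (w K0 : ℕ) (pat : ℕ → Finset ℕ)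
    (hpat : ∀ i, pat i ⊆ Ico (K0 + i * w + B) (K0 + i * w + w - B))
    (hadm : ∀ i, adm b C (pat i))
    (h2 : ∀ i S, P' S → S ∩ Ico (K0 + i * w) (K0 + i * w + w) ≠ pat i) (c : ℝ) :
    ∃ q : ℝ, 0 < q ∧ q < 1 ∧ ∃ N0, ∀ N, N0 ≤ N → c * Z q N P' ≤ Z q N (adm b C) := by
  obtain ⟨k, hk⟩ := pow_unbounded_of_one_lt c
    (by have : (0 : ℝ) < 1 / 2 / 2 ^ w := by positivity
        linarith : (1 : ℝ) < 1 + 1 / 2 / 2 ^ w)
  set X : ℕ := w * (K0 + k * w) with hX
  set q : ℝ := 1 - 1 / (2 * (X + 1)) with hq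
  have hX0 : (0 : ℝ) ≤ X := Nat.cast_nonneg X
  have hfrac : (1 : ℝ) / (2 * (X + 1)) ≤ 1 / 2 := by
    apply div_le_div_of_nonneg_left (by norm_num) (by norm_num) (by linarith)
  have hfpos : (0 : ℝ) < 1 / (2 * (X + 1)) := by positivity
  have hq0 : 0 < q := by rw [hq]; linarith
  have hq1 : q < 1 := by rw [hq]; linarith
  have hqX : 1 / 2 ≤ q ^ X := by
    have hb := one_add_mul_le_pow (a := -(1 / (2 * ((X : ℝ) + 1)))) (by linarith) X
    have e1 : 1 + -(1 / (2 * ((X : ℝ) + 1))) = q := by rw [hq]; ring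
    rw [e1] at hb
    have e2 : (X : ℝ) * (1 / (2 * ((X : ℝ) + 1))) ≤ 1 / 2 := by
      rw [mul_one_div, div_le_iff₀ (by positivity)]
      linarith
    linarith
  refine ⟨q, hq0, hq1, K0 + k * w, fun N hN => ?_⟩
  have hwin : ∀ i < k, K0 + i * w + w ≤ K0 + k * w := by
    intro i hi
    have : (i + 1) * w ≤ k * w := Nat.mul_le_mul_right w hi
    nlinarith
  have hg := growth hq0 hq1.le N k w X (adm b C) P'
    (fun i => Ico (K0 + i * w) (K0 + i * w + w)) pat
    (fun i _ x hx => by
      have := mem_Ico.1 (hpat i hx)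
      exact mem_Ico.2 ⟨by omega, by omega⟩)
    (fun i hi x hx => by
      have := mem_Ico.1 hx
      have := hwin i hi
      exact mem_range.2 (by omega))
    (fun i _ => by simp)
    (fun i hi => by
      calc ∑ e ∈ pat i, e ≤ ∑ _e ∈ pat i, (K0 + k * w) := sum_le_sum (fun e he => by
            have := mem_Ico.1 (hpat i he)
            have := hwin i hi
            omega)
        _ = (pat i).card * (K0 + k * w) := by rw [sum_const, smul_eq_mul]
        _ ≤ w * (K0 + k * w) := by
            apply Nat.mul_le_mul_right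
            calc (pat i).card ≤ (Ico (K0 + i * w) (K0 + i * w + w)).card :=
                  card_le_card (fun x hx => by
                    have := mem_Ico.1 (hpat i hx)
                    exact mem_Ico.2 ⟨by omega, by omega⟩)
              _ = w := by simp)
    (fun i _ j _ hij => by
      rw [disjoint_left]
      intro x hx hx'
      have h1 := mem_Ico.1 hx
      have h2 := mem_Ico.1 hx'
      rcases Nat.lt_or_gt_of_ne hij with h | h
      · have : (i + 1) * w ≤ j * w := Nat.mul_le_mul_right w h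
        nlinarith
      · have : (j + 1) * w ≤ i * w := Nat.mul_le_mul_right w h
        nlinarith)
    h1 (fun i _ S hS => h2 i S hS)
    (fun i _ S hS => adm_insert b C B _ w hB S (pat i) (hpat i) (hadm i) hS)
  refine le_trans ?_ hg
  apply mul_le_mul_of_nonneg_right _ (Z_nonneg hq0.le N P')
  refine hk.le.trans ?_
  apply pow_le_pow_left₀ (by positivity)
  have : 1 / 2 / 2 ^ w ≤ q ^ X / 2 ^ w := by
    apply div_le_div_of_nonneg_right hqX (by positivity)
  linarith

/-- the difference of an element and a class representative -/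
lemma exists_class (hM : 0 < M) (j : ZMod M) (s : ℕ) :
    ∃ e, s ≤ e ∧ e < s + M ∧ (e : ZMod M) = j := by
  have : NeZero M := ⟨by omega⟩
  refine ⟨s + (j - (s : ZMod M)).val, by omega, ?_, ?_⟩
  · have := ZMod.val_lt (j - (s : ZMod M))
    omega
  · push_cast
    rw [ZMod.natCast_zmod_val]
    ring

/-- Key lemma: smaller gaps give strictly more partitions, for some `n`. -/
theorem antichain_aux (hM : 0 < M) (b b' : ZMod M → ℕ) (C C' : Finset ℕ)
    (hb : ∀ j, 0 < b j) (hle : ∀ j, b j ≤ b' j) (j0 : ZMod M) (hlt : b j0 < b' j0)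
    (hcnt : ∀ n, cnt (adm b C) n ≤ cnt (adm b' C') n) : False := by
  classical
  have : NeZero M := ⟨by omega⟩
  obtain ⟨B, hB⟩ : ∃ B, ∀ j, b j ≤ B := by
    refine ⟨∑ j, b j, fun j => ?_⟩
    exact single_le_sum (f := fun j => b j) (fun _ _ => Nat.zero_le _) (mem_univ j)
  obtain ⟨K, hK⟩ : ∃ K, ∀ c ∈ C, c < K := by
    refine ⟨C.sup id + 1, fun c hc => ?_⟩
    have : c ≤ C.sup id := le_sup (f := id) hc
    omega
  set w : ℕ := 3 * B + M + 1 with hw
  choose e he using fun i : ℕ => exists_class hM j0 (K + i * w + 2 * B)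
  have hb0 := hb j0
  have hbB := hB j0
  obtain ⟨q, hq0, hq1, N0, hN0⟩ := compare b C B hB (adm b' C)
    (fun S hS => ⟨hS.1, fun x hx y hy hyx => by
      have := hS.2 x hx y hy hyx
      have := hle (x : ZMod M)
      omega⟩) w K (fun i => {e i, e i - b j0})
    (fun i x hx => by
      have h := he i
      rw [mem_insert, mem_singleton] at hx
      rw [mem_Ico]
      rcases hx with rfl | rfl <;> omega)
    (fun i => by
      have h := he i
      constructor
      · intro x hx
        rw [mem_insert, mem_singleton] at hx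
        have hxK : K ≤ x := by rcases hx with rfl | rfl <;> omega
        have hx0 : 0 < x := by rcases hx with rfl | rfl <;> omega
        exact ⟨hx0, fun hC => by have := hK x hC; omega⟩
      · intro x hx y hy hyx
        rw [mem_insert, mem_singleton] at hx hy
        rcases hx with rfl | rfl <;> rcases hy with rfl | rfl
        · omega
        · rw [h.2.2]; omega
        · omega
        · omega)
    (fun i S hS hEq => by
      have h := he i
      have m1 : e i ∈ S := by
        have : e i ∈ S ∩ Ico (K + i * w) (K + i * w + w) := by rw [hEq]; simp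
        exact (mem_inter.1 this).1
      have m2 : e i - b j0 ∈ S := by
        have : e i - b j0 ∈ S ∩ Ico (K + i * w) (K + i * w + w) := by rw [hEq]; simp
        exact (mem_inter.1 this).1
      have := hS.2 _ m1 _ m2 (by omega)
      rw [h.2.2] at this
      omega) (2 * 2 ^ C.card)
  apply no_gap hq0 hq1 (adm b C) (adm b' C') ⟨by simp, by simp⟩ hcnt N0
  intro N hN
  have hrem : Z q N (adm b' C') ≤ 2 ^ C.card * Z q N (adm b' C) := by
    apply Z_remove hq0 hq1.le
    intro S hS
    refine ⟨fun x hx => ?_, fun x hx y hy hyx => ?_⟩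
    · have := mem_sdiff.1 hx
      exact ⟨(hS.1 x this.1).1, this.2⟩
    · exact hS.2 x (mem_sdiff.1 hx).1 y (mem_sdiff.1 hy).1 hyx
  calc 2 * Z q N (adm b' C') ≤ 2 * (2 ^ C.card * Z q N (adm b' C)) := by linarith
    _ = 2 * 2 ^ C.card * Z q N (adm b' C) := by ring
    _ ≤ _ := hN0 N hN

/-- uniqueness of the exceptional set -/
theorem except_unique (b : ZMod M → ℕ) (C C' : Finset ℕ) (hC : ∀ c ∈ C, 0 < c)
    (hC' : ∀ c ∈ C', 0 < c) (hcnt : ∀ n, 0 < n → cnt (adm b C) n = cnt (adm b C') n) :
    C = C' := by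
  classical
  by_contra hne
  have hex : ∃ c, ¬ (c ∈ C ↔ c ∈ C') := by
    by_contra h
    push Not at h
    exact hne (Finset.ext h)
  set c := Nat.find hex with hc
  have hc1 : ¬ (c ∈ C ↔ c ∈ C') := Nat.find_spec hex
  have hc2 : ∀ d, d < c → (d ∈ C ↔ d ∈ C') := by
    intro d hd
    have := Nat.find_min hex hd
    push Not at this
    exact this
  -- by symmetry assume c ∈ C, c ∉ C'
  have key : ∀ C1 C2 : Finset ℕ, (∀ x ∈ C1, 0 < x) → c ∈ C1 → c ∉ C2 →
      (∀ d, d < c → (d ∈ C1 ↔ d ∈ C2)) → cnt (adm b C1) c < cnt (adm b C2) c := by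
    intro C1 C2 hpos h1 h2 h3
    have hc0 : 0 < c := hpos c h1
    unfold cnt
    apply card_lt_card
    rw [ssubset_iff_of_subset]
    · refine ⟨{c}, ?_, ?_⟩
      · rw [mem_filter, mem_powerset]
        refine ⟨by simp, ⟨?_, ?_⟩, by simp⟩
        · intro e he
          rw [mem_singleton] at he
          subst he
          exact ⟨hc0, h2⟩
        · intro x hx y hy hyx
          rw [mem_singleton] at hx hy
          omega
      · intro hmem
        have := (mem_filter.1 hmem).2.1.1 c (by simp)
        exact this.2 h1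
    · intro S hS
      rw [mem_filter] at hS ⊢
      refine ⟨hS.1, ⟨fun e he => ⟨(hS.2.1.1 e he).1, fun heC2 => ?_⟩, hS.2.1.2⟩, hS.2.2⟩
      have hle : e ≤ c := by
        rw [← hS.2.2]
        exact single_le_sum (f := fun e => e) (fun _ _ => Nat.zero_le _) he
      rcases Nat.lt_or_ge e c with h | h
      · exact (hS.2.1.1 e he).2 ((h3 e h).2 heC2)
      · have : e = c := le_antisymm hle h
        subst this
        exact h2 heC2
  by_cases hcC : c ∈ C
  · have hcC' : c ∉ C' := fun h => hc1 ⟨fun _ => h, fun _ => hcC⟩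
    have := key C C' hC hcC hcC' hc2
    have h0 := hcnt c (hC c hcC)
    omega
  · have hcC' : c ∈ C' := by
      by_contra h
      exact hc1 ⟨fun h' => absurd h' hcC, fun h' => absurd h' h⟩
    have := key C' C hC' hcC' hcC (fun d hd => (hc2 d hd).symm)
    have h0 := hcnt c (hC' c hcC')
    omega

end Pool.Agent.H38.DP
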