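import Mathlib

/-! Partitions into distinct parts in given residue classes, and partitions with
gap conditions (Andrews' problem). -/

namespace Pool.Agent.H38.DP

/-- `A(R; M; n)`: the number of partitions of `n` into distinct parts, each part being
congruent modulo `M` to an element of `R`.  A partition is written as the list
`e_1 > e_2 > ... > e_r` of its parts. -/
noncomputable def countA (M : ℕ) (R : Finset (ZMod M)) (n : ℕ) : ℕ :=
  Set.ncard {l : List ℕ | l.IsChain (fun e e' : ℕ => e' < e) ∧
    (∀ e ∈ l, 0 < e ∧ (e : ZMod M) ∈ R) ∧ l.sum = n}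

/-- `B_0(b; M; C; n)`: the number of partitions `n = e_1 + ... + e_r` into positive parts
not in `C` such that `e_i - e_{i+1} ≥ b_j` for all `i < r`, where `j` is the residue class
of the larger part `e_i` modulo `M`. -/
noncomputable def countB (M : ℕ) (b : ZMod M → ℕ) (C : Finset ℕ) (n : ℕ) : ℕ :=
  Set.ncard {l : List ℕ | l.IsChain (fun e e' : ℕ => e' + b (e : ZMod M) ≤ e) ∧
    (∀ e ∈ l, 0 < e ∧ e ∉ C) ∧ l.sum = n}

/-- The triple `(R, b, C)` is a solution for the modulus `M`: the gaps `b_j` and the
elements of `C` are positive, and `A(R; M; n) = B_0(b; M; C; n)` for every `n ≥ 1`. -/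
def IsSolution (M : ℕ) (R : Finset (ZMod M)) (b : ZMod M → ℕ) (C : Finset ℕ) : Prop :=
  (∀ j, 0 < b j) ∧ (∀ c ∈ C, 0 < c) ∧ ∀ n, 0 < n → countA M R n = countB M b C n

end Pool.Agent.H38.DP
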