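import Mathlib

/-! A search over boxes of gap vectors, written with recursors so that the kernel evaluates
it quickly. -/

namespace Pool.Agent.H38.DP

noncomputable section

/-- evaluate a number before passing it on -/
def lit {α : Type} (x : ℕ) (k : ℕ → α) : α := Nat.rec (k 0) (fun m _ => k m) (Nat.succ x)

/-- packed generating functions: `n` more steps -/
def comp (K S P : ℕ) (n : ℕ) : ℕ → List ℕ → ℕ → ℕ → ℕ → ℕ → ℕ :=
  Nat.rec (motive := fun _ => ℕ → List ℕ → ℕ → ℕ → ℕ → ℕ → ℕ) (fun _ _ _ _ _ v => v)
    (fun _ ih mask cls kt st W v =>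
      List.rec (motive := fun _ => ℕ) 0
        (fun c cls' _ =>
          Nat.rec (motive := fun _ => ℕ)
            (ih (Nat.div mask 2) cls' (Nat.add kt K) (Nat.add st S)
              (Nat.add W (Nat.shiftLeft v st)) v)
            (fun _ _ => (fun u => ih (Nat.div mask 2) cls' (Nat.add kt K) (Nat.add st S)
                (Nat.add W (Nat.shiftLeft u st)) u)
              (Nat.mod (Nat.add v (Nat.shiftLeft
                (Nat.mod (Nat.shiftRight W (Nat.sub st c)) P) kt)) P))
            (Nat.mod mask 2)) cls) n

/-- multiples -/
def scale (S : ℕ) (L : List ℕ) : List ℕ :=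
  List.rec (motive := fun _ => List ℕ) []
    (fun a _ ih => lit (Nat.mul S a) (fun x => x :: ih)) L

def app (L : List ℕ) (L' : List ℕ) : List ℕ :=
  List.rec (motive := fun _ => List ℕ) L' (fun a _ ih => a :: ih) L

/-- repetition of a list -/
def cyc (k : ℕ) (L : List ℕ) : List ℕ :=
  Nat.rec (motive := fun _ => List ℕ) [] (fun _ ih => app L ih) k

/-- list access -/
def nth (L : List ℕ) : ℕ → ℕ :=
  List.rec (motive := fun _ => ℕ → ℕ) (fun _ => 0)
    (fun a _ ih n => Nat.rec (motive := fun _ => ℕ) a (fun m _ => ih m) n) L

/-- packing a list -/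
def packL (K : ℕ) (L : List ℕ) : ℕ :=
  List.rec (motive := fun _ => ℕ) 0 (fun a _ ih => Nat.add a (Nat.mul (Nat.pow 2 K) ih)) L

/-- the numbers `packL K As` for `K = 8, 9, ..., 27` -/
def packs (As : List ℕ) : List ℕ :=
  [packL 8 As, packL 9 As, packL 10 As, packL 11 As, packL 12 As, packL 13 As, packL 14 As,
   packL 15 As, packL 16 As, packL 17 As, packL 18 As, packL 19 As, packL 20 As, packL 21 As,
   packL 22 As, packL 23 As, packL 24 As, packL 25 As, packL 26 As, packL 27 As]

/-- the check of a dead box -/
def leafChk (a : ℕ) (lo hi : List ℕ) (n mask Apk : ℕ) : Bool :=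
  lit (Nat.add (Nat.div n 8) 8) fun K => lit (Nat.mul K (Nat.succ n)) fun S =>
  lit (Nat.pow 2 S) fun P => lit (Nat.pow 2 (Nat.mul K n)) fun Q =>
  lit (Nat.mod Apk Q) fun Am =>
  lit (comp K S P (Nat.pred n) mask (cyc n (scale S hi)) K S 1 1) fun vh =>
  Bool.rec (motive := fun _ => Bool) false
    (lit (comp K S P (Nat.pred n) mask (cyc n (scale S lo)) K S 1 1) fun vl =>
     Bool.rec (motive := fun _ => Bool) false
       (Bool.rec (motive := fun _ => Bool)
         (Nat.ble (Nat.add (Nat.mod (Nat.div vl Q) (Nat.pow 2 K)) 2) a) true
         (Nat.ble (Nat.succ a) (Nat.mod (Nat.div vh Q) (Nat.pow 2 K))))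
       (Nat.beq (Nat.mod vl Q) Am))
    (Nat.beq (Nat.mod vh Q) Am)

/-- pointwise comparison -/
def belowOne (L : List ℕ) : List ℕ → Bool :=
  List.rec (motive := fun _ => List ℕ → Bool)
   (fun hs => List.rec (motive := fun _ => Bool) true (fun _ _ _ => false) hs)
   (fun g _ ih hs => List.rec (motive := fun _ => Bool) false
      (fun h hs' _ => Bool.rec (motive := fun _ => Bool) false (ih hs') (Nat.ble h g)) hs) L

def below (prs : List (List ℕ)) (hi : List ℕ) : Bool :=
  List.rec (motive := fun _ => Bool) false
    (fun g _ ih => Bool.rec (motive := fun _ => Bool) ih true (belowOne g hi)) prs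

/-- equality of lists -/
def eqL (L : List ℕ) : List ℕ → Bool :=
  List.rec (motive := fun _ => List ℕ → Bool)
   (fun hs => List.rec (motive := fun _ => Bool) true (fun _ _ _ => false) hs)
   (fun g _ ih hs => List.rec (motive := fun _ => Bool) false
      (fun h hs' _ => Bool.rec (motive := fun _ => Bool) false (ih hs') (Nat.beq h g)) hs) L

def memB (lo hi : List ℕ) (ext : List (List ℕ × List ℕ)) : Bool :=
  List.rec (motive := fun _ => Bool) false
    (fun p _ ih => Bool.rec (motive := fun _ => Bool) ih
      (Bool.rec (motive := fun _ => Bool) ih true (eqL hi p.2)) (eqL lo p.1)) ext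

/-- replace an entry -/
def setL (L : List ℕ) : ℕ → ℕ → List ℕ :=
  List.rec (motive := fun _ => ℕ → ℕ → List ℕ) (fun _ _ => [])
    (fun a L ih j d => Nat.rec (motive := fun _ => List ℕ) (d :: L) (fun m _ => a :: ih m d) j) L

/-- run through the code of a tree; tokens of 12 bits:
`2048 + n` dead box (followed by `n` bits), `4095` box below a known vector,
`4094` box in the list of external boxes, otherwise split -/
def run (len : ℕ) (As Apks : List ℕ) (prs : List (List ℕ)) (ext : List (List ℕ × List ℕ))
    (fuel : ℕ) : ℕ → List (List ℕ × List ℕ) → Bool :=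
  Nat.rec (motive := fun _ => ℕ → List (List ℕ × List ℕ) → Bool) (fun _ _ => false)
    (fun _ ih code st => List.rec (motive := fun _ => Bool) true
      (fun p st' _ =>
        lit (Nat.mod code 4096) fun t =>
        Bool.rec (motive := fun _ => Bool)
          (lit (Nat.div code 4096) fun code' =>
            lit (Nat.div t 256) fun j => lit (Nat.mod t 256) fun d =>
            ih code' ((p.1, setL p.2 j d) :: (setL p.1 j (Nat.succ d), p.2) :: st'))
          (Bool.rec (motive := fun _ => Bool)
            (Bool.rec (motive := fun _ => Bool)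
              (lit (Nat.sub t 2048) fun n =>
                lit (Nat.div code 4096) fun code' =>
                lit (Nat.mod code' (Nat.pow 2 n)) fun mask =>
                Bool.rec (motive := fun _ => Bool) false
                  (Bool.rec (motive := fun _ => Bool) false
                    (Bool.rec (motive := fun _ => Bool) false
                      (lit (Nat.div code' (Nat.pow 2 n)) fun code'' => ih code'' st')
                      (leafChk (nth As n) p.1 p.2 n mask (nth Apks (Nat.div n 8))))
                    (Nat.ble (Nat.succ n) len))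
                  (Nat.ble 1 n))
              (Bool.rec (motive := fun _ => Bool) false
                (lit (Nat.div code 4096) fun code' => ih code' st') (memB p.1 p.2 ext))
              (Nat.beq t 4094))
            (Bool.rec (motive := fun _ => Bool) false
              (lit (Nat.div code 4096) fun code' => ih code' st') (below prs p.2))
            (Nat.beq t 4095))
          (Nat.ble 2048 t)) st) fuel

/-- truncated multiplication with `1 + X ^ e` -/
def mulA (l : List ℕ) (e : ℕ) : List ℕ := List.zipWith (· + ·) l (List.replicate e 0 ++ l)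

/-- table of the numbers of partitions into distinct parts -/
def tab (f : ℕ → Bool) (N : ℕ) : ℕ → List ℕ
  | 0 => 1 :: List.replicate N 0
  | e + 1 => bif f (e + 1) then mulA (tab f N e) (e + 1) else tab f N e

end

end Pool.Agent.H38.DP
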