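import Pool.Agent.H38.DP.Sols
import Pool.Agent.H38.DP.Cert.All

/-! All sets of residues for the moduli 2, 3, 4, 5. -/

namespace Pool.Agent.H38.DP

set_option maxRecDepth 100000

theorem F2_1 {b : ZMod 2 → ℕ} {C : Finset ℕ} (h : IsSolution 2 {1} b C) :
    (b 1 = 6 ∧ b 0 = 7 ∧ C = {2}) := by
  obtain ⟨g, hg, hl⟩ := concl_of (by norm_num) h
    (fun r => ([1] : List ℕ).contains r) 9 (by decide) T2_1 R2_1
  simp only [P2_1, List.mem_cons, List.not_mem_nil, or_false] at hg
  rcases hg with rfl | rfl
  · exact (lowL (by norm_num) h hl 0 (by decide) (by decide)).elim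
  · have hs := lowSol (by norm_num) h (sol2 (fun j => if j = 1 then 6 else 7) (by decide) (by decide)) hl (by decide)
    obtain ⟨rfl, hC⟩ := hs
    exact ⟨by decide, by decide, hC⟩

theorem F2_2 {b : ZMod 2 → ℕ} {C : Finset ℕ} (h : IsSolution 2 {0} b C) : False :=
  zeroType (by norm_num) h 1 (by decide) (by decide)

theorem F3_1 {b : ZMod 3 → ℕ} {C : Finset ℕ} (h : IsSolution 3 {1} b C) :
    False := by
  obtain ⟨g, hg, hl⟩ := concl_of (by norm_num) h
    (fun r => ([1] : List ℕ).contains r) 42 (by decide) T3_1 R3_1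
  simp only [P3_1, List.mem_cons, List.not_mem_nil, or_false] at hg
  rcases hg with rfl | rfl | rfl
  · exact (lowL (by norm_num) h hl 0 (by decide) (by decide)).elim
  · exact (lowI h hl 1 0 (by decide) (by simp)).elim
  · exact (lowI' h hl 1 0 (by decide) (by simp)).elim

theorem F3_2 {b : ZMod 3 → ℕ} {C : Finset ℕ} (h : IsSolution 3 {2} b C) :
    False := by
  obtain ⟨g, hg, hl⟩ := concl_of (by norm_num) h
    (fun r => ([2] : List ℕ).contains r) 51 (by decide) T3_2 R3_2
  simp only [P3_2, List.mem_cons, List.not_mem_nil, or_false] at hg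
  rcases hg with rfl | rfl | rfl
  · exact (lowL (by norm_num) h hl 0 (by decide) (by decide)).elim
  · exact (lowI h hl 2 0 (by decide) (by simp)).elim
  · exact (lowI' h hl 2 0 (by decide) (by simp)).elim

theorem F3_3 {b : ZMod 3 → ℕ} {C : Finset ℕ} (h : IsSolution 3 {0} b C) : False :=
  zeroType (by norm_num) h 1 (by decide) (by decide)

theorem F3_12 {b : ZMod 3 → ℕ} {C : Finset ℕ} (h : IsSolution 3 {1, 2} b C) :
    (b 1 = 3 ∧ b 2 = 3 ∧ b 0 = 4 ∧ C = ∅) ∨ (b 1 = 3 ∧ b 2 = 2 ∧ b 0 = 5 ∧ C = ∅) := by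
  obtain ⟨g, hg, hl⟩ := concl_of (by norm_num) h
    (fun r => ([1, 2] : List ℕ).contains r) 16 (by decide) T3_12 R3_12
  simp only [P3_12, List.mem_cons, List.not_mem_nil, or_false] at hg
  rcases hg with rfl | rfl | rfl
  · exact (lowL (by norm_num) h hl 0 (by decide) (by decide)).elim
  · have hs := lowSol (by norm_num) h (sol3a (fun j => if j = 1 then 3 else if j = 2 then 3 else 4) (by decide) (by decide) (by decide)) hl (by decide)
    obtain ⟨rfl, hC⟩ := hs
    exact Or.inl ⟨by decide, by decide, by decide, hC⟩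
  · have hs := lowSol (by norm_num) h (sol3b (fun j => if j = 1 then 3 else if j = 2 then 2 else 5) (by decide) (by decide) (by decide)) hl (by decide)
    obtain ⟨rfl, hC⟩ := hs
    exact Or.inr (⟨by decide, by decide, by decide, hC⟩)

theorem F3_13 {b : ZMod 3 → ℕ} {C : Finset ℕ} (h : IsSolution 3 {0, 1} b C) :
    False := by
  obtain ⟨g, hg, hl⟩ := concl_of (by norm_num) h
    (fun r => ([1, 0] : List ℕ).contains r) 7 (by decide) T3_13 R3_13
  simp only [P3_13, List.mem_cons, List.not_mem_nil, or_false] at hg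
  subst hg
  · exact (lowL (by norm_num) h hl 2 (by decide) (by decide)).elim

theorem F3_23 {b : ZMod 3 → ℕ} {C : Finset ℕ} (h : IsSolution 3 {0, 2} b C) :
    False := by
  obtain ⟨g, hg, hl⟩ := concl_of (by norm_num) h
    (fun r => ([2, 0] : List ℕ).contains r) 8 (by decide) T3_23 R3_23
  simp only [P3_23, List.mem_cons, List.not_mem_nil, or_false] at hg
  subst hg
  · exact (lowL (by norm_num) h hl 1 (by decide) (by decide)).elim

theorem F4_1 {b : ZMod 4 → ℕ} {C : Finset ℕ} (h : IsSolution 4 {1} b C) :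
    False := by
  obtain ⟨g, hg, hl⟩ := concl_of (by norm_num) h
    (fun r => ([1] : List ℕ).contains r) 77 (by decide) T4_1 R4_1
  simp only [P4_1, List.mem_cons, List.not_mem_nil, or_false] at hg
  rcases hg with rfl | rfl | rfl
  · exact (lowL (by norm_num) h hl 0 (by decide) (by decide)).elim
  · exact (lowI h hl 1 0 (by decide) (by simp)).elim
  · exact (lowI' h hl 1 0 (by decide) (by simp)).elim

theorem F4_2 {b : ZMod 4 → ℕ} {C : Finset ℕ} (h : IsSolution 4 {2} b C) : False :=
  zeroType (by norm_num) h 2 (by decide) (by decide)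

theorem F4_3 {b : ZMod 4 → ℕ} {C : Finset ℕ} (h : IsSolution 4 {3} b C) :
    False := by
  obtain ⟨g, hg, hl⟩ := concl_of (by norm_num) h
    (fun r => ([3] : List ℕ).contains r) 87 (by decide) T4_3 R4_3
  simp only [P4_3, List.mem_cons, List.not_mem_nil, or_false] at hg
  rcases hg with rfl | rfl | rfl
  · exact (lowL (by norm_num) h hl 0 (by decide) (by decide)).elim
  · exact (lowI h hl 3 0 (by decide) (by simp)).elim
  · exact (lowI' h hl 3 0 (by decide) (by simp)).elim

theorem F4_4 {b : ZMod 4 → ℕ} {C : Finset ℕ} (h : IsSolution 4 {0} b C) : False :=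
  zeroType (by norm_num) h 1 (by decide) (by decide)

theorem F4_12 {b : ZMod 4 → ℕ} {C : Finset ℕ} (h : IsSolution 4 {1, 2} b C) :
    False := by
  obtain ⟨g, hg, hl⟩ := concl_of (by norm_num) h
    (fun r => ([1, 2] : List ℕ).contains r) 43 (by decide) T4_12 R4_12
  simp only [P4_12, List.mem_cons, List.not_mem_nil, or_false] at hg
  rcases hg with rfl | rfl | rfl
  · exact (lowL (by norm_num) h hl 0 (by decide) (by decide)).elim
  · exact (lowII h hl 1 2 0 (by decide) (by simp)).elim
  · exact (lowII' h hl 1 2 0 (by decide) (by simp)).elim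

theorem F4_13 {b : ZMod 4 → ℕ} {C : Finset ℕ} (h : IsSolution 4 {1, 3} b C) :
    (b 1 = 6 ∧ b 2 = 7 ∧ b 3 = 6 ∧ b 0 = 7 ∧ C = {2}) := by
  obtain ⟨g, hg, hl⟩ := concl_of (by norm_num) h
    (fun r => ([1, 3] : List ℕ).contains r) 45 (by decide) T4_13 R4_13
  simp only [P4_13, List.mem_cons, List.not_mem_nil, or_false] at hg
  rcases hg with rfl | rfl | rfl | rfl
  · exact (lowL (by norm_num) h hl 0 (by decide) (by decide)).elim
  · exact (lowII h hl 1 3 2 (by decide) (by simp)).elim
  · exact (lowII' h hl 1 3 2 (by decide) (by simp)).elim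
  · have hs := lowSol (by norm_num) h (sol4a (fun j => if j = 1 then 6 else if j = 2 then 7 else if j = 3 then 6 else 7) (by decide) (by decide) (by decide) (by decide)) hl (by decide)
    obtain ⟨rfl, hC⟩ := hs
    exact ⟨by decide, by decide, by decide, by decide, hC⟩

theorem F4_14 {b : ZMod 4 → ℕ} {C : Finset ℕ} (h : IsSolution 4 {0, 1} b C) :
    False := by
  obtain ⟨g, hg, hl⟩ := concl_of (by norm_num) h
    (fun r => ([1, 0] : List ℕ).contains r) 9 (by decide) T4_14 R4_14
  simp only [P4_14, List.mem_cons, List.not_mem_nil, or_false] at hg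
  subst hg
  · exact (lowL (by norm_num) h hl 2 (by decide) (by decide)).elim

theorem F4_23 {b : ZMod 4 → ℕ} {C : Finset ℕ} (h : IsSolution 4 {2, 3} b C) :
    False := by
  obtain ⟨g, hg, hl⟩ := concl_of (by norm_num) h
    (fun r => ([2, 3] : List ℕ).contains r) 47 (by decide) T4_23 R4_23
  simp only [P4_23, List.mem_cons, List.not_mem_nil, or_false] at hg
  rcases hg with rfl | rfl | rfl
  · exact (lowL (by norm_num) h hl 0 (by decide) (by decide)).elim
  · exact (lowII h hl 2 3 0 (by decide) (by simp)).elim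
  · exact (lowII' h hl 2 3 0 (by decide) (by simp)).elim

theorem F4_24 {b : ZMod 4 → ℕ} {C : Finset ℕ} (h : IsSolution 4 {0, 2} b C) : False :=
  zeroType (by norm_num) h 2 (by decide) (by decide)

theorem F4_34 {b : ZMod 4 → ℕ} {C : Finset ℕ} (h : IsSolution 4 {0, 3} b C) :
    False := by
  obtain ⟨g, hg, hl⟩ := concl_of (by norm_num) h
    (fun r => ([3, 0] : List ℕ).contains r) 11 (by decide) T4_34 R4_34
  simp only [P4_34, List.mem_cons, List.not_mem_nil, or_false] at hg
  subst hg
  · exact (lowL (by norm_num) h hl 1 (by decide) (by decide)).elim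

theorem F4_123 {b : ZMod 4 → ℕ} {C : Finset ℕ} (h : IsSolution 4 {1, 2, 3} b C) :
    False := by
  obtain ⟨g, hg, hl⟩ := concl_of (by norm_num) h
    (fun r => ([1, 2, 3] : List ℕ).contains r) 14 (by decide) T4_123 R4_123
  simp only [P4_123, List.mem_cons, List.not_mem_nil, or_false] at hg
  subst hg
  · exact (lowL (by norm_num) h hl 0 (by decide) (by decide)).elim

theorem F4_124 {b : ZMod 4 → ℕ} {C : Finset ℕ} (h : IsSolution 4 {0, 1, 2} b C) :
    (b 1 = 4 ∧ b 2 = 1 ∧ b 3 = 4 ∧ b 0 = 1 ∧ C = {3}) ∨ (b 1 = 3 ∧ b 2 = 2 ∧ b 3 = 3 ∧ b 0 = 2 ∧ C = ∅) := by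
  obtain ⟨g, hg, hl⟩ := concl_of (by norm_num) h
    (fun r => ([1, 2, 0] : List ℕ).contains r) 32 (by decide) T4_124 R4_124
  simp only [P4_124, List.mem_cons, List.not_mem_nil, or_false] at hg
  rcases hg with rfl | rfl | rfl
  · exact (lowL (by norm_num) h hl 3 (by decide) (by decide)).elim
  · have hs := lowSol (by norm_num) h (sol4c (fun j => if j = 1 then 4 else if j = 2 then 1 else if j = 3 then 4 else 1) (by decide) (by decide) (by decide) (by decide)) hl (by decide)
    obtain ⟨rfl, hC⟩ := hs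
    exact Or.inl ⟨by decide, by decide, by decide, by decide, hC⟩
  · have hs := lowSol (by norm_num) h (sol4b (fun j => if j = 1 then 3 else if j = 2 then 2 else if j = 3 then 3 else 2) (by decide) (by decide) (by decide) (by decide)) hl (by decide)
    obtain ⟨rfl, hC⟩ := hs
    exact Or.inr (⟨by decide, by decide, by decide, by decide, hC⟩)

theorem F4_134 {b : ZMod 4 → ℕ} {C : Finset ℕ} (h : IsSolution 4 {0, 1, 3} b C) :
    False := by
  obtain ⟨g, hg, hl⟩ := concl_of (by norm_num) h
    (fun r => ([1, 3, 0] : List ℕ).contains r) 9 (by decide) T4_134 R4_134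
  simp only [P4_134, List.mem_cons, List.not_mem_nil, or_false] at hg
  subst hg
  · exact (lowL (by norm_num) h hl 2 (by decide) (by decide)).elim

theorem F4_234 {b : ZMod 4 → ℕ} {C : Finset ℕ} (h : IsSolution 4 {0, 2, 3} b C) :
    (b 1 = 4 ∧ b 2 = 1 ∧ b 3 = 4 ∧ b 0 = 1 ∧ C = {1}) ∨ (b 1 = 3 ∧ b 2 = 2 ∧ b 3 = 3 ∧ b 0 = 2 ∧ C = {1}) := by
  obtain ⟨g, hg, hl⟩ := concl_of (by norm_num) h
    (fun r => ([2, 3, 0] : List ℕ).contains r) 22 (by decide) T4_234 R4_234
  simp only [P4_234, List.mem_cons, List.not_mem_nil, or_false] at hg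
  rcases hg with rfl | rfl | rfl
  · exact (lowL (by norm_num) h hl 1 (by decide) (by decide)).elim
  · have hs := lowSol (by norm_num) h (sol4e (fun j => if j = 1 then 4 else if j = 2 then 1 else if j = 3 then 4 else 1) (by decide) (by decide) (by decide) (by decide)) hl (by decide)
    obtain ⟨rfl, hC⟩ := hs
    exact Or.inl ⟨by decide, by decide, by decide, by decide, hC⟩
  · have hs := lowSol (by norm_num) h (sol4d (fun j => if j = 1 then 3 else if j = 2 then 2 else if j = 3 then 3 else 2) (by decide) (by decide) (by decide) (by decide)) hl (by decide)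
    obtain ⟨rfl, hC⟩ := hs
    exact Or.inr (⟨by decide, by decide, by decide, by decide, hC⟩)

theorem F5_1 {b : ZMod 5 → ℕ} {C : Finset ℕ} (h : IsSolution 5 {1} b C) :
    False := by
  obtain ⟨g, hg, hl⟩ := concl_of (by norm_num) h
    (fun r => ([1] : List ℕ).contains r) 126 (by decide) T5_1 R5_1
  simp only [P5_1, List.mem_cons, List.not_mem_nil, or_false] at hg
  rcases hg with rfl | rfl | rfl
  · exact (lowL (by norm_num) h hl 0 (by decide) (by decide)).elim
  · exact (lowI h hl 1 0 (by decide) (by simp)).elim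
  · exact (lowI' h hl 1 0 (by decide) (by simp)).elim

theorem F5_2 {b : ZMod 5 → ℕ} {C : Finset ℕ} (h : IsSolution 5 {2} b C) :
    False := by
  obtain ⟨g, hg, hl⟩ := concl_of (by norm_num) h
    (fun r => ([2] : List ℕ).contains r) 119 (by decide) T5_2 R5_2
  simp only [P5_2, List.mem_cons, List.not_mem_nil, or_false] at hg
  rcases hg with rfl | rfl | rfl
  · exact (lowL (by norm_num) h hl 0 (by decide) (by decide)).elim
  · exact (lowI h hl 2 0 (by decide) (by simp)).elim
  · exact (lowI' h hl 2 0 (by decide) (by simp)).elim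

theorem F5_3 {b : ZMod 5 → ℕ} {C : Finset ℕ} (h : IsSolution 5 {3} b C) :
    False := by
  obtain ⟨g, hg, hl⟩ := concl_of (by norm_num) h
    (fun r => ([3] : List ℕ).contains r) 141 (by decide) T5_3 R5_3
  simp only [P5_3, List.mem_cons, List.not_mem_nil, or_false] at hg
  rcases hg with rfl | rfl | rfl
  · exact (lowL (by norm_num) h hl 0 (by decide) (by decide)).elim
  · exact (lowI h hl 3 0 (by decide) (by simp)).elim
  · exact (lowI' h hl 3 0 (by decide) (by simp)).elim

theorem F5_4 {b : ZMod 5 → ℕ} {C : Finset ℕ} (h : IsSolution 5 {4} b C) :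
    False := by
  obtain ⟨g, hg, hl⟩ := concl_of (by norm_num) h
    (fun r => ([4] : List ℕ).contains r) 147 (by decide) T5_4 R5_4
  simp only [P5_4, List.mem_cons, List.not_mem_nil, or_false] at hg
  rcases hg with rfl | rfl | rfl
  · exact (lowL (by norm_num) h hl 0 (by decide) (by decide)).elim
  · exact (lowI h hl 4 0 (by decide) (by simp)).elim
  · exact (lowI' h hl 4 0 (by decide) (by simp)).elim

theorem F5_5 {b : ZMod 5 → ℕ} {C : Finset ℕ} (h : IsSolution 5 {0} b C) : False :=
  zeroType (by norm_num) h 1 (by decide) (by decide)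

theorem F5_12 {b : ZMod 5 → ℕ} {C : Finset ℕ} (h : IsSolution 5 {1, 2} b C) :
    False := by
  obtain ⟨g, hg, hl⟩ := concl_of (by norm_num) h
    (fun r => ([1, 2] : List ℕ).contains r) 60 (by decide) T5_12 R5_12
  simp only [P5_12, List.mem_cons, List.not_mem_nil, or_false] at hg
  rcases hg with rfl | rfl | rfl
  · exact (lowL (by norm_num) h hl 0 (by decide) (by decide)).elim
  · exact (lowII h hl 1 2 0 (by decide) (by simp)).elim
  · exact (lowII' h hl 1 2 0 (by decide) (by simp)).elim

theorem F5_13 {b : ZMod 5 → ℕ} {C : Finset ℕ} (h : IsSolution 5 {1, 3} b C) :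
    False := by
  obtain ⟨g, hg, hl⟩ := concl_of (by norm_num) h
    (fun r => ([1, 3] : List ℕ).contains r) 53 (by decide) T5_13 R5_13
  simp only [P5_13, List.mem_cons, List.not_mem_nil, or_false] at hg
  rcases hg with rfl | rfl | rfl
  · exact (lowL (by norm_num) h hl 0 (by decide) (by decide)).elim
  · exact (lowII h hl 1 3 0 (by decide) (by simp)).elim
  · exact (lowII' h hl 1 3 0 (by decide) (by simp)).elim

theorem F5_14 {b : ZMod 5 → ℕ} {C : Finset ℕ} (h : IsSolution 5 {1, 4} b C) :
    False := by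
  obtain ⟨g, hg, hl⟩ := concl_of (by norm_num) h
    (fun r => ([1, 4] : List ℕ).contains r) 56 (by decide) T5_14 R5_14
  simp only [P5_14, List.mem_cons, List.not_mem_nil, or_false] at hg
  rcases hg with rfl | rfl | rfl
  · exact (lowL (by norm_num) h hl 0 (by decide) (by decide)).elim
  · exact (lowII h hl 1 4 2 (by decide) (by simp)).elim
  · exact (lowII' h hl 1 4 2 (by decide) (by simp)).elim

theorem F5_15 {b : ZMod 5 → ℕ} {C : Finset ℕ} (h : IsSolution 5 {0, 1} b C) :
    False := by
  obtain ⟨g, hg, hl⟩ := concl_of (by norm_num) h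
    (fun r => ([1, 0] : List ℕ).contains r) 11 (by decide) T5_15 R5_15
  simp only [P5_15, List.mem_cons, List.not_mem_nil, or_false] at hg
  subst hg
  · exact (lowL (by norm_num) h hl 2 (by decide) (by decide)).elim

theorem F5_23 {b : ZMod 5 → ℕ} {C : Finset ℕ} (h : IsSolution 5 {2, 3} b C) :
    False := by
  obtain ⟨g, hg, hl⟩ := concl_of (by norm_num) h
    (fun r => ([2, 3] : List ℕ).contains r) 57 (by decide) T5_23 R5_23
  simp only [P5_23, List.mem_cons, List.not_mem_nil, or_false] at hg
  rcases hg with rfl | rfl | rfl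
  · exact (lowL (by norm_num) h hl 0 (by decide) (by decide)).elim
  · exact (lowII h hl 2 3 1 (by decide) (by simp)).elim
  · exact (lowII' h hl 2 3 1 (by decide) (by simp)).elim

theorem F5_24 {b : ZMod 5 → ℕ} {C : Finset ℕ} (h : IsSolution 5 {2, 4} b C) :
    False := by
  obtain ⟨g, hg, hl⟩ := concl_of (by norm_num) h
    (fun r => ([2, 4] : List ℕ).contains r) 59 (by decide) T5_24 R5_24
  simp only [P5_24, List.mem_cons, List.not_mem_nil, or_false] at hg
  rcases hg with rfl | rfl | rfl
  · exact (lowL (by norm_num) h hl 0 (by decide) (by decide)).elim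
  · exact (lowII h hl 2 4 0 (by decide) (by simp)).elim
  · exact (lowII' h hl 2 4 0 (by decide) (by simp)).elim

theorem F5_25 {b : ZMod 5 → ℕ} {C : Finset ℕ} (h : IsSolution 5 {0, 2} b C) :
    False := by
  obtain ⟨g, hg, hl⟩ := concl_of (by norm_num) h
    (fun r => ([2, 0] : List ℕ).contains r) 12 (by decide) T5_25 R5_25
  simp only [P5_25, List.mem_cons, List.not_mem_nil, or_false] at hg
  subst hg
  · exact (lowL (by norm_num) h hl 1 (by decide) (by decide)).elim

theorem F5_34 {b : ZMod 5 → ℕ} {C : Finset ℕ} (h : IsSolution 5 {3, 4} b C) :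
    False := by
  obtain ⟨g, hg, hl⟩ := concl_of (by norm_num) h
    (fun r => ([3, 4] : List ℕ).contains r) 61 (by decide) T5_34 R5_34
  simp only [P5_34, List.mem_cons, List.not_mem_nil, or_false] at hg
  rcases hg with rfl | rfl | rfl
  · exact (lowL (by norm_num) h hl 0 (by decide) (by decide)).elim
  · exact (lowII h hl 3 4 0 (by decide) (by simp)).elim
  · exact (lowII' h hl 3 4 0 (by decide) (by simp)).elim

theorem F5_35 {b : ZMod 5 → ℕ} {C : Finset ℕ} (h : IsSolution 5 {0, 3} b C) :
    False := by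
  obtain ⟨g, hg, hl⟩ := concl_of (by norm_num) h
    (fun r => ([3, 0] : List ℕ).contains r) 13 (by decide) T5_35 R5_35
  simp only [P5_35, List.mem_cons, List.not_mem_nil, or_false] at hg
  subst hg
  · exact (lowL (by norm_num) h hl 1 (by decide) (by decide)).elim

theorem F5_45 {b : ZMod 5 → ℕ} {C : Finset ℕ} (h : IsSolution 5 {0, 4} b C) :
    False := by
  obtain ⟨g, hg, hl⟩ := concl_of (by norm_num) h
    (fun r => ([4, 0] : List ℕ).contains r) 14 (by decide) T5_45 R5_45
  simp only [P5_45, List.mem_cons, List.not_mem_nil, or_false] at hg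
  subst hg
  · exact (lowL (by norm_num) h hl 1 (by decide) (by decide)).elim

theorem F5_123 {b : ZMod 5 → ℕ} {C : Finset ℕ} (h : IsSolution 5 {1, 2, 3} b C) :
    False := by
  obtain ⟨g, hg, hl⟩ := concl_of (by norm_num) h
    (fun r => ([1, 2, 3] : List ℕ).contains r) 27 (by decide) T5_123 R5_123
  simp only [P5_123, List.mem_cons, List.not_mem_nil, or_false] at hg
  subst hg
  · exact (lowL (by norm_num) h hl 0 (by decide) (by decide)).elim

theorem F5_124 {b : ZMod 5 → ℕ} {C : Finset ℕ} (h : IsSolution 5 {1, 2, 4} b C) :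
    False := by
  obtain ⟨g, hg, hl⟩ := concl_of (by norm_num) h
    (fun r => ([1, 2, 4] : List ℕ).contains r) 23 (by decide) T5_124 R5_124
  simp only [P5_124, List.mem_cons, List.not_mem_nil, or_false] at hg
  subst hg
  · exact (lowL (by norm_num) h hl 0 (by decide) (by decide)).elim

theorem F5_125 {b : ZMod 5 → ℕ} {C : Finset ℕ} (h : IsSolution 5 {0, 1, 2} b C) :
    False := by
  obtain ⟨g, hg, hl⟩ := concl_of (by norm_num) h
    (fun r => ([1, 2, 0] : List ℕ).contains r) 40 (by decide) T5_125 R5_125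
  simp only [P5_125, List.mem_cons, List.not_mem_nil, or_false] at hg
  subst hg
  · exact (lowL (by norm_num) h hl 3 (by decide) (by decide)).elim

theorem F5_134 {b : ZMod 5 → ℕ} {C : Finset ℕ} (h : IsSolution 5 {1, 3, 4} b C) :
    False := by
  obtain ⟨g, hg, hl⟩ := concl_of (by norm_num) h
    (fun r => ([1, 3, 4] : List ℕ).contains r) 21 (by decide) T5_134 R5_134
  simp only [P5_134, List.mem_cons, List.not_mem_nil, or_false] at hg
  subst hg
  · exact (lowL (by norm_num) h hl 0 (by decide) (by decide)).elim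

theorem F5_135 {b : ZMod 5 → ℕ} {C : Finset ℕ} (h : IsSolution 5 {0, 1, 3} b C) :
    False := by
  obtain ⟨g, hg, hl⟩ := concl_of (by norm_num) h
    (fun r => ([1, 3, 0] : List ℕ).contains r) 40 (by decide) T5_135 R5_135
  simp only [P5_135, List.mem_cons, List.not_mem_nil, or_false] at hg
  subst hg
  · exact (lowL (by norm_num) h hl 2 (by decide) (by decide)).elim

theorem F5_145 {b : ZMod 5 → ℕ} {C : Finset ℕ} (h : IsSolution 5 {0, 1, 4} b C) :
    False := by
  obtain ⟨g, hg, hl⟩ := concl_of (by norm_num) h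
    (fun r => ([1, 4, 0] : List ℕ).contains r) 11 (by decide) T5_145 R5_145
  simp only [P5_145, List.mem_cons, List.not_mem_nil, or_false] at hg
  subst hg
  · exact (lowL (by norm_num) h hl 2 (by decide) (by decide)).elim

theorem F5_234 {b : ZMod 5 → ℕ} {C : Finset ℕ} (h : IsSolution 5 {2, 3, 4} b C) :
    False := by
  obtain ⟨g, hg, hl⟩ := concl_of (by norm_num) h
    (fun r => ([2, 3, 4] : List ℕ).contains r) 23 (by decide) T5_234 R5_234
  simp only [P5_234, List.mem_cons, List.not_mem_nil, or_false] at hg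
  subst hg
  · exact (lowL (by norm_num) h hl 0 (by decide) (by decide)).elim

theorem F5_235 {b : ZMod 5 → ℕ} {C : Finset ℕ} (h : IsSolution 5 {0, 2, 3} b C) :
    False := by
  obtain ⟨g, hg, hl⟩ := concl_of (by norm_num) h
    (fun r => ([2, 3, 0] : List ℕ).contains r) 12 (by decide) T5_235 R5_235
  simp only [P5_235, List.mem_cons, List.not_mem_nil, or_false] at hg
  subst hg
  · exact (lowL (by norm_num) h hl 1 (by decide) (by decide)).elim

theorem F5_245 {b : ZMod 5 → ℕ} {C : Finset ℕ} (h : IsSolution 5 {0, 2, 4} b C) :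
    False := by
  obtain ⟨g, hg, hl⟩ := concl_of (by norm_num) h
    (fun r => ([2, 4, 0] : List ℕ).contains r) 33 (by decide) T5_245 R5_245
  simp only [P5_245, List.mem_cons, List.not_mem_nil, or_false] at hg
  subst hg
  · exact (lowL (by norm_num) h hl 1 (by decide) (by decide)).elim

theorem F5_345 {b : ZMod 5 → ℕ} {C : Finset ℕ} (h : IsSolution 5 {0, 3, 4} b C) :
    False := by
  obtain ⟨g, hg, hl⟩ := concl_of (by norm_num) h
    (fun r => ([3, 4, 0] : List ℕ).contains r) 22 (by decide) T5_345 R5_345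
  simp only [P5_345, List.mem_cons, List.not_mem_nil, or_false] at hg
  subst hg
  · exact (lowL (by norm_num) h hl 1 (by decide) (by decide)).elim

theorem F5_1234 {b : ZMod 5 → ℕ} {C : Finset ℕ} (h : IsSolution 5 {1, 2, 3, 4} b C) :
    False := by
  obtain ⟨g, hg, hl⟩ := concl_of (by norm_num) h
    (fun r => ([1, 2, 3, 4] : List ℕ).contains r) 27 (by decide) T5_1234 R5_1234
  simp only [P5_1234, List.mem_cons, List.not_mem_nil, or_false] at hg
  subst hg
  · exact (lowL (by norm_num) h hl 0 (by decide) (by decide)).elim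

theorem F5_1235 {b : ZMod 5 → ℕ} {C : Finset ℕ} (h : IsSolution 5 {0, 1, 2, 3} b C) :
    False := by
  obtain ⟨g, hg, hl⟩ := concl_of (by norm_num) h
    (fun r => ([1, 2, 3, 0] : List ℕ).contains r) 11 (by decide) T5_1235 R5_1235
  simp only [P5_1235, List.mem_cons, List.not_mem_nil, or_false] at hg
  subst hg
  · exact (lowL (by norm_num) h hl 4 (by decide) (by decide)).elim

theorem F5_1245 {b : ZMod 5 → ℕ} {C : Finset ℕ} (h : IsSolution 5 {0, 1, 2, 4} b C) :
    False := by
  obtain ⟨g, hg, hl⟩ := concl_of (by norm_num) h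
    (fun r => ([1, 2, 4, 0] : List ℕ).contains r) 24 (by decide) T5_1245 R5_1245
  simp only [P5_1245, List.mem_cons, List.not_mem_nil, or_false] at hg
  subst hg
  · exact (lowL (by norm_num) h hl 3 (by decide) (by decide)).elim

theorem F5_1345 {b : ZMod 5 → ℕ} {C : Finset ℕ} (h : IsSolution 5 {0, 1, 3, 4} b C) :
    False := by
  obtain ⟨g, hg, hl⟩ := concl_of (by norm_num) h
    (fun r => ([1, 3, 4, 0] : List ℕ).contains r) 14 (by decide) T5_1345 R5_1345
  simp only [P5_1345, List.mem_cons, List.not_mem_nil, or_false] at hg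
  subst hg
  · exact (lowL (by norm_num) h hl 2 (by decide) (by decide)).elim

theorem F5_2345 {b : ZMod 5 → ℕ} {C : Finset ℕ} (h : IsSolution 5 {0, 2, 3, 4} b C) :
    False := by
  obtain ⟨g, hg, hl⟩ := concl_of (by norm_num) h
    (fun r => ([2, 3, 4, 0] : List ℕ).contains r) 12 (by decide) T5_2345 R5_2345
  simp only [P5_2345, List.mem_cons, List.not_mem_nil, or_false] at hg
  subst hg
  · exact (lowL (by norm_num) h hl 1 (by decide) (by decide)).elim

end Pool.Agent.H38.DP
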