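import Pool.Agent.H38.DP.Defs

open Finset

namespace Pool.Agent.H38.DP

open Classical in
/-- weighted number of admissible subsets of `{0,...,N}` -/
noncomputable def Z (q : ℝ) (N : ℕ) (P : Finset ℕ → Prop) : ℝ :=
  ∑ S ∈ (range (N + 1)).powerset with P S, q ^ (∑ e ∈ S, e)

open Classical in
/-- number of admissible sets of sum `n` -/
noncomputable def cnt (P : Finset ℕ → Prop) (n : ℕ) : ℕ :=
  ((range (n + 1)).powerset.filter (fun S => P S ∧ ∑ e ∈ S, e = n)).card

/-- partial sums of the generating function -/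
noncomputable def psum (q : ℝ) (P : Finset ℕ → Prop) (N : ℕ) : ℝ :=
  ∑ n ∈ range (N + 1), (cnt P n : ℝ) * q ^ n

lemma Z_mono {q : ℝ} (hq : 0 ≤ q) (N : ℕ) {P Q : Finset ℕ → Prop}
    (h : ∀ S, P S → Q S) : Z q N P ≤ Z q N Q := by
  classical
  unfold Z
  apply sum_le_sum_of_subset_of_nonneg
  · intro S hS
    simp only [mem_filter] at hS ⊢
    exact ⟨hS.1, h S hS.2⟩
  · intro S _ _
    positivity

lemma Z_nonneg {q : ℝ} (hq : 0 ≤ q) (N : ℕ) (P : Finset ℕ → Prop) : 0 ≤ Z q N P := by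
  unfold Z
  exact sum_nonneg (fun S _ => by positivity)

/-- the sum of an image with small fibres -/
lemma sum_fibre_le {α : Type*} [DecidableEq α] (A : Finset α) (φ : α → α) (w : α → ℝ)
    (hw : ∀ x, 0 ≤ w x) (D : ℕ)
    (hD : ∀ y, (A.filter (fun x => φ x = y)).card ≤ D) :
    ∑ x ∈ A, w (φ x) ≤ D * ∑ y ∈ A.image φ, w y := by
  rw [sum_comp w φ, mul_sum]
  apply sum_le_sum
  intro y _
  rw [nsmul_eq_mul]
  exact mul_le_mul_of_nonneg_right (by exact_mod_cast hD y) (hw y)

/-- one window -/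
lemma window_step {q : ℝ} (hq0 : 0 < q) (hq1 : q ≤ 1) (N : ℕ) (G G' : Finset ℕ → Prop)
    (W pat : Finset ℕ) (hpat : pat ⊆ W) (hW : W ⊆ range (N + 1))
    (h1 : ∀ S, G S → G' S) (h2 : ∀ S, G S → S ∩ W ≠ pat)
    (h3 : ∀ S, G S → G' ((S \ W) ∪ pat)) :
    (1 + q ^ (∑ e ∈ pat, e) / 2 ^ W.card) * Z q N G ≤ Z q N G' := by
  classical
  set w : Finset ℕ → ℝ := fun S => q ^ (∑ e ∈ S, e) with hw
  set A : Finset (Finset ℕ) := (range (N + 1)).powerset.filter (fun S => G S) with hA
  set φ : Finset ℕ → Finset ℕ := fun S => (S \ W) ∪ pat with hφ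
  have hZG : Z q N G = ∑ S ∈ A, w S := rfl
  have hφW : ∀ S, φ S ∩ W = pat := by
    intro S
    ext x
    simp only [hφ, mem_inter, mem_union, mem_sdiff]
    constructor
    · rintro ⟨h | h, hx⟩
      · exact absurd hx h.2
      · exact h
    · intro h
      exact ⟨Or.inr h, hpat h⟩
  have hdisj : Disjoint A (A.image φ) := by
    rw [disjoint_left]
    intro S hS hS'
    rw [mem_image] at hS'
    obtain ⟨T, hT, rfl⟩ := hS'
    exact h2 _ (mem_filter.1 hS).2 (hφW T)
  have hsub : A ∪ A.image φ ⊆ (range (N + 1)).powerset.filter (fun S => G' S) := by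
    intro S hS
    rcases mem_union.1 hS with h | h
    · have := mem_filter.1 h
      exact mem_filter.2 ⟨this.1, h1 _ this.2⟩
    · obtain ⟨T, hT, rfl⟩ := mem_image.1 h
      have hT' := mem_filter.1 hT
      refine mem_filter.2 ⟨?_, h3 _ hT'.2⟩
      rw [mem_powerset] at hT' ⊢
      intro x hx
      rcases mem_union.1 hx with hx | hx
      · exact hT'.1 (mem_sdiff.1 hx).1
      · exact hW (hpat hx)
  have hwnn : ∀ S, 0 ≤ w S := fun S => by positivity
  have hbig : ∑ S ∈ A, w S + ∑ S ∈ A.image φ, w S ≤ Z q N G' := by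
    rw [← sum_union hdisj]
    exact sum_le_sum_of_subset_of_nonneg hsub (fun S _ _ => hwnn S)
  -- compare the two sums
  have hle : ∀ S ∈ A, q ^ (∑ e ∈ pat, e) * w S ≤ w (φ S) := by
    intro S _
    have hdj : Disjoint (S \ W) pat := by
      rw [disjoint_left]
      intro x hx hx'
      exact (mem_sdiff.1 hx).2 (hpat hx')
    have hsum : ∑ e ∈ φ S, e = ∑ e ∈ S \ W, e + ∑ e ∈ pat, e := by
      rw [hφ]; exact sum_union hdj
    have hle' : ∑ e ∈ S \ W, e ≤ ∑ e ∈ S, e :=
      sum_le_sum_of_subset (sdiff_subset)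
    simp only [hw, hsum, pow_add]
    rw [mul_comm]
    exact mul_le_mul_of_nonneg_right (pow_le_pow_of_le_one hq0.le hq1 hle') (by positivity)
  have hcard : ∀ T, (A.filter (fun S => φ S = T)).card ≤ 2 ^ W.card := by
    intro T
    rw [← card_powerset]
    apply card_le_card_of_injOn (fun S => S ∩ W)
    · intro S _
      simp only [coe_powerset, Set.mem_preimage, Set.mem_powerset_iff, coe_subset]
      exact inter_subset_right
    · intro S hS S' hS' hSS'
      simp only [coe_filter, Set.mem_setOf_eq] at hS hS'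
      have e1 : φ S = φ S' := hS.2.trans hS'.2.symm
      ext x
      by_cases hx : x ∈ W
      · have := congrArg (fun U => x ∈ U) hSS'
        simp only [mem_inter, hx, and_true, eq_iff_iff] at this
        exact this
      · have := congrArg (fun U => x ∈ U) e1
        have hxp : x ∉ pat := fun h => hx (hpat h)
        simp only [hφ, mem_union, mem_sdiff, hx, not_false_eq_true, and_true, hxp, or_false,
          eq_iff_iff] at this
        exact this
  have hcmp : q ^ (∑ e ∈ pat, e) * ∑ S ∈ A, w S ≤ 2 ^ W.card * ∑ S ∈ A.image φ, w S := by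
    rw [mul_sum]
    refine (sum_le_sum hle).trans ?_
    have := sum_fibre_le A φ w hwnn (2 ^ W.card) hcard
    push_cast at this
    exact this
  have h2pos : (0 : ℝ) < 2 ^ W.card := by positivity
  have hdiv : q ^ (∑ e ∈ pat, e) / 2 ^ W.card * ∑ S ∈ A, w S ≤ ∑ S ∈ A.image φ, w S := by
    rw [div_mul_eq_mul_div, div_le_iff₀ h2pos]
    linarith [hcmp]
  rw [hZG]
  linarith

/-- many windows -/
lemma growth {q : ℝ} (hq0 : 0 < q) (hq1 : q ≤ 1) (N k w X : ℕ) (P P' : Finset ℕ → Prop)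
    (W pat : ℕ → Finset ℕ) (hpat : ∀ i < k, pat i ⊆ W i)
    (hW : ∀ i < k, W i ⊆ range (N + 1)) (hWw : ∀ i < k, (W i).card ≤ w)
    (hX : ∀ i < k, ∑ e ∈ pat i, e ≤ X)
    (hdis : ∀ i < k, ∀ j < k, i ≠ j → Disjoint (W i) (W j))
    (h1 : ∀ S, P' S → P S) (h2 : ∀ i < k, ∀ S, P' S → S ∩ W i ≠ pat i)
    (h3 : ∀ i < k, ∀ S, P S → P ((S \ W i) ∪ pat i)) :
    (1 + q ^ X / 2 ^ w) ^ k * Z q N P' ≤ Z q N P := by
  classical
  have key : ∀ j, j ≤ k → (1 + q ^ X / 2 ^ w) ^ j * Z q N P' ≤
      Z q N (fun S => P S ∧ ∀ i, j ≤ i → i < k → S ∩ W i ≠ pat i) := by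
    intro j
    induction j with
    | zero =>
      intro _
      rw [pow_zero, one_mul]
      apply Z_mono hq0.le
      intro S hS
      exact ⟨h1 S hS, fun i _ hi => h2 i hi S hS⟩
    | succ j ih =>
      intro hj
      have hjk : j < k := hj
      have ih' := ih (by omega)
      have hstep := window_step hq0 hq1 N
        (fun S => P S ∧ ∀ i, j ≤ i → i < k → S ∩ W i ≠ pat i)
        (fun S => P S ∧ ∀ i, j + 1 ≤ i → i < k → S ∩ W i ≠ pat i)
        (W j) (pat j) (hpat j hjk) (hW j hjk)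
        (fun S hS => ⟨hS.1, fun i hi hik => hS.2 i (by omega) hik⟩)
        (fun S hS => hS.2 j le_rfl hjk)
        (fun S hS => by
          refine ⟨h3 j hjk S hS.1, fun i hi hik => ?_⟩
          have hd : Disjoint (W j) (W i) := hdis j hjk i hik (by omega)
          have : ((S \ W j) ∪ pat j) ∩ W i = S ∩ W i := by
            ext x
            simp only [mem_inter, mem_union, mem_sdiff]
            constructor
            · rintro ⟨h | h, hx⟩
              · exact ⟨h.1, hx⟩
              · exact absurd hx (disjoint_left.1 hd (hpat j hjk h))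
            · rintro ⟨h, hx⟩
              exact ⟨Or.inl ⟨h, fun hxj => disjoint_left.1 hd hxj hx⟩, hx⟩
          rw [this]
          exact hS.2 i (by omega) hik)
      refine le_trans ?_ hstep
      rw [pow_succ', mul_assoc]
      have hfac : (1 + q ^ X / 2 ^ w) ≤ 1 + q ^ (∑ e ∈ pat j, e) / 2 ^ (W j).card := by
        have a1 : q ^ X ≤ q ^ (∑ e ∈ pat j, e) := pow_le_pow_of_le_one hq0.le hq1 (hX j hjk)
        have a2 : (2 : ℝ) ^ (W j).card ≤ 2 ^ w := pow_le_pow_right₀ (by norm_num) (hWw j hjk)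
        have a3 : q ^ X / 2 ^ w ≤ q ^ (∑ e ∈ pat j, e) / 2 ^ (W j).card := by
          apply div_le_div₀ (by positivity) a1 (by positivity) a2
        linarith
      have hnn : 0 ≤ (1 + q ^ X / 2 ^ w) ^ j * Z q N P' :=
        mul_nonneg (by positivity) (Z_nonneg hq0.le N P')
      calc (1 + q ^ X / 2 ^ w) * ((1 + q ^ X / 2 ^ w) ^ j * Z q N P')
          ≤ (1 + q ^ (∑ e ∈ pat j, e) / 2 ^ (W j).card) *
            ((1 + q ^ X / 2 ^ w) ^ j * Z q N P') :=
            mul_le_mul_of_nonneg_right hfac hnn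
        _ ≤ _ := mul_le_mul_of_nonneg_left ih' (by positivity)
  have := key k le_rfl
  refine this.trans ?_
  apply Z_mono hq0.le
  intro S hS
  exact hS.1

/-- removing finitely many forbidden elements costs a bounded factor -/
lemma Z_remove {q : ℝ} (hq0 : 0 < q) (hq1 : q ≤ 1) (N : ℕ) (C : Finset ℕ)
    (P Q : Finset ℕ → Prop) (h : ∀ S, P S → Q (S \ C)) :
    Z q N P ≤ 2 ^ C.card * Z q N Q := by
  classical
  set w : Finset ℕ → ℝ := fun S => q ^ (∑ e ∈ S, e) with hw
  set A : Finset (Finset ℕ) := (range (N + 1)).powerset.filter (fun S => P S) with hA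
  have hwnn : ∀ S, 0 ≤ w S := fun S => by positivity
  have h1 : Z q N P = ∑ S ∈ A, w S := rfl
  rw [h1]
  have h2 : ∑ S ∈ A, w S ≤ ∑ S ∈ A, w (S \ C) := by
    apply sum_le_sum
    intro S _
    exact pow_le_pow_of_le_one hq0.le hq1 (sum_le_sum_of_subset sdiff_subset)
  have h3 : ∑ S ∈ A, w (S \ C) ≤ (2 ^ C.card : ℕ) * ∑ S ∈ A.image (fun S => S \ C), w S := by
    apply sum_fibre_le A (fun S => S \ C) w hwnn
    intro T
    rw [← card_powerset]
    apply card_le_card_of_injOn (fun S => S ∩ C)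
    · intro S _
      simp only [coe_powerset, Set.mem_preimage, Set.mem_powerset_iff, coe_subset]
      exact inter_subset_right
    · intro S hS S' hS' hSS'
      simp only [coe_filter, Set.mem_setOf_eq] at hS hS'
      have e1 : S \ C = S' \ C := hS.2.trans hS'.2.symm
      have e2 : S ∩ C = S' ∩ C := hSS'
      rw [← sdiff_union_inter S C, ← sdiff_union_inter S' C, e1, e2]
  have h4 : ∑ S ∈ A.image (fun S => S \ C), w S ≤ Z q N Q := by
    apply sum_le_sum_of_subset_of_nonneg
    · intro S hS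
      obtain ⟨T, hT, rfl⟩ := mem_image.1 hS
      have hT' := mem_filter.1 hT
      refine mem_filter.2 ⟨?_, h T hT'.2⟩
      rw [mem_powerset] at hT' ⊢
      exact sdiff_subset.trans hT'.1
    · intro S _ _
      exact hwnn S
  push_cast at h3
  calc ∑ S ∈ A, w S ≤ _ := h2
    _ ≤ _ := h3
    _ ≤ _ := mul_le_mul_of_nonneg_left h4 (by positivity)

lemma psum_eq (q : ℝ) (P : Finset ℕ → Prop) [DecidablePred P] (N : ℕ) :
    psum q P N = ∑ S ∈ (range (N + 1)).powerset.filter
      (fun S => P S ∧ ∑ e ∈ S, e ≤ N), q ^ (∑ e ∈ S, e) := by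
  classical
  have hmaps : ∀ S ∈ (range (N + 1)).powerset.filter (fun S => P S ∧ ∑ e ∈ S, e ≤ N),
      (∑ e ∈ S, e) ∈ range (N + 1) := by
    intro S hS
    have := (mem_filter.1 hS).2.2
    exact mem_range.2 (by omega)
  rw [← sum_fiberwise_of_maps_to hmaps]
  unfold psum
  apply sum_congr rfl
  intro n hn
  have hn' : n ≤ N := by have := mem_range.1 hn; omega
  have hcongr : ∑ S ∈ ((range (N + 1)).powerset.filter
      (fun S => P S ∧ ∑ e ∈ S, e ≤ N)).filter (fun S => ∑ e ∈ S, e = n),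
      q ^ (∑ e ∈ S, e) = ∑ S ∈ ((range (N + 1)).powerset.filter
      (fun S => P S ∧ ∑ e ∈ S, e ≤ N)).filter (fun S => ∑ e ∈ S, e = n), q ^ n := by
    apply sum_congr rfl
    intro S hS
    rw [(mem_filter.1 hS).2]
  rw [hcongr, sum_const, nsmul_eq_mul]
  congr 2
  unfold cnt
  congr 1
  ext S
  simp only [mem_filter, mem_powerset]
  constructor
  · rintro ⟨h1, h2, h3⟩
    exact ⟨⟨h1.trans (range_subset_range.2 (by omega)), h2, by omega⟩, h3⟩
  · rintro ⟨⟨h1, h2, _⟩, h3⟩
    refine ⟨fun x hx => ?_, h2, h3⟩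
    have : x ≤ ∑ e ∈ S, e := single_le_sum (f := fun e => e) (fun _ _ => Nat.zero_le _) hx
    exact mem_range.2 (by omega)

lemma psum_le_Z {q : ℝ} (hq : 0 ≤ q) (P : Finset ℕ → Prop) (N : ℕ) :
    psum q P N ≤ Z q N P := by
  classical
  rw [psum_eq]
  unfold Z
  apply sum_le_sum_of_subset_of_nonneg
  · intro S hS
    have := mem_filter.1 hS
    exact mem_filter.2 ⟨this.1, this.2.1⟩
  · intro S _ _
    positivity

lemma Z_le_psum {q : ℝ} (hq : 0 ≤ q) (P : Finset ℕ → Prop) (N : ℕ) :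
    Z q N P ≤ psum q P ((N + 1) ^ 2) := by
  classical
  rw [psum_eq]
  unfold Z
  apply sum_le_sum_of_subset_of_nonneg
  · intro S hS
    have h := mem_filter.1 hS
    have hsub := mem_powerset.1 h.1
    have hsum : ∑ e ∈ S, e ≤ (N + 1) ^ 2 := by
      calc ∑ e ∈ S, e ≤ ∑ e ∈ range (N + 1), e := sum_le_sum_of_subset hsub
        _ ≤ ∑ e ∈ range (N + 1), (N + 1) := sum_le_sum (fun e he => by
            have := mem_range.1 he; omega)
        _ = (N + 1) ^ 2 := by rw [sum_const, card_range, smul_eq_mul, sq]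
    refine mem_filter.2 ⟨mem_powerset.2 (hsub.trans (range_subset_range.2 ?_)), h.2, hsum⟩
    nlinarith
  · intro S _ _
    positivity

lemma Z_le_exp {q : ℝ} (hq0 : 0 ≤ q) (hq1 : q < 1) (P : Finset ℕ → Prop) (N : ℕ) :
    Z q N P ≤ Real.exp (1 / (1 - q)) := by
  classical
  have h1 : Z q N P ≤ ∑ S ∈ (range (N + 1)).powerset, ∏ e ∈ S, q ^ e := by
    unfold Z
    calc _ ≤ ∑ S ∈ (range (N + 1)).powerset, q ^ (∑ e ∈ S, e) := by
          apply sum_le_sum_of_subset_of_nonneg (filter_subset _ _)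
          intro S _ _
          positivity
      _ = _ := by
          apply sum_congr rfl
          intro S _
          rw [prod_pow_eq_pow_sum]
  have h2 : ∑ S ∈ (range (N + 1)).powerset, ∏ e ∈ S, q ^ e = ∏ e ∈ range (N + 1), (q ^ e + 1) := by
    rw [prod_add_one]
  have h3 : ∏ e ∈ range (N + 1), (q ^ e + 1) ≤ ∏ e ∈ range (N + 1), Real.exp (q ^ e) := by
    apply prod_le_prod
    · intro e _
      positivity
    · intro e _
      exact Real.add_one_le_exp _
  have h4 : ∏ e ∈ range (N + 1), Real.exp (q ^ e) = Real.exp (∑ e ∈ range (N + 1), q ^ e) := by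
    rw [Real.exp_sum]
  have h5 : ∑ e ∈ range (N + 1), q ^ e ≤ 1 / (1 - q) := by
    have hpos : 0 < 1 - q := by linarith
    rw [geom_sum_eq (by linarith), le_div_iff₀ hpos]
    have hne : q - 1 ≠ 0 := by linarith
    have : (q ^ (N + 1) - 1) / (q - 1) * (1 - q) = 1 - q ^ (N + 1) := by
      field_simp
      ring
    rw [this]
    have : 0 ≤ q ^ (N + 1) := by positivity
    linarith
  calc Z q N P ≤ _ := h1
    _ = _ := h2
    _ ≤ _ := h3
    _ = _ := h4
    _ ≤ _ := Real.exp_le_exp.2 h5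

/-- two families with the same numbers of sets of each sum cannot have generating
functions in ratio at least 2 near `q = 1` -/
lemma no_gap {q : ℝ} (hq0 : 0 < q) (hq1 : q < 1) (P Q : Finset ℕ → Prop)
    (hP : P ∅) (hPQ : ∀ n, cnt P n ≤ cnt Q n) (N0 : ℕ)
    (h : ∀ N, N0 ≤ N → 2 * Z q N Q ≤ Z q N P) : False := by
  have hle : ∀ N, psum q P N ≤ psum q Q N := by
    intro N
    unfold psum
    apply sum_le_sum
    intro n _
    exact mul_le_mul_of_nonneg_right (by exact_mod_cast hPQ n) (by positivity)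
  have hstep : ∀ N, N0 ≤ N → 2 * psum q P N ≤ psum q P ((N + 1) ^ 2) := by
    intro N hN
    calc 2 * psum q P N ≤ 2 * psum q Q N := by linarith [hle N]
      _ ≤ 2 * Z q N Q := by linarith [psum_le_Z hq0.le Q N]
      _ ≤ Z q N P := h N hN
      _ ≤ _ := Z_le_psum hq0.le P N
  have hone : ∀ N, 1 ≤ psum q P N := by
    intro N
    unfold psum
    have hc : 1 ≤ cnt P 0 := by
      classical
      unfold cnt
      rw [Nat.one_le_iff_ne_zero, ne_eq, card_eq_zero]
      intro he
      have : (∅ : Finset ℕ) ∈ (range (0 + 1)).powerset.filter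
          (fun S => P S ∧ ∑ e ∈ S, e = 0) := by
        simp [hP]
      rw [he] at this
      simp at this
    calc (1 : ℝ) ≤ (cnt P 0 : ℝ) * q ^ 0 := by
          rw [pow_zero, mul_one]; exact_mod_cast hc
      _ ≤ _ := single_le_sum (f := fun n => (cnt P n : ℝ) * q ^ n)
          (fun n _ => by positivity) (mem_range.2 (by omega))
  have hbd : ∀ N, psum q P N ≤ Real.exp (1 / (1 - q)) := fun N =>
    (psum_le_Z hq0.le P N).trans (Z_le_exp hq0.le hq1 P N)
  have hiter : ∀ j : ℕ, ∃ N, N0 ≤ N ∧ (2 : ℝ) ^ j ≤ psum q P N := by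
    intro j
    induction j with
    | zero => exact ⟨N0, le_rfl, by rw [pow_zero]; exact hone N0⟩
    | succ j ih =>
      obtain ⟨N, hN, hj⟩ := ih
      refine ⟨(N + 1) ^ 2, by nlinarith, ?_⟩
      rw [pow_succ]
      linarith [hstep N hN]
  obtain ⟨j, hj⟩ := pow_unbounded_of_one_lt (Real.exp (1 / (1 - q))) (by norm_num : (1:ℝ) < 2)
  obtain ⟨N, _, hN⟩ := hiter j
  linarith [hbd N]

end Pool.Agent.H38.DP
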