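import Pool.Agent.H38.DP.Poly

/-! Alladi's variation on a theme of Sylvester, with a general modulus: distinct parts
congruent to `a` modulo `M` against parts `a + M m` and `2 a + M m`, `m ≥ 1`, with gaps
`3 M` and `3 M + a`. -/

open Finset Polynomial

namespace Pool.Agent.H38.DP

section
variable {R : Type*} [CommRing R] (x z : R)

lemma gb_sub_dvd (r k : ℕ) : x ^ (r + 1 - k) ∣ gb x (r + 1) k - gb x r k := by
  rcases k with _ | k
  · simp
  · rw [gb_succ']
    have : r + 1 - (k + 1) = r - k := by omega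
    rw [this]
    exact ⟨gb x r k, by ring⟩

lemma gb_sub_dvd' (m k d : ℕ) : x ^ (m + 1 - k) ∣ gb x (m + d) k - gb x m k := by
  induction d with
  | zero => simp
  | succ d ih =>
    have h1 := gb_sub_dvd x (m + d) k
    have h2 : x ^ (m + 1 - k) ∣ x ^ (m + d + 1 - k) := pow_dvd_pow _ (by omega)
    have h3 := dvd_add (h2.trans h1) ih
    rw [← add_assoc]
    convert h3 using 1
    ring

end

lemma SS_dvd (M a n m : ℕ) (hM : 0 < M) (ha : 0 < a) (hm : 3 * n ≤ m) :
    (X : ℤ[X]) ^ (n + 1) ∣ SS (X ^ M : ℤ[X]) (X ^ a) m -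
      ∏ i ∈ range m, (1 + (X ^ a : ℤ[X]) * (X ^ M) ^ i) := by
  rw [qbinom, SS, ← sum_sub_distrib]
  apply dvd_sum
  intro k hk
  have hk' : k ≤ m := by have := mem_range.1 hk; omega
  unfold cc
  rcases Nat.lt_or_ge n k with h | h
  · have h1 : (X : ℤ[X]) ^ (n + 1) ∣ (X ^ a) ^ k := by
      rw [← pow_mul]
      apply pow_dvd_pow
      nlinarith
    have : (X ^ a : ℤ[X]) ^ k * ((X ^ M) ^ (k * (k - 1) / 2) * gb (X ^ M) (m - k) k) -
        (X ^ a) ^ k * (X ^ M) ^ (k * (k - 1) / 2) * gb (X ^ M) m k =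
        (X ^ a) ^ k * ((X ^ M) ^ (k * (k - 1) / 2) * (gb (X ^ M) (m - k) k -
          gb (X ^ M) m k)) := by ring
    rw [this]
    exact h1.mul_right _
  · have h2 := gb_sub_dvd' (X ^ M : ℤ[X]) (m - k) k k
    have e1 : m - k + k = m := by omega
    rw [e1] at h2
    have h3 : (X : ℤ[X]) ^ (n + 1) ∣ (X ^ M) ^ (m - k + 1 - k) := by
      rw [← pow_mul]
      apply pow_dvd_pow
      have : n + 1 ≤ m - k + 1 - k := by omega
      nlinarith
    have h4 : (X : ℤ[X]) ^ (n + 1) ∣ gb (X ^ M) (m - k) k - gb (X ^ M : ℤ[X]) m k := by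
      rw [← dvd_neg, neg_sub]
      exact h3.trans h2
    have : (X ^ a : ℤ[X]) ^ k * ((X ^ M) ^ (k * (k - 1) / 2) * gb (X ^ M) (m - k) k) -
        (X ^ a) ^ k * (X ^ M) ^ (k * (k - 1) / 2) * gb (X ^ M) m k =
        (X ^ a) ^ k * (X ^ M) ^ (k * (k - 1) / 2) * (gb (X ^ M) (m - k) k -
          gb (X ^ M) m k) := by ring
    rw [this]
    exact h4.mul_left _

/-- the allowed parts of the identity -/
def EI (M a e : ℕ) : Prop := (∃ m, e = a + M * m) ∨ ∃ m, e = 2 * a + M * (m + 1)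

/-- the distinct-part side -/
def EA (M a e : ℕ) : Prop := ∃ m, e = a + M * m

lemma not_EI_between (M a : ℕ) (ha : 0 < a) (haM : a < M) (m e : ℕ)
    (h1 : 2 * a + M * m < e) (h2 : e < a + M * (m + 1)) : ¬ EI M a e := by
  rintro (⟨k, rfl⟩ | ⟨k, rfl⟩)
  · rcases Nat.lt_or_ge m k with h | h
    · have : M * (m + 1) ≤ M * k := Nat.mul_le_mul_left _ h
      omega
    · have : M * k ≤ M * m := Nat.mul_le_mul_left _ h
      omega
  · rcases Nat.lt_or_ge m (k + 1) with h | h
    · have : M * (m + 1) ≤ M * (k + 1) := Nat.mul_le_mul_left _ h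
      omega
    · have : M * (k + 1) ≤ M * m := Nat.mul_le_mul_left _ h
      omega

lemma not_EI_between' (M a : ℕ) (ha : 0 < a) (haM : a < M) (m e : ℕ)
    (h1 : a + M * m < e) (h2 : e < 2 * a + M * m) : ¬ EI M a e := by
  rintro (⟨k, rfl⟩ | ⟨k, rfl⟩)
  · rcases Nat.lt_or_ge m k with h | h
    · have : M * (m + 1) ≤ M * k := Nat.mul_le_mul_left _ h
      rw [mul_add, mul_one] at this
      omega
    · have : M * k ≤ M * m := Nat.mul_le_mul_left _ h
      omega
  · rcases Nat.lt_trichotomy m (k + 1) with h | h | h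
    · have : M * (m + 1) ≤ M * (k + 1) := Nat.mul_le_mul_left _ h
      rw [mul_add, mul_one] at this
      omega
    · subst h
      omega
    · have : M * (k + 1 + 1) ≤ M * m := Nat.mul_le_mul_left _ h
      have e : M * (k + 1 + 1) = M * (k + 1) + M := by ring
      omega

lemma not_EI_small (M a : ℕ) (ha : 0 < a) (haM : a < M) (e : ℕ)
    (h1 : e < a) : ¬ EI M a e := by
  rintro (⟨k, rfl⟩ | ⟨k, rfl⟩) <;> omega

lemma not_EI_first (M a : ℕ) (ha : 0 < a) (haM : a < M) (e : ℕ)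
    (h1 : a < e) (h2 : e < a + M) : ¬ EI M a e := by
  rintro (⟨k, rfl⟩ | ⟨k, rfl⟩)
  · rcases k with _ | k
    · omega
    · rw [mul_add, mul_one] at h2
      omega
  · rw [mul_add, mul_one] at h2
    omega

section
variable (M a : ℕ) (g : ℕ → ℕ) (ha : 0 < a) (haM : a < M)
  (hg1 : ∀ m, g (a + M * m) = 3 * M) (hg2 : ∀ m, g (2 * a + M * (m + 1)) = 3 * M + a)
  (hg : ∀ e, 0 < g e)

include ha haM hg1 hg2 hg

/-- the polynomials of the gap side are the finite Sylvester sums -/
lemma V_eq_SS_zero : V g (EI M a) a = SS (X ^ M : ℤ[X]) (X ^ a) 2 := by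
  obtain ⟨b, rfl⟩ := Nat.exists_eq_succ_of_ne_zero ha.ne'
  have h1 := V_succ g (EI M (b + 1)) b (hg _)
  have hE : EI M (b + 1) (b + 1) := Or.inl ⟨0, by ring⟩
  rw [if_pos hE] at h1
  have h2 : V g (EI M (b + 1)) b = V g (EI M (b + 1)) 0 :=
    V_const g _ hg 0 b (Nat.zero_le _) (fun e _ he => not_EI_small M (b + 1) ha haM e (by omega))
  have h3 : b + 1 - g (b + 1) = 0 := by
    have := hg1 0
    rw [mul_zero, add_zero] at this
    rw [this]
    omega
  rw [h2, h3, V_zero, mul_one] at h1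
  rw [h1, SS_two]

lemma V_step_prim (m : ℕ) (e0 : ℕ) (he0 : e0 < a + M * (m + 1))
    (hno : ∀ e, e0 < e → e < a + M * (m + 1) → ¬ EI M a e) :
    V g (EI M a) (a + M * (m + 1)) = V g (EI M a) e0 +
      X ^ (a + M * (m + 1)) * V g (EI M a) (a + M * (m + 1) - 3 * M) := by
  obtain ⟨e, he⟩ := Nat.exists_eq_succ_of_ne_zero (show a + M * (m + 1) ≠ 0 by omega)
  have h1 := V_succ g (EI M a) e (hg _)
  have hE : EI M a (e + 1) := Or.inl ⟨m + 1, he.symm⟩
  rw [if_pos hE] at h1
  have h2 : V g (EI M a) e = V g (EI M a) e0 :=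
    V_const g _ hg e0 e (by omega) (fun e' h1 h2 => hno e' h1 (by omega))
  have h3 : g (e + 1) = 3 * M := by
    have := hg1 (m + 1)
    rw [he] at this
    exact this
  rw [h2, h3] at h1
  rw [he]
  exact h1

lemma V_step_sec (m : ℕ) :
    V g (EI M a) (2 * a + M * (m + 1)) = V g (EI M a) (a + M * (m + 1)) +
      X ^ (2 * a + M * (m + 1)) * V g (EI M a) (2 * a + M * (m + 1) - (3 * M + a)) := by
  obtain ⟨e, he⟩ := Nat.exists_eq_succ_of_ne_zero (show 2 * a + M * (m + 1) ≠ 0 by omega)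
  have h1 := V_succ g (EI M a) e (hg _)
  have hE : EI M a (e + 1) := Or.inr ⟨m, he.symm⟩
  rw [if_pos hE] at h1
  have h2 : V g (EI M a) e = V g (EI M a) (a + M * (m + 1)) :=
    V_const g _ hg _ e (by omega) (fun e' h1 h2 => not_EI_between' M a ha haM (m + 1) e' h1
      (by omega))
  have h3 : g (e + 1) = 3 * M + a := by
    have := hg2 m
    rw [he] at this
    exact this
  rw [h2, h3] at h1
  rw [he]
  exact h1

lemma V_eq_SS_one : V g (EI M a) (a + M * 1) = SS (X ^ M : ℤ[X]) (X ^ a) 3 := by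
  have h1 := V_step_prim M a g ha haM hg1 hg2 hg 0 a (by omega)
    (fun e h1 h2 => not_EI_first M a ha haM e h1 (by simpa using h2))
  have h2 : a + M * (0 + 1) - 3 * M = 0 := by omega
  rw [h2, V_zero, V_eq_SS_zero M a g ha haM hg1 hg2 hg, SS_two] at h1
  rw [SS_three]
  have h3 : a + M * 1 = a + M * (0 + 1) := by ring
  rw [h3, h1, mul_add, pow_add]
  ring

lemma V_eq_SS (m : ℕ) : V g (EI M a) (a + M * m) = SS (X ^ M : ℤ[X]) (X ^ a) (m + 2) := by
  induction m using Nat.strong_induction_on with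
  | _ m ih =>
  match m with
  | 0 =>
    rw [mul_zero, add_zero]
    exact V_eq_SS_zero M a g ha haM hg1 hg2 hg
  | 1 => exact V_eq_SS_one M a g ha haM hg1 hg2 hg
  | m + 2 =>
    have ih1 := ih (m + 1) (by omega)
    have h1 := V_step_prim M a g ha haM hg1 hg2 hg (m + 1) (2 * a + M * (m + 1))
      (by have : M * (m + 1 + 1) = M * (m + 1) + M := by ring
          omega)
      (fun e h1 h2 => not_EI_between M a ha haM (m + 1) e h1 h2)
    have h2 := V_step_sec M a g ha haM hg1 hg2 hg m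
    have hr := SS_rec (X ^ M : ℤ[X]) (X ^ a) m
    -- the two lower terms
    have e1 : V g (EI M a) (a + M * (m + 1 + 1) - 3 * M) = SS (X ^ M : ℤ[X]) (X ^ a) (m + 1) := by
      rcases m with _ | m
      · have : a + M * (0 + 1 + 1) - 3 * M = 0 := by omega
        rw [this, V_zero, zero_add, SS_one]
      · have : a + M * (m + 1 + 1 + 1) - 3 * M = a + M * m := by
          have : M * (m + 1 + 1 + 1) = M * m + 3 * M := by ring
          omega
        rw [this]
        exact ih m (by omega)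
    have e2 : V g (EI M a) (2 * a + M * (m + 1) - (3 * M + a)) =
        SS (X ^ M : ℤ[X]) (X ^ a) m := by
      match m with
      | 0 =>
        have : 2 * a + M * (0 + 1) - (3 * M + a) = 0 := by omega
        rw [this, V_zero, SS_zero]
      | 1 =>
        have : 2 * a + M * (1 + 1) - (3 * M + a) = 0 := by omega
        rw [this, V_zero, SS_one]
      | m + 2 =>
        have : 2 * a + M * (m + 2 + 1) - (3 * M + a) = a + M * m := by
          have : M * (m + 2 + 1) = M * m + 3 * M := by ring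
          omega
        rw [this]
        exact ih m (by omega)
    rw [e1] at h1
    rw [e2, ih1] at h2
    rw [h2] at h1
    have h0 : m + 2 + 2 = m + 4 := rfl
    rw [h0, hr, show m + 2 = m + 1 + 1 from rfl, h1]
    have p1 : (X : ℤ[X]) ^ (a + M * (m + 1 + 1)) = X ^ a * (X ^ M) ^ (m + 2) := by
      rw [← pow_mul, ← pow_add]
    have p2 : (X : ℤ[X]) ^ (2 * a + M * (m + 1)) = (X ^ a) ^ 2 * (X ^ M) ^ (m + 1) := by
      rw [← pow_mul, ← pow_mul, ← pow_add, mul_comm 2 a]
    rw [p1, p2]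
    ring

end

/-- the product side -/
lemma V_prod (M a : ℕ) (ha : 0 < a) (hM : 0 < M) : ∀ m : ℕ,
    V (fun _ => 1) (EA M a) (a + M * m) =
      ∏ i ∈ range (m + 1), (1 + (X ^ a : ℤ[X]) * (X ^ M) ^ i) := by
  have hE : ∀ m, EA M a (a + M * m) := fun m => ⟨m, rfl⟩
  intro m
  induction m with
  | zero =>
    obtain ⟨b, rfl⟩ := Nat.exists_eq_succ_of_ne_zero ha.ne'
    have h1 := V_succ (fun _ => 1) (EA M (b + 1)) b (by norm_num)
    have h0 := hE 0
    rw [mul_zero, add_zero] at h0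
    rw [if_pos h0] at h1
    have hno : ∀ e, 0 < e → e ≤ b → ¬ EA M (b + 1) e := by
      rintro e _ h2 ⟨k, hk⟩
      omega
    have h2 : V (fun _ => 1) (EA M (b + 1)) b = V (fun _ => 1) (EA M (b + 1)) 0 :=
      V_const _ _ (fun _ => Nat.one_pos) 0 b (Nat.zero_le _) hno
    have e3 : b + 1 - 1 = b := by omega
    rw [e3, h2, V_zero] at h1
    rw [mul_zero, add_zero, h1]
    simp
  | succ m ih =>
    obtain ⟨e, he⟩ := Nat.exists_eq_succ_of_ne_zero (show a + M * (m + 1) ≠ 0 by omega)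
    have h1 := V_succ (fun _ => 1) (EA M a) e (by norm_num)
    have h0 := hE (m + 1)
    rw [he] at h0
    rw [if_pos h0] at h1
    have hno : ∀ e', a + M * m < e' → e' ≤ e → ¬ EA M a e' := by
      rintro e' h3 h4 ⟨k, rfl⟩
      rcases Nat.lt_or_ge m k with h | h
      · have : M * (m + 1) ≤ M * k := Nat.mul_le_mul_left _ h
        omega
      · have : M * k ≤ M * m := Nat.mul_le_mul_left _ h
        omega
    have h2 : V (fun _ => 1) (EA M a) e = V (fun _ => 1) (EA M a) (a + M * m) :=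
      V_const _ _ (fun _ => Nat.one_pos) _ e (by
        have : M * (m + 1) = M * m + M := by ring
        omega) hno
    have e3 : e + 1 - 1 = e := by omega
    rw [e3, h2, ih] at h1
    rw [he, prod_range_succ _ (m + 1)]
    have p1 : (X : ℤ[X]) ^ (e + 1) = X ^ a * (X ^ M) ^ (m + 1) := by
      rw [← pow_mul, ← pow_add, he]
    rw [h1, p1]
    ring

/-- Alladi's identity with a general modulus -/
theorem identI (M a : ℕ) (g : ℕ → ℕ) (ha : 0 < a) (haM : a < M)
    (hg1 : ∀ m, g (a + M * m) = 3 * M) (hg2 : ∀ m, g (2 * a + M * (m + 1)) = 3 * M + a)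
    (hg : ∀ e, 0 < g e) (n : ℕ) :
    cnt (admG g (EI M a)) n = cnt (admG (fun _ => 1) (EA M a)) n := by
  have hM : 0 < M := by omega
  have h1 := V_coeff g (EI M a) (a + M * (3 * n)) n (by nlinarith)
  have h2 := V_coeff (fun _ => 1) (EA M a) (a + M * (3 * n + 1)) n (by nlinarith)
  rw [V_eq_SS M a g ha haM hg1 hg2 hg] at h1
  rw [V_prod M a ha hM] at h2
  have h3 := SS_dvd M a n (3 * n + 2) hM ha (by omega)
  rw [X_pow_dvd_iff] at h3
  have h4 := h3 n (by omega)
  rw [coeff_sub] at h4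
  have : ((cnt (admG g (EI M a)) n : ℕ) : ℤ) = cnt (admG (fun _ => 1) (EA M a)) n := by
    rw [← h1, ← h2]
    have e1 : 3 * n + 1 + 1 = 3 * n + 2 := by omega
    rw [e1]
    linarith
  exact_mod_cast this

end Pool.Agent.H38.DP
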