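import Pool.Agent.H38.DP.Bridge

/-! General tools to exclude a gap vector. -/

open Finset

namespace Pool.Agent.H38.DP

variable {M : ℕ}

/-- two steps of `no_gap` -/
lemma no_gap2 {q : ℝ} (hq0 : 0 < q) (hq1 : q < 1) (P : Finset ℕ → Prop)
    (hP : P ∅) (N0 : ℕ) (φ : ℕ → ℕ) (hφ : ∀ N, N ≤ φ N)
    (h : ∀ N, N0 ≤ N → 2 * psum q P N ≤ psum q P (φ N)) : False := by
  have hone : ∀ N, 1 ≤ psum q P N := by
    intro N
    unfold psum
    have hc : 1 ≤ cnt P 0 := (cnt_zero P hP).2
    calc (1 : ℝ) ≤ (cnt P 0 : ℝ) * q ^ 0 := by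
          rw [pow_zero, mul_one]; exact_mod_cast hc
      _ ≤ _ := single_le_sum (f := fun n => (cnt P n : ℝ) * q ^ n)
          (fun n _ => by positivity) (mem_range.2 (by omega))
  have hbd : ∀ N, psum q P N ≤ Real.exp (1 / (1 - q)) := fun N =>
    (psum_le_Z hq0.le P N).trans (Z_le_exp hq0.le hq1 P N)
  have hiter : ∀ j : ℕ, ∃ N, N0 ≤ N ∧ (2 : ℝ) ^ j ≤ psum q P N := by
    intro j
    induction j with
    | zero => exact ⟨N0, le_rfl, by rw [pow_zero]; exact hone N0⟩
    | succ j ih =>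
      obtain ⟨N, hN, hj⟩ := ih
      refine ⟨φ N, hN.trans (hφ N), ?_⟩
      rw [pow_succ]
      linarith [h N hN]
  obtain ⟨j, hj⟩ := pow_unbounded_of_one_lt (Real.exp (1 / (1 - q))) (by norm_num : (1:ℝ) < 2)
  obtain ⟨N, _, hN⟩ := hiter j
  linarith [hbd N]

/-- A family of sets satisfying the gap conditions and missing a residue class cannot have
(up to finitely many elements) as many sets of each sum as the full family. -/
theorem leaf (hM : 0 < M) (b : ZMod M → ℕ) (C : Finset ℕ)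
    (P0 P1 Q : Finset ℕ → Prop) (D : Finset ℕ)
    (h0 : ∀ n, cnt (adm b C) n ≤ cnt P0 n)
    (h1 : ∀ S, P0 S → P1 (S \ D))
    (h2 : ∀ n, cnt P1 n ≤ cnt Q n)
    (h3 : ∀ S, Q S → (∀ e ∈ S, 0 < e) ∧
      ∀ x ∈ S, ∀ y ∈ S, y < x → y + b (x : ZMod M) ≤ x)
    (γ : ZMod M) (h4 : ∀ S, Q S → ∀ e ∈ S, (e : ZMod M) ≠ γ) : False := by
  classical
  have : NeZero M := ⟨by omega⟩
  obtain ⟨B, hB⟩ : ∃ B, ∀ j, b j ≤ B := by
    refine ⟨∑ j, b j, fun j => ?_⟩
    exact single_le_sum (f := fun j => b j) (fun _ _ => Nat.zero_le _) (mem_univ j)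
  obtain ⟨K, hK⟩ : ∃ K, ∀ c ∈ C, c < K := by
    refine ⟨C.sup id + 1, fun c hc => ?_⟩
    have : c ≤ C.sup id := le_sup (f := id) hc
    omega
  set w : ℕ := 2 * B + M + 1 with hw
  choose e he using fun i : ℕ => exists_class hM γ (K + i * w + B + 1)
  obtain ⟨q, hq0, hq1, N0, hN0⟩ := compare b C B hB
    (fun S => adm b C S ∧ ∀ e ∈ S, (e : ZMod M) ≠ γ)
    (fun S hS => hS.1) w K (fun i => {e i})
    (fun i x hx => by
      have h := he i
      rw [mem_singleton] at hx
      rw [mem_Ico]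
      subst hx
      omega)
    (fun i => by
      have h := he i
      constructor
      · intro x hx
        rw [mem_singleton] at hx
        subst hx
        exact ⟨by omega, fun hC => by have := hK _ hC; omega⟩
      · intro x hx y hy hyx
        rw [mem_singleton] at hx hy
        omega)
    (fun i S hS hEq => by
      have h := he i
      have m1 : e i ∈ S := by
        have : e i ∈ S ∩ Ico (K + i * w) (K + i * w + w) := by rw [hEq]; simp
        exact (mem_inter.1 this).1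
      exact hS.2 _ m1 h.2.2) (2 * (2 ^ D.card * 2 ^ C.card))
  refine no_gap2 hq0 hq1 (adm b C) ⟨by simp, by simp⟩ N0
    (fun N => ((N + 1) ^ 2 + 1) ^ 2) (fun N => by nlinarith [sq_nonneg (N + 1)]) ?_
  intro N hN
  have hNN : N ≤ (N + 1) ^ 2 := by nlinarith
  have s1 : psum q (adm b C) N ≤ psum q P0 N := by
    unfold psum
    apply sum_le_sum
    intro n _
    exact mul_le_mul_of_nonneg_right (by exact_mod_cast h0 n) (by positivity)
  have s2 : psum q P0 N ≤ Z q N P0 := psum_le_Z hq0.le P0 N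
  have s3 : Z q N P0 ≤ 2 ^ D.card * Z q N P1 := Z_remove hq0 hq1.le N D P0 P1 h1
  have s4 : Z q N P1 ≤ psum q P1 ((N + 1) ^ 2) := Z_le_psum hq0.le P1 N
  have s5 : psum q P1 ((N + 1) ^ 2) ≤ psum q Q ((N + 1) ^ 2) := by
    unfold psum
    apply sum_le_sum
    intro n _
    exact mul_le_mul_of_nonneg_right (by exact_mod_cast h2 n) (by positivity)
  have s6 : psum q Q ((N + 1) ^ 2) ≤ Z q ((N + 1) ^ 2) Q := psum_le_Z hq0.le Q _
  have s7 : Z q ((N + 1) ^ 2) Q ≤ 2 ^ C.card * Z q ((N + 1) ^ 2)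
      (fun S => adm b C S ∧ ∀ e ∈ S, (e : ZMod M) ≠ γ) := by
    apply Z_remove hq0 hq1.le
    intro S hS
    refine ⟨⟨fun x hx => ?_, fun x hx y hy hyx => ?_⟩, fun x hx => ?_⟩
    · have := mem_sdiff.1 hx
      exact ⟨(h3 S hS).1 x this.1, this.2⟩
    · exact (h3 S hS).2 x (mem_sdiff.1 hx).1 y (mem_sdiff.1 hy).1 hyx
    · exact h4 S hS x (mem_sdiff.1 hx).1
  have s8 := hN0 ((N + 1) ^ 2) (hN.trans hNN)
  have s9 : Z q ((N + 1) ^ 2) (adm b C) ≤ psum q (adm b C) (((N + 1) ^ 2 + 1) ^ 2) :=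
    Z_le_psum hq0.le (adm b C) _
  have hD : (0 : ℝ) < 2 ^ D.card := by positivity
  calc 2 * psum q (adm b C) N ≤ 2 * (2 ^ D.card * Z q N P1) := by linarith
    _ ≤ 2 * (2 ^ D.card * (2 ^ C.card * Z q ((N + 1) ^ 2)
      (fun S => adm b C S ∧ ∀ e ∈ S, (e : ZMod M) ≠ γ))) := by
        apply mul_le_mul_of_nonneg_left _ (by norm_num)
        apply mul_le_mul_of_nonneg_left _ hD.le
        linarith
    _ = 2 * (2 ^ D.card * 2 ^ C.card) * Z q ((N + 1) ^ 2)
      (fun S => adm b C S ∧ ∀ e ∈ S, (e : ZMod M) ≠ γ) := by ring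
    _ ≤ _ := s8.trans s9

/-- the two sides of a solution, as numbers of sets -/
lemma sol_cnt {R : Finset (ZMod M)} {b : ZMod M → ℕ} {C : Finset ℕ}
    (h : IsSolution M R b C) (n : ℕ) : cnt (adm b C) n = cnt (admA R) n := by
  classical
  rcases Nat.eq_zero_or_pos n with rfl | hn
  · rw [cnt_adm_zero]
    symm
    unfold cnt
    rw [card_eq_one]
    refine ⟨∅, ?_⟩
    ext S
    rw [mem_filter, mem_singleton, mem_powerset]
    constructor
    · rintro ⟨h1, h2, _⟩
      by_contra hne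
      obtain ⟨x, hx⟩ := nonempty_iff_ne_empty.2 hne
      have := mem_range.1 (h1 hx)
      have := (h2 x hx).1
      omega
    · rintro rfl
      exact ⟨by simp, by intro e he; simp at he, by simp⟩
  · rw [← countB_eq b h.1, ← countA_eq, ← h.2.2 n hn]

/-- The literal case: all sets with elements in the classes of `R` satisfy the gap
conditions. -/
theorem literal (hM : 0 < M) {R : Finset (ZMod M)} {b : ZMod M → ℕ} {C : Finset ℕ}
    (h : IsSolution M R b C) (γ : ZMod M) (hγ : γ ∉ R)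
    (hd : ∀ j ∈ R, ∀ d : ℕ, 0 < d → j - (d : ZMod M) ∈ R → b j ≤ d) : False := by
  refine leaf hM b C (admA R) (admA R) (admA R) ∅ (fun n => (sol_cnt h n).le)
    (fun S hS => by rw [sdiff_empty]; exact hS) (fun n => le_rfl) ?_ γ ?_
  · intro S hS
    refine ⟨fun e he => (hS e he).1, fun x hx y hy hyx => ?_⟩
    have h1 := hd _ (hS x hx).2 (x - y) (by omega) (by
      rw [Nat.cast_sub hyx.le, sub_sub_cancel]
      exact (hS y hy).2)
    omega
  · intro S hS e he heq
    exact hγ (heq ▸ (hS e he).2)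

/-- every class must be reached -/
theorem zeroType (hM : 0 < M) {R : Finset (ZMod M)} {b : ZMod M → ℕ} {C : Finset ℕ}
    (h : IsSolution M R b C) (d : ZMod M) (hd : ∀ j ∈ R, d * j = 0) (hd0 : d ≠ 0) :
    False := by
  classical
  obtain ⟨K, hK⟩ : ∃ K, ∀ c ∈ C, c < K := by
    refine ⟨C.sup id + 1, fun c hc => ?_⟩
    have : c ≤ C.sup id := le_sup (f := id) hc
    omega
  obtain ⟨e, he1, _, he2⟩ := exists_class hM (1 : ZMod M) (K + 1)
  have h1 : 0 < cnt (adm b C) e := by
    unfold cnt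
    rw [card_pos]
    refine ⟨{e}, ?_⟩
    rw [mem_filter, mem_powerset]
    refine ⟨by simp, ⟨?_, ?_⟩, by simp⟩
    · intro x hx
      rw [mem_singleton] at hx
      subst hx
      exact ⟨by omega, fun hC => by have := hK _ hC; omega⟩
    · intro x hx y hy hyx
      rw [mem_singleton] at hx hy
      omega
  rw [sol_cnt h] at h1
  unfold cnt at h1
  rw [card_pos] at h1
  obtain ⟨S, hS⟩ := h1
  rw [mem_filter] at hS
  obtain ⟨_, hS1, hS2⟩ := hS
  apply hd0
  have h2 : d * ((∑ x ∈ S, x : ℕ) : ZMod M) = 0 := by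
    rw [Nat.cast_sum, mul_sum]
    exact sum_eq_zero (fun x hx => hd _ (hS1 x hx).2)
  rw [hS2, he2, mul_one] at h2
  exact h2

/-- `R` is not empty -/
theorem emptyType {R : Finset (ZMod M)} {b : ZMod M → ℕ} {C : Finset ℕ}
    (h : IsSolution M R b C) (hR : R = ∅) : False := by
  classical
  obtain ⟨K, hK⟩ : ∃ K, ∀ c ∈ C, c < K := by
    refine ⟨C.sup id + 1, fun c hc => ?_⟩
    have : c ≤ C.sup id := le_sup (f := id) hc
    omega
  have h1 : 0 < cnt (adm b C) (K + 1) := by
    unfold cnt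
    rw [card_pos]
    refine ⟨{K + 1}, ?_⟩
    rw [mem_filter, mem_powerset]
    refine ⟨by simp, ⟨?_, ?_⟩, by simp⟩
    · intro x hx
      rw [mem_singleton] at hx
      subst hx
      exact ⟨by omega, fun hC => by have := hK _ hC; omega⟩
    · intro x hx y hy hyx
      rw [mem_singleton] at hx hy
      omega
  rw [sol_cnt h] at h1
  unfold cnt at h1
  rw [card_pos] at h1
  obtain ⟨S, hS⟩ := h1
  rw [mem_filter] at hS
  obtain ⟨_, hS1, hS2⟩ := hS
  rcases S.eq_empty_or_nonempty with rfl | ⟨x, hx⟩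
  · simp at hS2
  · have := (hS1 x hx).2
    rw [hR] at this
    simp at this

/-- The full set of residues. -/
theorem fullType (hM : 0 < M) {R : Finset (ZMod M)} {b : ZMod M → ℕ} {C : Finset ℕ}
    (h : IsSolution M R b C) (hR : ∀ j, j ∈ R) : (∀ j, b j = 1) ∧ C = ∅ := by
  classical
  have key : ∀ n, ∀ S : Finset ℕ, (∀ x ∈ S, 0 < x) → ∑ e ∈ S, e = n → adm b C S := by
    intro n S hS hn
    by_contra hna
    have h1 := sol_cnt h n
    have hsub : (range (n + 1)).powerset.filter (fun S => adm b C S ∧ ∑ e ∈ S, e = n) ⊆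
        (range (n + 1)).powerset.filter (fun S => admA R S ∧ ∑ e ∈ S, e = n) := by
      intro T hT
      rw [mem_filter] at hT ⊢
      exact ⟨hT.1, fun e he => ⟨(hT.2.1.1 e he).1, hR _⟩, hT.2.2⟩
    have h2 := eq_of_subset_of_card_le hsub (by unfold cnt at h1; exact h1.ge)
    have h3 : S ∈ (range (n + 1)).powerset.filter (fun S => admA R S ∧ ∑ e ∈ S, e = n) := by
      rw [mem_filter, mem_powerset]
      refine ⟨fun x hx => ?_, fun e he => ⟨hS e he, hR _⟩, hn⟩
      have : x ≤ ∑ e ∈ S, e := single_le_sum (f := fun e => e) (fun _ _ => Nat.zero_le _) hx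
      exact mem_range.2 (by omega)
    rw [← h2, mem_filter] at h3
    exact hna h3.2.1
  constructor
  · intro j
    obtain ⟨e, he1, _, he2⟩ := exists_class hM j 2
    have h1 := key _ {e, e - 1} (fun x hx => by
      rw [mem_insert, mem_singleton] at hx; omega) rfl
    have h2 := h1.2 e (by simp) (e - 1) (by simp) (by omega)
    rw [he2] at h2
    have := h.1 j
    omega
  · rw [eq_empty_iff_forall_notMem]
    intro c hc
    have h1 := key _ {c} (fun x hx => by
      rw [mem_singleton] at hx; have := h.2.1 c hc; omega) rfl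
    exact (h1.1 c (by simp)).2 hc

/-- the full set of residues gives a solution -/
theorem fullSol (hM : 0 < M) {R : Finset (ZMod M)} {b : ZMod M → ℕ}
    (hR : ∀ j, j ∈ R) (hb : ∀ j, b j = 1) : IsSolution M R b ∅ := by
  refine ⟨fun j => by rw [hb]; exact Nat.one_pos, fun c hc => by simp at hc, fun n hn => ?_⟩
  rw [countA_eq, countB_eq b (fun j => by rw [hb]; exact Nat.one_pos)]
  apply cnt_congr
  intro S
  constructor
  · intro hS
    refine ⟨fun e he => ⟨(hS e he).1, by simp⟩, fun x _ y _ hyx => ?_⟩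
    rw [hb]
    omega
  · intro hS e he
    exact ⟨(hS.1 e he).1, hR _⟩

end Pool.Agent.H38.DP
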