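import Pool.Agent.H38.DP.Schur

/-! Finite forms of Lebesgue's identity and four partition identities with modulus 4. -/

open Finset Polynomial

namespace Pool.Agent.H38.DP

section
variable {R : Type*} [CommRing R] (y z : R)

lemma gb_self (k : ℕ) : gb y k k = 1 := by
  induction k with
  | zero => simp
  | succ k ih => rw [gb_succ, ih, gb_eq_zero y k (k + 1) (by omega)]; ring

/-- coefficients -/
def cL (N k : ℕ) : R := y ^ (k * k) * gb (y ^ 2) (N - k) k * PI y y (N - 2 * k)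

lemma cL_eq_zero (N k : ℕ) (h : N < 2 * k) : cL y N k = 0 := by
  unfold cL
  rw [gb_eq_zero (y ^ 2) (N - k) k (by omega)]
  ring

lemma cL_rec (m k : ℕ) : cL y (m + 2) (k + 1) = (1 + y ^ (m + 2)) * cL y (m + 1) (k + 1) +
    y ^ (m + 1) * cL y m k := by
  rcases Nat.lt_or_ge m (2 * k) with h | h
  · rw [cL_eq_zero y (m + 2) (k + 1) (by omega), cL_eq_zero y (m + 1) (k + 1) (by omega),
      cL_eq_zero y m k h]
    ring
  · obtain ⟨r, rfl⟩ := Nat.exists_eq_add_of_le h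
    rcases r with _ | s
    · rw [cL_eq_zero y (2 * k + 0 + 1) (k + 1) (by omega)]
      unfold cL
      have e1 : 2 * k + 0 + 2 - (k + 1) = k + 1 := by omega
      have e2 : 2 * k + 0 - k = k := by omega
      have e3 : 2 * k + 0 + 2 - 2 * (k + 1) = 0 := by omega
      have e4 : 2 * k + 0 - 2 * k = 0 := by omega
      rw [e1, e2, e3, e4, gb_self, gb_self]
      ring
    · unfold cL
      have e1 : 2 * k + (s + 1) + 2 - (k + 1) = (k + s + 1) + 1 := by omega
      have e2 : 2 * k + (s + 1) + 1 - (k + 1) = k + s + 1 := by omega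
      have e3 : 2 * k + (s + 1) - k = k + s + 1 := by omega
      have e4 : 2 * k + (s + 1) + 2 - 2 * (k + 1) = s + 1 := by omega
      have e5 : 2 * k + (s + 1) + 1 - 2 * (k + 1) = s := by omega
      have e6 : 2 * k + (s + 1) - 2 * k = s + 1 := by omega
      rw [e1, e2, e3, e4, e5, e6, PI_succ]
      have h1 := gb_succ (y ^ 2) (k + s + 1) k
      have h2 := gb_succ' (y ^ 2) (k + s + 1) k
      have e7 : k + s + 1 - k = s + 1 := by omega
      rw [e7] at h2
      have h3 : gb (y ^ 2) (k + s + 1 + 1) (k + 1) * (1 + y ^ (s + 1)) =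
          (1 + y ^ (2 * k + s + 3)) * gb (y ^ 2) (k + s + 1) (k + 1) +
          y ^ (s + 1) * (1 + y ^ (s + 1)) * gb (y ^ 2) (k + s + 1) k := by
        linear_combination h2 + y ^ (s + 1) * h1
      have e8 : (k + 1) * (k + 1) = k * k + (2 * k + 1) := by ring
      rw [e8, pow_add y (k * k)]
      linear_combination (y ^ (k * k) * y ^ (2 * k + 1) * PI y y s) * h3

/-- finite form of Lebesgue's sum -/
def LL (m : ℕ) : R := ∑ k ∈ range (m + 1), z ^ k * cL y m k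

lemma LL_zero : LL y z 0 = 1 := by
  simp [LL, cL, PI]

lemma LL_one : LL y z 1 = 1 + y := by
  rw [LL, sum_range_succ, cL_eq_zero y 1 1 (by norm_num)]
  simp [cL, PI]

lemma LL_rec (m : ℕ) : LL y z (m + 2) = (1 + y ^ (m + 2)) * LL y z (m + 1) +
    z * y ^ (m + 1) * LL y z m := by
  unfold LL
  have e2 : ∑ k ∈ range (m + 1 + 1), z ^ k * cL y (m + 1) k = cL y (m + 1) 0 +
      ∑ k ∈ range (m + 2), z ^ (k + 1) * cL y (m + 1) (k + 1) := by
    rw [sum_range_succ (fun k => z ^ (k + 1) * cL y (m + 1) (k + 1)) (m + 1),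
      cL_eq_zero y (m + 1) (m + 1 + 1) (by omega), sum_range_succ']
    ring
  have e3 : ∑ k ∈ range (m + 1), z ^ k * cL y m k =
      ∑ k ∈ range (m + 2), z ^ k * cL y m k := by
    rw [sum_range_succ _ (m + 1), cL_eq_zero y m (m + 1) (by omega)]
    ring
  rw [sum_range_succ', e2, e3, mul_add, mul_sum, mul_sum]
  have h0 : cL y (m + 2) 0 = (1 + y ^ (m + 2)) * cL y (m + 1) 0 := by
    unfold cL
    simp only [mul_zero, Nat.sub_zero, gb_zero, pow_zero]
    rw [show m + 2 = m + 1 + 1 from rfl, PI_succ]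
    ring
  rw [h0, pow_zero, one_mul]
  have h1 : ∑ k ∈ range (m + 2), z ^ (k + 1) * cL y (m + 2) (k + 1) =
      ∑ k ∈ range (m + 2), (1 + y ^ (m + 2)) * (z ^ (k + 1) * cL y (m + 1) (k + 1)) +
      ∑ k ∈ range (m + 2), z * y ^ (m + 1) * (z ^ k * cL y m k) := by
    rw [← sum_add_distrib]
    apply sum_congr rfl
    intro k _
    rw [cL_rec]
    ring
  rw [h1]
  ring

/-- the other solution of the recurrence -/
def WW : ℕ → R
  | 0 => 1
  | m + 1 => LL y (z * y) (m + 1) + z * LL y (z * y) m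

lemma WW_one : WW y z 1 = 1 + y + z := by
  rw [WW, LL_one, LL_zero]
  ring

lemma WW_rec (m : ℕ) : WW y z (m + 2) = (1 + y ^ (m + 2)) * WW y z (m + 1) +
    z * y ^ (m + 1) * WW y z m := by
  rcases m with _ | m
  · have h0 : WW y z (0 + 2) = LL y (z * y) (0 + 2) + z * LL y (z * y) 1 := rfl
    have h1 : WW y z 0 = 1 := rfl
    rw [h0, WW_one, LL_rec, LL_one, LL_zero, h1]
    ring
  · rw [WW, WW, WW, LL_rec y (z * y) (m + 1)]
    have h1 := LL_rec y (z * y) m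
    linear_combination z * h1

end

lemma exp_aux (s k : ℕ) : (s + 2) * k + 4 * (k * (k - 1) / 2) = s * k + 2 * (k * k) := by
  have h2 : 2 ∣ k * (k - 1) := by
    rcases k with _ | k
    · simp
    · rw [Nat.add_sub_cancel]; exact (Nat.even_mul_succ_self k).two_dvd.trans
        (dvd_of_eq (by ring))
  obtain ⟨t, ht⟩ := h2
  have h3 : k * k = 2 * t + k := by
    rcases k with _ | k
    · simp at ht ⊢; omega
    · rw [Nat.add_sub_cancel] at ht
      nlinarith
  rw [ht, h3]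
  have : 2 * t / 2 = t := by omega
  rw [this]
  ring

/-- the parts of the product -/
def TL (s m : ℕ) : Finset ℕ :=
  (range m).image (fun i => (s + 2) + 4 * i) ∪ (range m).image (fun i => 2 + 2 * i)

lemma LL_dvd (s n m : ℕ) (hs : 0 < s) (hs2 : s % 2 = 1) (hm : 3 * n + 1 ≤ m) :
    (X : ℤ[X]) ^ (n + 1) ∣ LL (X ^ 2 : ℤ[X]) (X ^ s) m - ∏ e ∈ TL s m, (1 + X ^ e) := by
  have hprod : ∏ e ∈ TL s m, (1 + (X : ℤ[X]) ^ e) =
      (∏ i ∈ range m, (1 + (X ^ (s + 2) : ℤ[X]) * (X ^ 4) ^ i)) * PI (X ^ 2) (X ^ 2) m := by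
    unfold TL PI
    rw [prod_union, prod_image_AP _ _ _ (by norm_num), prod_image_AP _ _ _ (by norm_num)]
    rw [disjoint_left]
    intro e h1 h2
    rw [mem_AP] at h1 h2
    obtain ⟨i, _, rfl⟩ := h1
    obtain ⟨j, _, h⟩ := h2
    omega
  rw [hprod, qbinom, LL, sum_mul, ← sum_sub_distrib]
  apply dvd_sum
  intro k hk
  have hk' : k ≤ m := by have := mem_range.1 hk; omega
  unfold cL
  have h4 : ((X : ℤ[X]) ^ 2) ^ 2 = X ^ 4 := by rw [← pow_mul]
  have he : (X ^ (s + 2) : ℤ[X]) ^ k * (X ^ 4) ^ (k * (k - 1) / 2) =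
      (X ^ s) ^ k * (X ^ 2) ^ (k * k) := by
    rw [← pow_mul, ← pow_mul, ← pow_mul, ← pow_mul, ← pow_add, ← pow_add, exp_aux]
  rw [h4, he]
  rcases Nat.lt_or_ge n k with h | h
  · have h1 : (X : ℤ[X]) ^ (n + 1) ∣ (X ^ s) ^ k := by
      rw [← pow_mul]
      apply pow_dvd_pow
      nlinarith
    refine dvd_sub ?_ ?_
    · exact h1.mul_right _
    · exact ((h1.mul_right _).mul_right _).mul_right _
  · have h2 := prod_sub_dvd (X ^ 2 : ℤ[X]) (X ^ 2) (m - 2 * k) (2 * k)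
    have e1 : m - 2 * k + 2 * k = m := by omega
    rw [e1] at h2
    have h3 : (X : ℤ[X]) ^ (n + 1) ∣ (X ^ 2) ^ (m - 2 * k) := by
      rw [← pow_mul]
      apply pow_dvd_pow
      omega
    have h5 := gb_sub_dvd' (X ^ 4 : ℤ[X]) (m - k) k k
    have e2 : m - k + k = m := by omega
    rw [e2] at h5
    have h6 : (X : ℤ[X]) ^ (n + 1) ∣ (X ^ 4) ^ (m - k + 1 - k) := by
      rw [← pow_mul]
      apply pow_dvd_pow
      omega
    have h7 := (h6.trans h5).mul_left (-((X ^ s : ℤ[X]) ^ k * (X ^ 2) ^ (k * k) *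
      PI (X ^ 2) (X ^ 2) (m - 2 * k)))
    have h8 := (h3.trans h2).mul_left (-((X ^ s : ℤ[X]) ^ k * (X ^ 2) ^ (k * k) *
      gb (X ^ 4) m k))
    have h9 := dvd_add h7 h8
    unfold PI at h9 ⊢
    convert h9 using 1
    ring

/-- congruent products -/
lemma prod_T_dvd (n : ℕ) (T T' : Finset ℕ) (h0 : 0 ∉ T)
    (h : ∀ e, e ≤ n → (e ∈ T ↔ e ∈ T')) :
    (X : ℤ[X]) ^ (n + 1) ∣ ∏ e ∈ T, (1 + X ^ e) - ∏ e ∈ T', (1 + X ^ e) := by
  rw [X_pow_dvd_iff]
  intro d hd
  rw [coeff_sub, cnt_prod (fun e => e ∈ T) T d, cnt_prod (fun e => e ∈ T) T' d, sub_self]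
  · intro e he
    rw [← h e (by omega)]
    constructor
    · intro h1
      exact ⟨by rcases Nat.eq_zero_or_pos e with rfl | h2; exact absurd h1 h0; exact h2, h1⟩
    · exact fun h1 => h1.2
  · intro e he
    constructor
    · intro h1
      exact ⟨by rcases Nat.eq_zero_or_pos e with rfl | h2; exact absurd h1 h0; exact h2, h1⟩
    · exact fun h1 => h1.2

lemma zero_notMem_TL (s m : ℕ) : 0 ∉ TL s m := by
  unfold TL
  rw [mem_union, mem_AP, mem_AP]
  rintro (⟨i, _, h⟩ | ⟨i, _, h⟩) <;> omega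

lemma mem_TL {s m e : ℕ} : e ∈ TL s m ↔ (∃ i, i < m ∧ e = s + 2 + 4 * i) ∨
    ∃ i, i < m ∧ e = 2 + 2 * i := by
  unfold TL
  rw [mem_union, mem_AP, mem_AP]

/-- limit of the second solution -/
lemma WW_dvd (s n m : ℕ) (hs : 0 < s) (hs2 : s % 2 = 1) (hm : 3 * n + 1 ≤ m) :
    (X : ℤ[X]) ^ (n + 1) ∣ WW (X ^ 2 : ℤ[X]) (X ^ s) (m + 1) -
      ∏ e ∈ insert s (TL (s + 2) (m + 1)), (1 + X ^ e) := by
  have hns : s ∉ TL (s + 2) (m + 1) := by
    rw [mem_TL]
    rintro (⟨i, _, h⟩ | ⟨i, _, h⟩) <;> omega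
  rw [prod_insert hns, WW, ← pow_add]
  have h1 := LL_dvd (s + 2) n (m + 1) (by omega) (by omega) (by omega)
  have h2 := LL_dvd (s + 2) n m (by omega) (by omega) hm
  have h3 := prod_T_dvd n (TL (s + 2) m) (TL (s + 2) (m + 1)) (zero_notMem_TL _ _)
    (fun e he => by
      rw [mem_TL, mem_TL]
      constructor
      · rintro (⟨i, hi, rfl⟩ | ⟨i, hi, rfl⟩)
        · exact Or.inl ⟨i, by omega, rfl⟩
        · exact Or.inr ⟨i, by omega, rfl⟩
      · rintro (⟨i, hi, rfl⟩ | ⟨i, hi, rfl⟩)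
        · exact Or.inl ⟨i, by omega, rfl⟩
        · exact Or.inr ⟨i, by omega, rfl⟩)
  have h4 := dvd_add h1 ((dvd_add h2 h3).mul_left (X ^ s))
  convert h4 using 1
  ring

section alpha
variable (g : ℕ → ℕ) (hg : ∀ e, 0 < g e) (ho : ∀ m, g (2 * m + 1) = 3)
  (he : ∀ m, g (2 * m + 2) = 2)
include hg ho he

lemma alpha_step (E : ℕ → Prop) (hE : ∀ e, 1 < e → E e) (m : ℕ) :
    V g E (2 * (m + 2)) = (1 + (X ^ 2) ^ (m + 2)) * V g E (2 * (m + 1)) +
      X * (X ^ 2) ^ (m + 1) * V g E (2 * m) := by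
  have h1 := V_succ g E (2 * m + 2) (hg _)
  rw [if_pos (hE _ (by omega))] at h1
  have h2 := V_succ g E (2 * m + 3) (hg _)
  rw [if_pos (hE _ (by omega))] at h2
  have h3 : g (2 * m + 2 + 1) = 3 := ho (m + 1)
  have h4 : g (2 * m + 3 + 1) = 2 := he (m + 1)
  rw [h3] at h1
  rw [h4] at h2
  have e1 : 2 * m + 2 + 1 - 3 = 2 * m := by omega
  have e2 : 2 * m + 3 + 1 - 2 = 2 * (m + 1) := by omega
  have e3 : 2 * (m + 2) = 2 * m + 3 + 1 := by ring
  rw [e1] at h1
  rw [e2] at h2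
  rw [e3, h2, show 2 * m + 3 = 2 * m + 2 + 1 by ring, h1,
    show 2 * m + 2 = 2 * (m + 1) by ring]
  rw [← pow_mul, ← pow_mul]
  ring

theorem identL1 (n : ℕ) : cnt (admG g (fun _ => True)) n =
    cnt (admG (fun _ => 1) (fun e => e % 4 ≠ 3)) n := by
  have h : ∀ m, V g (fun _ => True) (2 * m) = WW (X ^ 2 : ℤ[X]) X m ∧
      V g (fun _ => True) (2 * (m + 1)) = WW (X ^ 2 : ℤ[X]) X (m + 1) := by
    intro m
    induction m with
    | zero =>
      refine ⟨by rw [mul_zero, V_zero]; rfl, ?_⟩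
      have h1 := V_succ g (fun _ => True) 0 (hg _)
      rw [if_pos trivial] at h1
      have h2 := V_succ g (fun _ => True) 1 (hg _)
      rw [if_pos trivial] at h2
      have h3 : g (0 + 1) = 3 := ho 0
      have h4 : g (1 + 1) = 2 := he 0
      rw [h3] at h1
      rw [h4] at h2
      have e1 : 0 + 1 - 3 = 0 := by norm_num
      have e2 : 1 + 1 - 2 = 0 := by norm_num
      rw [e1, V_zero] at h1
      rw [e2, V_zero] at h2
      rw [WW_one, show 2 * (0 + 1) = 1 + 1 by norm_num, h2, show (1 : ℕ) = 0 + 1 by norm_num, h1]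
      ring
    | succ m ih =>
      refine ⟨ih.2, ?_⟩
      rw [WW_rec, ← ih.1, ← ih.2]
      exact alpha_step g hg ho he _ (fun _ _ => trivial) m
  have h1 := V_coeff g (fun _ => True) (2 * (3 * n + 1 + 1)) n (by omega)
  have h2 := WW_dvd 1 n (3 * n + 1) (by norm_num) (by norm_num) le_rfl
  rw [pow_one] at h2
  rw [(h _).1, coeff_of_dvd h2, cnt_prod (fun e => e % 4 ≠ 3)] at h1
  · exact_mod_cast h1.symm
  · intro e hle
    rw [mem_insert, mem_TL]
    constructor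
    · rintro (rfl | ⟨i, _, rfl⟩ | ⟨i, _, rfl⟩) <;> omega
    · rintro ⟨h1, h2⟩
      rcases Nat.even_or_odd e with ⟨i, hi⟩ | ⟨i, hi⟩
      · exact Or.inr (Or.inr ⟨i - 1, by omega, by omega⟩)
      · by_cases he1 : e = 1
        · exact Or.inl he1
        · exact Or.inr (Or.inl ⟨(e - 5) / 4, by omega, by omega⟩)

theorem identL2 (n : ℕ) : cnt (admG g (fun e => e ≠ 1)) n =
    cnt (admG (fun _ => 1) (fun e => e % 4 ≠ 1)) n := by
  have h : ∀ m, V g (fun e => e ≠ 1) (2 * m) = LL (X ^ 2 : ℤ[X]) X m ∧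
      V g (fun e => e ≠ 1) (2 * (m + 1)) = LL (X ^ 2 : ℤ[X]) X (m + 1) := by
    intro m
    induction m with
    | zero =>
      refine ⟨by rw [mul_zero, V_zero, LL_zero], ?_⟩
      have h1 := V_succ g (fun e => e ≠ 1) 0 (hg _)
      rw [if_neg (by norm_num)] at h1
      have h2 := V_succ g (fun e => e ≠ 1) 1 (hg _)
      rw [if_pos (by norm_num)] at h2
      have h4 : g (1 + 1) = 2 := he 0
      rw [h4] at h2
      have e2 : 1 + 1 - 2 = 0 := by norm_num
      rw [V_zero] at h1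
      rw [e2, V_zero] at h2
      rw [LL_one, show 2 * (0 + 1) = 1 + 1 by norm_num, h2, show (1 : ℕ) = 0 + 1 by norm_num, h1]
      ring
    | succ m ih =>
      refine ⟨ih.2, ?_⟩
      rw [LL_rec, ← ih.1, ← ih.2]
      exact alpha_step g hg ho he _ (fun e he => by omega) m
  have h1 := V_coeff g (fun e => e ≠ 1) (2 * (3 * n + 1)) n (by omega)
  have h2 := LL_dvd 1 n (3 * n + 1) (by norm_num) (by norm_num) le_rfl
  rw [pow_one] at h2
  rw [(h _).1, coeff_of_dvd h2, cnt_prod (fun e => e % 4 ≠ 1)] at h1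
  · exact_mod_cast h1.symm
  · intro e hle
    rw [mem_TL]
    constructor
    · rintro (⟨i, _, rfl⟩ | ⟨i, _, rfl⟩) <;> omega
    · rintro ⟨h1, h2⟩
      rcases Nat.even_or_odd e with ⟨i, hi⟩ | ⟨i, hi⟩
      · exact Or.inr ⟨i - 1, by omega, by omega⟩
      · exact Or.inl ⟨(e - 3) / 4, by omega, by omega⟩

end alpha

section beta
variable (g : ℕ → ℕ) (hg : ∀ e, 0 < g e) (ho : ∀ m, g (2 * m + 1) = 4)
  (he : ∀ m, g (2 * m + 2) = 1)
include hg ho he

lemma beta_step (E : ℕ → Prop) (hE : ∀ e, 3 < e → E e) (m : ℕ) :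
    V g E (2 * (m + 2) + 1) = (1 + (X ^ 2) ^ (m + 2)) * V g E (2 * (m + 1) + 1) +
      X ^ 3 * (X ^ 2) ^ (m + 1) * V g E (2 * m + 1) := by
  have h1 := V_succ g E (2 * m + 3) (hg _)
  rw [if_pos (hE _ (by omega))] at h1
  have h2 := V_succ g E (2 * m + 4) (hg _)
  rw [if_pos (hE _ (by omega))] at h2
  have h3 : g (2 * m + 3 + 1) = 1 := he (m + 1)
  have h4 : g (2 * m + 4 + 1) = 4 := ho (m + 2)
  rw [h3] at h1
  rw [h4] at h2
  have e1 : 2 * m + 3 + 1 - 1 = 2 * m + 3 := by omega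
  have e2 : 2 * m + 4 + 1 - 4 = 2 * m + 1 := by omega
  have e3 : 2 * (m + 2) + 1 = 2 * m + 4 + 1 := by ring
  rw [e1] at h1
  rw [e2] at h2
  rw [e3, h2, show 2 * m + 4 = 2 * m + 3 + 1 by ring, h1,
    show 2 * (m + 1) + 1 = 2 * m + 3 by ring]
  rw [← pow_mul, ← pow_mul]
  ring

theorem identL3 (n : ℕ) : cnt (admG g (fun e => e ≠ 1)) n =
    cnt (admG (fun _ => 1) (fun e => e % 4 ≠ 1)) n := by
  have h : ∀ m, V g (fun e => e ≠ 1) (2 * m + 1) = WW (X ^ 2 : ℤ[X]) (X ^ 3) m ∧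
      V g (fun e => e ≠ 1) (2 * (m + 1) + 1) = WW (X ^ 2 : ℤ[X]) (X ^ 3) (m + 1) := by
    intro m
    induction m with
    | zero =>
      have h1 := V_succ g (fun e => e ≠ 1) 0 (hg _)
      rw [if_neg (by norm_num), V_zero, add_zero] at h1
      have h2 := V_succ g (fun e => e ≠ 1) 1 (hg _)
      rw [if_pos (by norm_num)] at h2
      have h3 := V_succ g (fun e => e ≠ 1) 2 (hg _)
      rw [if_pos (by norm_num)] at h3
      have h4 : g (1 + 1) = 1 := he 0
      have h5 : g (2 + 1) = 4 := ho 1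
      rw [h4] at h2
      rw [h5] at h3
      have e1 : 1 + 1 - 1 = 1 := by norm_num
      have e2 : 2 + 1 - 4 = 0 := by norm_num
      rw [e1] at h2
      rw [e2, V_zero] at h3
      refine ⟨by rw [mul_zero, h1]; rfl, ?_⟩
      rw [WW_one, show 2 * (0 + 1) + 1 = 2 + 1 by norm_num, h3, show (2 : ℕ) = 1 + 1 by norm_num,
        h2, show (1 : ℕ) = 0 + 1 by norm_num, h1]
      ring
    | succ m ih =>
      refine ⟨ih.2, ?_⟩
      rw [WW_rec, ← ih.1, ← ih.2]
      exact beta_step g hg ho he _ (fun e he => by omega) m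
  have h1 := V_coeff g (fun e => e ≠ 1) (2 * (3 * n + 1 + 1) + 1) n (by omega)
  have h2 := WW_dvd 3 n (3 * n + 1) (by norm_num) (by norm_num) le_rfl
  rw [(h _).1, coeff_of_dvd h2, cnt_prod (fun e => e % 4 ≠ 1)] at h1
  · exact_mod_cast h1.symm
  · intro e hle
    rw [mem_insert, mem_TL]
    constructor
    · rintro (rfl | ⟨i, _, rfl⟩ | ⟨i, _, rfl⟩) <;> omega
    · rintro ⟨h1, h2⟩
      rcases Nat.even_or_odd e with ⟨i, hi⟩ | ⟨i, hi⟩
      · exact Or.inr (Or.inr ⟨i - 1, by omega, by omega⟩)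
      · by_cases he1 : e = 3
        · exact Or.inl he1
        · exact Or.inr (Or.inl ⟨(e - 7) / 4, by omega, by omega⟩)

theorem identL4 (n : ℕ) : cnt (admG g (fun e => e ≠ 3)) n =
    cnt (admG (fun _ => 1) (fun e => e % 4 ≠ 3)) n := by
  have h : ∀ m, V g (fun e => e ≠ 3) (2 * m + 1) = (1 + X) * LL (X ^ 2 : ℤ[X]) (X ^ 3) m ∧
      V g (fun e => e ≠ 3) (2 * (m + 1) + 1) =
        (1 + X) * LL (X ^ 2 : ℤ[X]) (X ^ 3) (m + 1) := by
    intro m
    induction m with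
    | zero =>
      have h1 := V_succ g (fun e => e ≠ 3) 0 (hg _)
      rw [if_pos (by norm_num), V_zero] at h1
      have h2 := V_succ g (fun e => e ≠ 3) 1 (hg _)
      rw [if_pos (by norm_num)] at h2
      have h3 := V_succ g (fun e => e ≠ 3) 2 (hg _)
      rw [if_neg (by norm_num), add_zero] at h3
      have h4 : g (1 + 1) = 1 := he 0
      have h5 : g (0 + 1) = 4 := ho 0
      rw [h4] at h2
      rw [h5] at h1
      have e1 : 1 + 1 - 1 = 1 := by norm_num
      have e2 : 0 + 1 - 4 = 0 := by norm_num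
      rw [e1] at h2
      rw [e2, V_zero] at h1
      refine ⟨by rw [mul_zero, h1, LL_zero]; ring, ?_⟩
      rw [LL_one, show 2 * (0 + 1) + 1 = 2 + 1 by norm_num, h3, show (2 : ℕ) = 1 + 1 by norm_num,
        h2, show (1 : ℕ) = 0 + 1 by norm_num, h1]
      ring
    | succ m ih =>
      refine ⟨ih.2, ?_⟩
      have h1 := beta_step g hg ho he (fun e => e ≠ 3) (fun e he => by omega) m
      rw [h1, ih.1, ih.2, LL_rec]
      ring
  have h1 := V_coeff g (fun e => e ≠ 3) (2 * (3 * n + 1) + 1) n (by omega)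
  have h2 := LL_dvd 3 n (3 * n + 1) (by norm_num) (by norm_num) le_rfl
  have h3 := h2.mul_left (1 + X)
  have h4 : (1 + X) * (LL (X ^ 2 : ℤ[X]) (X ^ 3) (3 * n + 1) -
      ∏ e ∈ TL 3 (3 * n + 1), (1 + X ^ e)) =
      (1 + X) * LL (X ^ 2 : ℤ[X]) (X ^ 3) (3 * n + 1) -
      ∏ e ∈ insert 1 (TL 3 (3 * n + 1)), (1 + X ^ e) := by
    rw [prod_insert]
    · ring
    · rw [mem_TL]
      rintro (⟨i, _, h⟩ | ⟨i, _, h⟩) <;> omega
  rw [h4] at h3
  rw [(h _).1, coeff_of_dvd h3, cnt_prod (fun e => e % 4 ≠ 3)] at h1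
  · exact_mod_cast h1.symm
  · intro e hle
    rw [mem_insert, mem_TL]
    constructor
    · rintro (rfl | ⟨i, _, rfl⟩ | ⟨i, _, rfl⟩) <;> omega
    · rintro ⟨h1, h2⟩
      rcases Nat.even_or_odd e with ⟨i, hi⟩ | ⟨i, hi⟩
      · exact Or.inr (Or.inr ⟨i - 1, by omega, by omega⟩)
      · by_cases he1 : e = 1
        · exact Or.inl he1
        · exact Or.inr (Or.inl ⟨(e - 5) / 4, by omega, by omega⟩)

end beta

end Pool.Agent.H38.DP
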