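import Pool.Agent.H38.DP.SwapI

/-! Products `∏ (1 + X ^ e)` and numbers of sets. -/

open Finset Polynomial

namespace Pool.Agent.H38.DP

lemma cnt_prod (E : ℕ → Prop) (T : Finset ℕ) (n : ℕ)
    (hT : ∀ e, e ≤ n → (e ∈ T ↔ 0 < e ∧ E e)) :
    (∏ e ∈ T, (1 + (X : ℤ[X]) ^ e)).coeff n = (cnt (admG (fun _ => 1) E) n : ℤ) := by
  classical
  rw [prod_one_add, finsetSum_coeff]
  have h1 : ∀ S ∈ T.powerset, (∏ i ∈ S, (X : ℤ[X]) ^ i).coeff n =
      if ∑ i ∈ S, i = n then 1 else 0 := by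
    intro S _
    rw [prod_pow_eq_pow_sum, coeff_X_pow]
    by_cases h : ∑ i ∈ S, i = n
    · rw [if_pos h, if_pos h.symm]
    · rw [if_neg h, if_neg (fun h' => h h'.symm)]
  rw [sum_congr rfl h1, sum_boole]
  unfold cnt
  norm_cast
  congr 1
  ext S
  simp only [mem_filter, mem_powerset]
  have hle : ∀ S : Finset ℕ, ∑ i ∈ S, i = n → ∀ x ∈ S, x ≤ n := by
    intro S hS x hx
    rw [← hS]
    exact single_le_sum (f := fun e => e) (fun _ _ => Nat.zero_le _) hx
  constructor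
  · rintro ⟨h1, h2⟩
    refine ⟨fun x hx => mem_range.2 (by have := hle S h2 x hx; omega),
      ⟨fun e he => (hT e (hle S h2 e he)).1 (h1 he), fun x _ y _ h => ?_⟩, h2⟩
    exact h
  · rintro ⟨_, h2, h3⟩
    exact ⟨fun x hx => (hT x (hle S h3 x hx)).2 (h2.1 x hx), h3⟩

lemma prod_image_AP (a M N : ℕ) (hM : 0 < M) :
    ∏ e ∈ (range N).image (fun i => a + M * i), (1 + (X : ℤ[X]) ^ e) =
      ∏ i ∈ range N, (1 + (X ^ a : ℤ[X]) * (X ^ M) ^ i) := by
  rw [prod_image]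
  · apply prod_congr rfl
    intro i _
    rw [← pow_mul, ← pow_add]
  · intro i _ j _ h
    have : M * i = M * j := by
      have h' : a + M * i = a + M * j := h
      omega
    exact Nat.eq_of_mul_eq_mul_left hM this

lemma mem_AP {a M N e : ℕ} : e ∈ (range N).image (fun i => a + M * i) ↔
    ∃ i, i < N ∧ e = a + M * i := by
  rw [mem_image]
  constructor
  · rintro ⟨i, hi, rfl⟩
    exact ⟨i, mem_range.1 hi, rfl⟩
  · rintro ⟨i, hi, rfl⟩
    exact ⟨i, mem_range.2 hi, rfl⟩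

lemma coeff_of_dvd {n : ℕ} {p q : ℤ[X]} (h : (X : ℤ[X]) ^ (n + 1) ∣ p - q) :
    p.coeff n = q.coeff n := by
  rw [X_pow_dvd_iff] at h
  have := h n (by omega)
  rw [coeff_sub] at this
  linarith

lemma prod_sub_dvd {R : Type*} [CommRing R] (x v : R) (N i : ℕ) :
    x ^ N ∣ ∏ j ∈ range (N + i), (1 + v * x ^ j) - ∏ j ∈ range N, (1 + v * x ^ j) := by
  induction i with
  | zero => simp
  | succ i ih =>
    rw [← add_assoc, prod_range_succ]
    have : (∏ j ∈ range (N + i), (1 + v * x ^ j)) * (1 + v * x ^ (N + i)) -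
        ∏ j ∈ range N, (1 + v * x ^ j) = (∏ j ∈ range (N + i), (1 + v * x ^ j) -
        ∏ j ∈ range N, (1 + v * x ^ j)) +
        x ^ N * (x ^ i * v * ∏ j ∈ range (N + i), (1 + v * x ^ j)) := by
      rw [pow_add]
      ring
    rw [this]
    exact dvd_add ih (dvd_mul_right _ _)

end Pool.Agent.H38.DP
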