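import Pool.Agent.H38.DP.Sound3

/-! Tables of the numbers of partitions into distinct parts. -/

open Finset

namespace Pool.Agent.H38.DP

lemma mulA_length (l : List ℕ) (e : ℕ) : (mulA l e).length = l.length := by
  unfold mulA
  rw [List.length_zipWith, List.length_append, List.length_replicate]
  omega

lemma mulA_getD (l : List ℕ) (e m : ℕ) (hm : m < l.length) :
    (mulA l e).getD m 0 = l.getD m 0 + if e ≤ m then l.getD (m - e) 0 else 0 := by
  have h2 : m < (List.replicate e 0 ++ l).length := by
    rw [List.length_append, List.length_replicate]; omega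
  have h3 : (mulA l e).getD m 0 = l.getD m 0 + (List.replicate e 0 ++ l).getD m 0 := by
    unfold mulA
    rw [List.getD_eq_getElem?_getD, List.getElem?_zipWith, List.getD_eq_getElem?_getD,
      List.getD_eq_getElem?_getD, List.getElem?_eq_getElem hm, List.getElem?_eq_getElem h2]
    rfl
  rw [h3]
  congr 1
  split_ifs with h
  · rw [List.getD_append_right _ _ _ _ (by rw [List.length_replicate]; exact h),
      List.length_replicate]
  · rw [List.getD_append _ _ _ _ (by rw [List.length_replicate]; omega),
      List.getD_eq_getElem _ _ (by rw [List.length_replicate]; omega)]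
    simp

lemma tab_length (f : ℕ → Bool) (N e : ℕ) : (tab f N e).length = N + 1 := by
  induction e with
  | zero => simp [tab]
  | succ e ih =>
    rw [tab]
    cases f (e + 1) with
    | true => rw [cond_true, mulA_length, ih]
    | false => rw [cond_false, ih]

lemma tab_getD (f : ℕ → Bool) (N e : ℕ) : ∀ m, m ≤ N →
    (tab f N e).getD m 0 = cT (fun _ => 1) (fun e => f e = true) e m := by
  classical
  induction e with
  | zero =>
    intro m hm
    rw [cT_zero, tab]
    cases m with
    | zero => simp
    | succ m =>
      rw [if_neg (by omega), List.getD_cons_succ]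
      rcases Nat.lt_or_ge m N with h | h
      · rw [List.getD_eq_getElem _ _ (by simpa using h)]
        simp
      · omega
  | succ e ih =>
    intro m hm
    rw [tab, cT_succ _ _ _ _ (by norm_num)]
    cases hf : f (e + 1) with
    | true =>
      rw [cond_true, mulA_getD _ _ _ (by rw [tab_length]; omega), ih m hm]
      congr 1
      by_cases h : e + 1 ≤ m
      · rw [if_pos h, if_pos ⟨rfl, h⟩, ih _ (by omega)]
        rfl
      · rw [if_neg h, if_neg (fun h' => h h'.2)]
    | false =>
      rw [cond_false, ih m hm]
      simp

/-- correctness of a list of values -/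
lemma tab_spec (f : ℕ → Bool) (N : ℕ) (As : List ℕ) (h : eqL (tab f N N) As = true) :
    As.length = N + 1 ∧ ∀ i, i < As.length →
      As.getD i 0 = cnt (admG (fun _ => 1) (fun e => f e = true)) i := by
  have h1 := eqL_true h
  subst h1
  refine ⟨tab_length f N N, fun i hi => ?_⟩
  rw [tab_length] at hi
  rw [tab_getD f N N i (by omega), cT_eq_cnt _ _ _ _ (by omega)]

/-- check of the bound -/
def chkQ : List ℕ → ℕ → Bool
  | [], _ => true
  | a :: l, i => Nat.ble (a + 1) (2 ^ (i / 8 + 8)) && chkQ l (i + 1)

lemma chkQ_spec (l : List ℕ) : ∀ i, chkQ l i = true → ∀ j, j < l.length →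
    l.getD j 0 < 2 ^ ((i + j) / 8 + 8) := by
  induction l with
  | nil => intro i _ j hj; simp at hj
  | cons a l ih =>
    intro i h j hj
    rw [chkQ, Bool.and_eq_true] at h
    cases j with
    | zero =>
      have := Nat.le_of_ble_eq_true h.1
      simpa using this
    | succ j =>
      have h1 := ih (i + 1) h.2 j (by simpa using hj)
      rw [List.getD_cons_succ]
      rw [show i + (j + 1) = i + 1 + j by ring]
      exact h1

lemma chkQ_tab : chkQ (tab (fun _ => true) 159 159) 0 = true := by decide +kernel

theorem QB_true : QB := by
  intro i hi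
  have h1 := chkQ_spec _ 0 chkQ_tab i (by rw [tab_length]; exact hi)
  rw [tab_getD _ _ _ _ (by omega), cT_eq_cnt _ _ _ _ (by omega), zero_add] at h1
  have : cnt (admG (fun _ => 1) (fun e => (fun _ : ℕ => true) e = true)) i =
      cnt (admG (fun _ => 1) (fun _ => True)) i := by
    apply cnt_congr
    intro S
    simp [admG]
  rw [← this]
  exact h1

end Pool.Agent.H38.DP
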