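import Pool.Agent.H38.DP.Lebesgue
import Pool.Agent.H38.DP.Leaf
import Pool.Agent.H38.DP.Tab

/-! Consequences for solutions: gap vectors which cannot belong to a solution. -/

open Finset

namespace Pool.Agent.H38.DP

variable {M : ℕ}

/-- the solution lies below the vector `g` (entries at least 60000 mean no condition) -/
def Low (M : ℕ) (g : List ℕ) (b : ZMod M → ℕ) : Prop :=
  ∀ e : ℕ, 0 < e → b (e : ZMod M) ≤ gapOf M g e ∨ 60000 ≤ gapOf M g e

lemma Low.le {g : List ℕ} {b : ZMod M → ℕ} (h : Low M g b) (e k : ℕ) (he : 0 < e)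
    (hk : gapOf M g e ≤ k) (hk2 : k < 60000) : b (e : ZMod M) ≤ k := by
  rcases h e he with h | h <;> omega

lemma cast_eq_iff (a e : ℕ) (haM : a < M) : (e : ZMod M) = (a : ZMod M) ↔ e % M = a := by
  rw [ZMod.natCast_eq_natCast_iff', Nat.mod_eq_of_lt haM]

lemma AP_iff (a e : ℕ) (haM : a < M) (he : 0 < e) : e % M = a ↔ ∃ m, e = a + M * m := by
  constructor
  · intro h
    exact ⟨e / M, by rw [← h]; exact (Nat.mod_add_div e M).symm⟩
  · rintro ⟨m, rfl⟩
    rw [Nat.add_mul_mod_self_left, Nat.mod_eq_of_lt haM]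

lemma cnt_admA_one {R : Finset (ZMod M)} (a : ℕ) (haM : a < M)
    (hR : ∀ j, j ∈ R ↔ j = (a : ZMod M)) (n : ℕ) :
    cnt (admA R) n = cnt (admG (fun _ => 1) (EA M a)) n := by
  apply cnt_congr
  intro S
  have key : ∀ e : ℕ, 0 < e → ((e : ZMod M) ∈ R ↔ EA M a e) := by
    intro e he
    rw [hR, cast_eq_iff a e haM, AP_iff a e haM he]
    rfl
  constructor
  · intro h
    exact ⟨fun e he => ⟨(h e he).1, (key e (h e he).1).1 (h e he).2⟩, fun _ _ _ _ h => h⟩
  · intro h e he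
    exact ⟨(h.1 e he).1, (key e (h.1 e he).1).2 (h.1 e he).2⟩

lemma cnt_admA_two {R : Finset (ZMod M)} (a b : ℕ) (haM : a < M) (hbM : b < M)
    (hR : ∀ j, j ∈ R ↔ j = (a : ZMod M) ∨ j = (b : ZMod M)) (n : ℕ) :
    cnt (admA R) n = cnt (admG (fun _ => 1) (EAB M a b)) n := by
  apply cnt_congr
  intro S
  have key : ∀ e : ℕ, 0 < e → ((e : ZMod M) ∈ R ↔ EAB M a b e) := by
    intro e he
    rw [hR, cast_eq_iff a e haM, AP_iff a e haM he, cast_eq_iff b e hbM, AP_iff b e hbM he]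
    rfl
  constructor
  · intro h
    exact ⟨fun e he => ⟨(h e he).1, (key e (h e he).1).1 (h e he).2⟩, fun _ _ _ _ h => h⟩
  · intro h e he
    exact ⟨(h.1 e he).1, (key e (h.1 e he).1).2 (h.1 e he).2⟩

lemma mod_AP (a m : ℕ) (haM : a < M) : (a + M * m) % M = a := by
  rw [Nat.add_mul_mod_self_left, Nat.mod_eq_of_lt haM]

lemma mod_2AP (a m : ℕ) (ha : 0 < a) (haM : a < M) : (2 * a + M * m) % M ≠ a := by
  rw [Nat.add_mul_mod_self_left]
  rcases Nat.lt_or_ge (2 * a) M with h | h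
  · rw [Nat.mod_eq_of_lt h]; omega
  · rw [Nat.mod_eq_sub_mod h, Nat.mod_eq_of_lt (by omega)]; omega

lemma mod_ABAP (a b m : ℕ) (ha : 0 < a) (hab : a < b) (hbM : b < M) :
    (a + b + M * m) % M ≠ a ∧ (a + b + M * m) % M ≠ b := by
  rw [Nat.add_mul_mod_self_left]
  rcases Nat.lt_or_ge (a + b) M with h | h
  · rw [Nat.mod_eq_of_lt h]; omega
  · rw [Nat.mod_eq_sub_mod h, Nat.mod_eq_of_lt (by omega)]; omega

lemma cast_AP (a m : ℕ) : ((a + M * m : ℕ) : ZMod M) = (a : ZMod M) := by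
  push_cast
  simp

section one
variable {R : Finset (ZMod M)} {b : ZMod M → ℕ} {C : Finset ℕ} (h : IsSolution M R b C)
  (a : ℕ) (ha : 0 < a) (haM : a < M) (hR : ∀ j, j ∈ R ↔ j = (a : ZMod M))
  (γ : ZMod M) (hγ1 : γ ≠ (a : ZMod M)) (hγ2 : γ ≠ ((2 * a : ℕ) : ZMod M))
include h ha haM hR hγ1 hγ2

theorem leafI (h1 : b (a : ZMod M) ≤ 3 * M) (h2 : b ((2 * a : ℕ) : ZMod M) ≤ 3 * M + a) :
    False := by
  have hM : 0 < M := by omega
  set g : ℕ → ℕ := fun e => if e % M = a then 3 * M else 3 * M + a with hg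
  have hgpos : ∀ e, 0 < g e := by
    intro e
    simp only [hg]
    split_ifs <;> omega
  have hg1 : ∀ m, g (a + M * m) = 3 * M := fun m => by
    simp only [hg]
    rw [if_pos (mod_AP a m haM)]
  have hg2 : ∀ m, g (2 * a + M * (m + 1)) = 3 * M + a := fun m => by
    simp only [hg]
    rw [if_neg (mod_2AP a (m + 1) ha haM)]
  refine leaf hM b C (admA R) (admA R) (admG g (EI M a)) ∅ (fun n => (sol_cnt h n).le)
    (fun S hS => by rw [sdiff_empty]; exact hS)
    (fun n => by rw [cnt_admA_one a haM hR n, identI M a g ha haM hg1 hg2 hgpos n]) ?_ γ ?_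
  · intro S hS
    refine ⟨fun e he => (hS.1 e he).1, fun x hx y hy hyx => ?_⟩
    have h3 := hS.2 x hx y hy hyx
    rcases (hS.1 x hx).2 with ⟨m, rfl⟩ | ⟨m, rfl⟩
    · rw [hg1] at h3
      rw [cast_AP]
      omega
    · rw [hg2] at h3
      rw [cast_AP]
      omega
  · intro S hS e he heq
    rcases (hS.1 e he).2 with ⟨m, rfl⟩ | ⟨m, rfl⟩
    · rw [cast_AP] at heq
      exact hγ1 heq.symm
    · rw [cast_AP] at heq
      exact hγ2 heq.symm

theorem leafI' (h1 : b (a : ZMod M) ≤ 3 * M - a) (h2 : b ((2 * a : ℕ) : ZMod M) ≤ 4 * M) :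
    False := by
  have hM : 0 < M := by omega
  set g : ℕ → ℕ := fun e => if e % M = a then 3 * M else 3 * M + a with hg
  have hgpos : ∀ e, 0 < g e := by
    intro e
    simp only [hg]
    split_ifs <;> omega
  have hg1 : ∀ m, g (a + M * m) = 3 * M := fun m => by
    simp only [hg]
    rw [if_pos (mod_AP a m haM)]
  have hg2 : ∀ m, g (2 * a + M * (m + 1)) = 3 * M + a := fun m => by
    simp only [hg]
    rw [if_neg (mod_2AP a (m + 1) ha haM)]
  set g' : ℕ → ℕ := fun e => if e % M = a then 3 * M - a else 4 * M with hg'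
  have hgpos' : ∀ e, 0 < g' e := by
    intro e
    simp only [hg']
    split_ifs <;> omega
  have hg1' : ∀ m, g' (a + M * m) = 3 * M - a := fun m => by
    simp only [hg']
    rw [if_pos (mod_AP a m haM)]
  have hg2' : ∀ m, g' (2 * a + M * (m + 1)) = 4 * M := fun m => by
    simp only [hg']
    rw [if_neg (mod_2AP a (m + 1) ha haM)]
  refine leaf hM b C (admG g (EI M a)) (admG g (E1 M a)) (admG g' (E1 M a)) {a}
    (fun n => by
      rw [sol_cnt h n, cnt_admA_one a haM hR n, identI M a g ha haM hg1 hg2 hgpos n])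
    (fun S hS => ?_)
    (fun n => (identSwapI M a g g' ha haM hgpos hgpos' (fun m => hg1 (m + 1)) hg2
      (fun m => hg1' (m + 1)) hg2' n).le) ?_ γ ?_
  · refine ⟨fun e he => ?_, fun x hx y hy hyx =>
      hS.2 x (mem_sdiff.1 hx).1 y (mem_sdiff.1 hy).1 hyx⟩
    have he' := mem_sdiff.1 he
    refine ⟨(hS.1 e he'.1).1, ?_⟩
    rcases (hS.1 e he'.1).2 with ⟨m, rfl⟩ | ⟨m, rfl⟩
    · rcases m with _ | m
      · exact absurd (by simp) he'.2
      · exact Or.inl ⟨m, rfl⟩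
    · exact Or.inr ⟨m, rfl⟩
  · intro S hS
    refine ⟨fun e he => (hS.1 e he).1, fun x hx y hy hyx => ?_⟩
    have h3 := hS.2 x hx y hy hyx
    rcases (hS.1 x hx).2 with ⟨m, rfl⟩ | ⟨m, rfl⟩
    · rw [hg1'] at h3
      rw [cast_AP]
      omega
    · rw [hg2'] at h3
      rw [cast_AP]
      omega
  · intro S hS e he heq
    rcases (hS.1 e he).2 with ⟨m, rfl⟩ | ⟨m, rfl⟩
    · rw [cast_AP] at heq
      exact hγ1 heq.symm
    · rw [cast_AP] at heq
      exact hγ2 heq.symm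

end one

/-- the gap function of Schur's identity -/
def gS (M a b e : ℕ) : ℕ := if e % M = a then M else if e % M = b then M else M + a

/-- the gap function of the swapped form -/
def gS' (M a b e : ℕ) : ℕ := if e % M = a then M else if e % M = b then M - a else M + b

section gS
variable (a b : ℕ) (ha : 0 < a) (hab : a < b) (hbM : b < M)
include ha hab hbM

lemma gS_pos (e : ℕ) : 0 < gS M a b e := by
  unfold gS
  split_ifs <;> omega

lemma gS_1 (m : ℕ) : gS M a b (a + M * m) = M := by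
  unfold gS
  rw [if_pos (mod_AP a m (by omega))]

lemma gS_2 (m : ℕ) : gS M a b (b + M * m) = M := by
  unfold gS
  rw [mod_AP b m (by omega), if_neg (by omega), if_pos rfl]

lemma gS_3 (m : ℕ) : gS M a b (a + b + M * m) = M + a := by
  unfold gS
  have := mod_ABAP a b m ha hab hbM
  rw [if_neg this.1, if_neg this.2]

lemma gS'_pos (e : ℕ) : 0 < gS' M a b e := by
  unfold gS'
  split_ifs <;> omega

lemma gS'_1 (m : ℕ) : gS' M a b (a + M * m) = M := by
  unfold gS'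
  rw [if_pos (mod_AP a m (by omega))]

lemma gS'_2 (m : ℕ) : gS' M a b (b + M * m) = M - a := by
  unfold gS'
  rw [mod_AP b m (by omega), if_neg (by omega), if_pos rfl]

lemma gS'_3 (m : ℕ) : gS' M a b (a + b + M * m) = M + b := by
  unfold gS'
  have := mod_ABAP a b m ha hab hbM
  rw [if_neg this.1, if_neg this.2]

lemma schurS (n : ℕ) : cnt (admG (gS M a b) (ES M a b)) n =
    cnt (admG (fun _ => 1) (EAB M a b)) n :=
  identII M a b ha hab hbM _ (gS_pos a b ha hab hbM) (gS_1 a b ha hab hbM)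
    (gS_2 a b ha hab hbM) (gS_3 a b ha hab hbM) n

lemma schurS' (n : ℕ) : cnt (admG (gS' M a b) (ES M a b)) n =
    cnt (admG (fun _ => 1) (EAB M a b)) n :=
  identII' M a b ha hab hbM _ (gS_pos a b ha hab hbM) (gS_1 a b ha hab hbM)
    (gS_2 a b ha hab hbM) (gS_3 a b ha hab hbM) _ (gS'_pos a b ha hab hbM)
    (gS'_1 a b ha hab hbM) (gS'_2 a b ha hab hbM) (gS'_3 a b ha hab hbM) n

end gS

section two
variable {R : Finset (ZMod M)} {b : ZMod M → ℕ} {C : Finset ℕ} (h : IsSolution M R b C)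
  (a a' : ℕ) (ha : 0 < a) (haa : a < a') (haM : a' < M)
  (hR : ∀ j, j ∈ R ↔ j = (a : ZMod M) ∨ j = (a' : ZMod M))
  (γ : ZMod M) (hγ1 : γ ≠ (a : ZMod M)) (hγ2 : γ ≠ (a' : ZMod M))
  (hγ3 : γ ≠ ((a + a' : ℕ) : ZMod M))
include h ha haa haM hR hγ1 hγ2 hγ3

theorem leafII (h1 : b (a : ZMod M) ≤ M) (h2 : b (a' : ZMod M) ≤ M)
    (h3 : b ((a + a' : ℕ) : ZMod M) ≤ M + a) : False := by
  have hM : 0 < M := by omega
  refine leaf hM b C (admA R) (admA R) (admG (gS M a a') (ES M a a')) ∅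
    (fun n => (sol_cnt h n).le)
    (fun S hS => by rw [sdiff_empty]; exact hS)
    (fun n => by rw [cnt_admA_two a a' (by omega) haM hR n, schurS a a' ha haa haM]) ?_ γ ?_
  · intro S hS
    refine ⟨fun e he => (hS.1 e he).1, fun x hx y hy hyx => ?_⟩
    have h4 := hS.2 x hx y hy hyx
    rcases (hS.1 x hx).2 with ⟨m, rfl⟩ | ⟨m, rfl⟩ | ⟨m, rfl⟩
    · rw [gS_1 a a' ha haa haM] at h4
      rw [cast_AP]
      omega
    · rw [gS_2 a a' ha haa haM] at h4
      rw [cast_AP]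
      omega
    · rw [gS_3 a a' ha haa haM] at h4
      rw [cast_AP]
      omega
  · intro S hS e he heq
    rcases (hS.1 e he).2 with ⟨m, rfl⟩ | ⟨m, rfl⟩ | ⟨m, rfl⟩
    · rw [cast_AP] at heq
      exact hγ1 heq.symm
    · rw [cast_AP] at heq
      exact hγ2 heq.symm
    · rw [cast_AP] at heq
      exact hγ3 heq.symm

theorem leafII' (h1 : b (a : ZMod M) ≤ M) (h2 : b (a' : ZMod M) ≤ M - a)
    (h3 : b ((a + a' : ℕ) : ZMod M) ≤ M + a') : False := by
  have hM : 0 < M := by omega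
  refine leaf hM b C (admA R) (admA R) (admG (gS' M a a') (ES M a a')) ∅
    (fun n => (sol_cnt h n).le)
    (fun S hS => by rw [sdiff_empty]; exact hS)
    (fun n => by rw [cnt_admA_two a a' (by omega) haM hR n, schurS' a a' ha haa haM]) ?_ γ ?_
  · intro S hS
    refine ⟨fun e he => (hS.1 e he).1, fun x hx y hy hyx => ?_⟩
    have h4 := hS.2 x hx y hy hyx
    rcases (hS.1 x hx).2 with ⟨m, rfl⟩ | ⟨m, rfl⟩ | ⟨m, rfl⟩
    · rw [gS'_1 a a' ha haa haM] at h4
      rw [cast_AP]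
      omega
    · rw [gS'_2 a a' ha haa haM] at h4
      rw [cast_AP]
      omega
    · rw [gS'_3 a a' ha haa haM] at h4
      rw [cast_AP]
      omega
  · intro S hS e he heq
    rcases (hS.1 e he).2 with ⟨m, rfl⟩ | ⟨m, rfl⟩ | ⟨m, rfl⟩
    · rw [cast_AP] at heq
      exact hγ1 heq.symm
    · rw [cast_AP] at heq
      exact hγ2 heq.symm
    · rw [cast_AP] at heq
      exact hγ3 heq.symm

end two

/-! ### Forms with decidable side conditions -/

theorem lowL (hM : 0 < M) {R : Finset (ZMod M)} {b : ZMod M → ℕ} {C : Finset ℕ}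
    (h : IsSolution M R b C) {g : List ℕ} (hl : Low M g b) (γ : ZMod M) (hγ : γ ∉ R)
    (hchk : ∀ e : ℕ, e < M → ((e + 1 : ℕ) : ZMod M) ∈ R → gapOf M g (e + 1) < 60000 ∧
      ∀ d : ℕ, d < gapOf M g (e + 1) → 0 < d → (((e + 1 : ℕ) : ZMod M) - (d : ZMod M)) ∉ R) :
    False := by
  refine literal hM h γ hγ ?_
  intro j hj d hd hjd
  obtain ⟨e, he1, he2, he3⟩ := exists_class hM j 1
  obtain ⟨k, rfl⟩ := Nat.exists_eq_succ_of_ne_zero (show e ≠ 0 by omega)
  have h1 := hchk k (by omega) (by rw [← Nat.succ_eq_add_one, he3]; exact hj)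
  rw [← Nat.succ_eq_add_one, he3] at h1
  have h2 := hl.le k.succ (gapOf M g k.succ) (by omega) le_rfl h1.1
  rw [he3] at h2
  by_contra hlt
  exact h1.2 d (by omega) hd hjd

theorem lowI {R : Finset (ZMod M)} {b : ZMod M → ℕ} {C : Finset ℕ}
    (h : IsSolution M R b C) {g : List ℕ} (hl : Low M g b) (a : ℕ)
    (γ : ZMod M) (hside : 0 < a ∧ a < M ∧ 3 * M + a < 60000 ∧ gapOf M g a ≤ 3 * M ∧
      gapOf M g (2 * a) ≤ 3 * M + a ∧ γ ≠ (a : ZMod M) ∧ γ ≠ ((2 * a : ℕ) : ZMod M))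
    (hR : ∀ j, j ∈ R ↔ j = (a : ZMod M)) : False := by
  obtain ⟨h1, h2, h3, h4, h5, h6, h7⟩ := hside
  exact leafI h a h1 h2 hR γ h6 h7 (hl.le a _ h1 h4 (by omega))
    (hl.le (2 * a) _ (by omega) h5 (by omega))

theorem lowI' {R : Finset (ZMod M)} {b : ZMod M → ℕ} {C : Finset ℕ}
    (h : IsSolution M R b C) {g : List ℕ} (hl : Low M g b) (a : ℕ)
    (γ : ZMod M) (hside : 0 < a ∧ a < M ∧ 4 * M < 60000 ∧ gapOf M g a ≤ 3 * M - a ∧
      gapOf M g (2 * a) ≤ 4 * M ∧ γ ≠ (a : ZMod M) ∧ γ ≠ ((2 * a : ℕ) : ZMod M))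
    (hR : ∀ j, j ∈ R ↔ j = (a : ZMod M)) : False := by
  obtain ⟨h1, h2, h3, h4, h5, h6, h7⟩ := hside
  exact leafI' h a h1 h2 hR γ h6 h7 (hl.le a _ h1 h4 (by omega))
    (hl.le (2 * a) _ (by omega) h5 (by omega))

theorem lowII {R : Finset (ZMod M)} {b : ZMod M → ℕ} {C : Finset ℕ}
    (h : IsSolution M R b C) {g : List ℕ} (hl : Low M g b) (a a' : ℕ)
    (γ : ZMod M) (hside : 0 < a ∧ a < a' ∧ a' < M ∧ 2 * M < 60000 ∧ gapOf M g a ≤ M ∧
      gapOf M g a' ≤ M ∧ gapOf M g (a + a') ≤ M + a ∧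
      γ ≠ (a : ZMod M) ∧ γ ≠ (a' : ZMod M) ∧ γ ≠ ((a + a' : ℕ) : ZMod M))
    (hR : ∀ j, j ∈ R ↔ j = (a : ZMod M) ∨ j = (a' : ZMod M)) : False := by
  obtain ⟨h1, h2, h3, h4, h5, h6, h7, h8, h9, h10⟩ := hside
  exact leafII h a a' h1 h2 h3 hR γ h8 h9 h10 (hl.le a _ h1 h5 (by omega))
    (hl.le a' _ (by omega) h6 (by omega)) (hl.le (a + a') _ (by omega) h7 (by omega))

theorem lowII' {R : Finset (ZMod M)} {b : ZMod M → ℕ} {C : Finset ℕ}
    (h : IsSolution M R b C) {g : List ℕ} (hl : Low M g b) (a a' : ℕ)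
    (γ : ZMod M) (hside : 0 < a ∧ a < a' ∧ a' < M ∧ 2 * M < 60000 ∧ gapOf M g a ≤ M ∧
      gapOf M g a' ≤ M - a ∧ gapOf M g (a + a') ≤ M + a' ∧
      γ ≠ (a : ZMod M) ∧ γ ≠ (a' : ZMod M) ∧ γ ≠ ((a + a' : ℕ) : ZMod M))
    (hR : ∀ j, j ∈ R ↔ j = (a : ZMod M) ∨ j = (a' : ZMod M)) : False := by
  obtain ⟨h1, h2, h3, h4, h5, h6, h7, h8, h9, h10⟩ := hside
  exact leafII' h a a' h1 h2 h3 hR γ h8 h9 h10 (hl.le a _ h1 h5 (by omega))
    (hl.le a' _ (by omega) h6 (by omega)) (hl.le (a + a') _ (by omega) h7 (by omega))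

/-- a solution below a known solution -/
theorem lowSol (hM : 0 < M) {R : Finset (ZMod M)} {b b' : ZMod M → ℕ} {C C' : Finset ℕ}
    (h : IsSolution M R b C) (h' : IsSolution M R b' C') {g : List ℕ} (hl : Low M g b)
    (hg : ∀ e : ℕ, e < M → gapOf M g (e + 1) = b' ((e + 1 : ℕ) : ZMod M) ∧
      gapOf M g (e + 1) < 60000) : b = b' ∧ C = C' := by
  have h1 : b = b' := by
    apply solution_le_eq hM h h'
    intro j
    obtain ⟨e, he1, he2, he3⟩ := exists_class hM j 1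
    obtain ⟨k, rfl⟩ := Nat.exists_eq_succ_of_ne_zero (show e ≠ 0 by omega)
    have h1 := hg k (by omega)
    rw [← Nat.succ_eq_add_one, he3] at h1
    have h2 := hl.le k.succ (gapOf M g k.succ) (by omega) le_rfl h1.2
    rw [he3, h1.1] at h2
    exact h2
  subst h1
  exact ⟨rfl, solution_C_eq h h'⟩

/-- from the computation to solutions -/
theorem concl_of (hM : 0 < M) {R : Finset (ZMod M)} {b : ZMod M → ℕ} {C : Finset ℕ}
    (h : IsSolution M R b C) {As : List ℕ} {prs : List (List ℕ)} (f : ℕ → Bool) (N : ℕ)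
    (hf : ∀ r : ℕ, r < M → (f r = true ↔ (r : ZMod M) ∈ R))
    (hA : eqL (tab (fun e => f (e % M)) N N) As = true)
    (hc : ∀ gb EC, Good M As gb EC → Concl M prs gb) :
    ∃ g ∈ prs, Low M g b := by
  have hgood : Good M As (fun e => b (e : ZMod M)) (fun e => e ∉ C) := by
    refine ⟨fun e => h.1 _, fun e he => ?_, fun i hi => ?_⟩
    · show b (e : ZMod M) = b (((e - 1) % M + 1 : ℕ) : ZMod M)
      congr 1
      rw [Nat.cast_add, ZMod.natCast_mod, ← Nat.cast_add]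
      congr 1
      omega
    · rw [(tab_spec _ _ _ hA).2 i hi]
      have h1 : cnt (admG (fun e => b (e : ZMod M)) (fun e => e ∉ C)) i = cnt (adm b C) i :=
        cnt_congr (fun S => Iff.rfl) i
      rw [h1, sol_cnt h]
      apply cnt_congr
      intro S
      have key : ∀ e : ℕ, (f (e % M) = true ↔ (e : ZMod M) ∈ R) := by
        intro e
        rw [hf (e % M) (Nat.mod_lt _ hM), ZMod.natCast_mod]
      constructor
      · intro hS e he
        exact ⟨(hS.1 e he).1, (key e).1 (hS.1 e he).2⟩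
      · intro hS
        exact ⟨fun e he => ⟨(hS e he).1, (key e).2 (hS e he).2⟩, fun _ _ _ _ h => h⟩
  exact hc _ _ hgood

end Pool.Agent.H38.DP
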