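import Pool.Agent.H38.DP.Prod

/-! Schur's identity with two residue classes and a general modulus, in two forms. -/

open Finset Polynomial

namespace Pool.Agent.H38.DP

section
variable {R : Type*} [CommRing R] (x u v : R)

lemma gb_absorb (n k : ℕ) : (1 - x ^ (k + 1)) * gb x (n + 1) (k + 1) =
    (1 - x ^ (n + 1)) * gb x n k := by
  rcases Nat.lt_or_ge n k with h | h
  · rw [gb_eq_zero x (n + 1) (k + 1) (by omega), gb_eq_zero x n k h]
    ring
  · have h1 := gb_succ x n k
    have h2 := gb_succ' x n k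
    have h3 : x ^ (k + 1) * x ^ (n - k) = x ^ (n + 1) := by
      rw [← pow_add]
      congr 1
      omega
    linear_combination h1 - x ^ (k + 1) * h2 - gb x n k * h3

/-- the product -/
def PI (k : ℕ) : R := ∏ i ∈ range k, (1 + v * x ^ i)

/-- finite form of the double product -/
def FF (n : ℕ) : R := ∑ i ∈ range (n + 1), gb x n i * x ^ (i * (i - 1) / 2) * u ^ i * PI x v (n - i)

def GG (n : ℕ) : R := ∑ i ∈ range (n + 1), gb x n i * x ^ (i * (i - 1) / 2) * u ^ i *
  (x ^ (n - i) * PI x v (n - i))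

lemma PI_succ (k : ℕ) : PI x v (k + 1) = PI x v k * (1 + v * x ^ k) := by
  unfold PI
  rw [prod_range_succ]

lemma FF_succ (n : ℕ) : FF x u v (n + 1) = (1 + u * x ^ n) * FF x u v n + v * GG x u v n := by
  unfold FF GG
  have e0 : ∑ i ∈ range (n + 1 + 1), gb x (n + 1) i * x ^ (i * (i - 1) / 2) * u ^ i *
      PI x v (n + 1 - i) = ∑ i ∈ range (n + 1), gb x n i * x ^ (i * (i - 1) / 2) * u ^ i *
      PI x v (n + 1 - i) + ∑ i ∈ range (n + 1), x ^ (n - i) * gb x n i *
      x ^ ((i + 1) * (i + 1 - 1) / 2) * u ^ (i + 1) * PI x v (n - i) := by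
    rw [sum_range_succ', sum_range_succ' (fun i => gb x n i * x ^ (i * (i - 1) / 2) * u ^ i *
      PI x v (n + 1 - i))]
    have hz : gb x n (n + 1) = 0 := gb_eq_zero x n (n + 1) (by omega)
    have e1 : ∑ i ∈ range (n + 1), gb x (n + 1) (i + 1) * x ^ ((i + 1) * (i + 1 - 1) / 2) *
        u ^ (i + 1) * PI x v (n + 1 - (i + 1)) =
        ∑ i ∈ range (n + 1), gb x n (i + 1) * x ^ ((i + 1) * (i + 1 - 1) / 2) *
        u ^ (i + 1) * PI x v (n + 1 - (i + 1)) +
        ∑ i ∈ range (n + 1), x ^ (n - i) * gb x n i *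
        x ^ ((i + 1) * (i + 1 - 1) / 2) * u ^ (i + 1) * PI x v (n - i) := by
      rw [← sum_add_distrib]
      apply sum_congr rfl
      intro i _
      rw [gb_succ', show n + 1 - (i + 1) = n - i by omega]
      ring
    rw [e1, sum_range_succ (fun i => gb x n (i + 1) * x ^ ((i + 1) * (i + 1 - 1) / 2) *
        u ^ (i + 1) * PI x v (n + 1 - (i + 1))) n, hz]
    simp only [gb_zero]
    ring
  rw [e0, mul_sum, mul_sum, ← sum_add_distrib, ← sum_add_distrib]
  apply sum_congr rfl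
  intro i hi
  have hi' : i ≤ n := by have := mem_range.1 hi; omega
  have h1 : n + 1 - i = (n - i) + 1 := by omega
  rw [h1, PI_succ, tri_succ]
  have h2 : x ^ (n - i) * x ^ i = x ^ n := by
    rw [← pow_add]
    congr 1
    omega
  rw [← h2]
  ring

lemma GG_eq (n : ℕ) : GG x u v (n + 1) = x ^ (n + 1) * FF x u v (n + 1) +
    u * x ^ n * (1 - x ^ (n + 1)) * FF x u v n := by
  unfold FF GG
  rw [mul_sum, ← sub_eq_iff_eq_add', ← sum_sub_distrib, sum_range_succ']
  have h0 : gb x (n + 1) 0 * x ^ (0 * (0 - 1) / 2) * u ^ 0 *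
      (x ^ (n + 1 - 0) * PI x v (n + 1 - 0)) -
      x ^ (n + 1) * (gb x (n + 1) 0 * x ^ (0 * (0 - 1) / 2) * u ^ 0 * PI x v (n + 1 - 0)) = 0 := by
    rw [Nat.sub_zero]
    ring
  rw [h0, add_zero, mul_sum]
  apply sum_congr rfl
  intro i hi
  have hi' : i ≤ n := by have := mem_range.1 hi; omega
  have h1 : n + 1 - (i + 1) = n - i := by omega
  rw [h1, tri_succ]
  have h2 := gb_absorb x n i
  have h3 : x ^ (n + 1) = x ^ (n - i) * x ^ (i + 1) := by
    rw [← pow_add]
    congr 1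
    omega
  have h4 : x ^ (n - i) * x ^ i = x ^ n := by
    rw [← pow_add]
    congr 1
    omega
  calc gb x (n + 1) (i + 1) * x ^ (i * (i - 1) / 2 + i) * u ^ (i + 1) *
        (x ^ (n - i) * PI x v (n - i)) -
        x ^ (n + 1) * (gb x (n + 1) (i + 1) * x ^ (i * (i - 1) / 2 + i) * u ^ (i + 1) *
          PI x v (n - i))
      = ((1 - x ^ (i + 1)) * gb x (n + 1) (i + 1)) * (x ^ (n - i) * x ^ i) *
        x ^ (i * (i - 1) / 2) * u ^ (i + 1) * PI x v (n - i) := by
          rw [h3, pow_add x (i * (i - 1) / 2) i]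
          ring
    _ = _ := by
          rw [h2, h4]
          ring

lemma FF_rec (n : ℕ) : FF x u v (n + 2) = (1 + (u + v) * x ^ (n + 1)) * FF x u v (n + 1) +
    u * v * x ^ n * (1 - x ^ (n + 1)) * FF x u v n := by
  rw [FF_succ, GG_eq]
  ring

lemma FF_zero : FF x u v 0 = 1 := by
  simp [FF, PI]

lemma FF_one : FF x u v 1 = 1 + u + v := by
  rw [FF_succ, FF_zero]
  simp [GG, PI]
  
end

lemma FF_dvd (M a b n : ℕ) (hM : 0 < M) (ha : 0 < a) (N : ℕ) (hN : 2 * n + 1 ≤ N) :
    (X : ℤ[X]) ^ (n + 1) ∣ FF (X ^ M : ℤ[X]) (X ^ a) (X ^ b) N -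
      (∏ i ∈ range N, (1 + (X ^ a : ℤ[X]) * (X ^ M) ^ i)) *
      ∏ i ∈ range N, (1 + (X ^ b : ℤ[X]) * (X ^ M) ^ i) := by
  rw [qbinom, FF, sum_mul, ← sum_sub_distrib]
  apply dvd_sum
  intro k hk
  have hk' : k ≤ N := by have := mem_range.1 hk; omega
  unfold PI
  rcases Nat.lt_or_ge n k with h | h
  · have h1 : (X : ℤ[X]) ^ (n + 1) ∣ (X ^ a) ^ k := by
      rw [← pow_mul]
      apply pow_dvd_pow
      nlinarith
    refine dvd_sub ?_ ?_
    · exact (h1.mul_left _).mul_right _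
    · exact ((h1.mul_right _).mul_right _).mul_right _
  · have h2 := prod_sub_dvd (X ^ M : ℤ[X]) (X ^ b) (N - k) k
    have e1 : N - k + k = N := by omega
    rw [e1] at h2
    have h3 : (X : ℤ[X]) ^ (n + 1) ∣ (X ^ M) ^ (N - k) := by
      rw [← pow_mul]
      apply pow_dvd_pow
      have : n + 1 ≤ N - k := by omega
      nlinarith
    have h4 := (h3.trans h2).mul_left
      (-((X ^ a : ℤ[X]) ^ k * (X ^ M) ^ (k * (k - 1) / 2) * gb (X ^ M) N k))
    convert h4 using 1
    ring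

/-- the allowed parts of the gap side -/
def ES (M a b e : ℕ) : Prop :=
  (∃ m, e = a + M * m) ∨ (∃ m, e = b + M * m) ∨ ∃ m, e = a + b + M * m

/-- the distinct-part side -/
def EAB (M a b e : ℕ) : Prop := (∃ m, e = a + M * m) ∨ ∃ m, e = b + M * m

/-- shifted sequence of polynomials -/
noncomputable def sq (g : ℕ → ℕ) (E : ℕ → Prop) (c M : ℕ) : ℕ → ℤ[X]
  | 0 => 1
  | m + 1 => V g E (c + M * m)

section
variable (M a b : ℕ) (ha : 0 < a) (hab : a < b) (hbM : b < M)
include ha hab hbM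

lemma ES_between1 (m e : ℕ) (h1 : a + M * m < e) (h2 : e < b + M * m) : ¬ ES M a b e := by
  have key : ∀ k, k < m → M * k + M ≤ M * m := fun k hk => by
    have : M * (k + 1) ≤ M * m := Nat.mul_le_mul_left _ hk
    rw [mul_add, mul_one] at this
    exact this
  have key2 : ∀ k, m < k → M * m + M ≤ M * k := fun k hk => by
    have : M * (m + 1) ≤ M * k := Nat.mul_le_mul_left _ hk
    rw [mul_add, mul_one] at this
    exact this
  rintro (⟨k, rfl⟩ | ⟨k, rfl⟩ | ⟨k, rfl⟩) <;>
  · rcases Nat.lt_trichotomy k m with h | h | h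
    · have := key k h
      omega
    · subst h
      omega
    · have := key2 k h
      omega

lemma ES_between2 (m e : ℕ) (h1 : b + M * m < e) (h2 : e < a + b + M * m) : ¬ ES M a b e := by
  have key : ∀ k, k < m → M * k + M ≤ M * m := fun k hk => by
    have : M * (k + 1) ≤ M * m := Nat.mul_le_mul_left _ hk
    rw [mul_add, mul_one] at this
    exact this
  have key2 : ∀ k, m < k → M * m + M ≤ M * k := fun k hk => by
    have : M * (m + 1) ≤ M * k := Nat.mul_le_mul_left _ hk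
    rw [mul_add, mul_one] at this
    exact this
  rintro (⟨k, rfl⟩ | ⟨k, rfl⟩ | ⟨k, rfl⟩) <;>
  · rcases Nat.lt_trichotomy k m with h | h | h
    · have := key k h
      omega
    · subst h
      omega
    · have := key2 k h
      omega

lemma ES_between3 (m e : ℕ) (h1 : a + b + M * m < e) (h2 : e < a + M * (m + 1)) :
    ¬ ES M a b e := by
  rw [mul_add, mul_one] at h2
  have key : ∀ k, k < m → M * k + M ≤ M * m := fun k hk => by
    have : M * (k + 1) ≤ M * m := Nat.mul_le_mul_left _ hk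
    rw [mul_add, mul_one] at this
    exact this
  have key2 : ∀ k, m < k → M * m + M ≤ M * k := fun k hk => by
    have : M * (m + 1) ≤ M * k := Nat.mul_le_mul_left _ hk
    rw [mul_add, mul_one] at this
    exact this
  rintro (⟨k, rfl⟩ | ⟨k, rfl⟩ | ⟨k, rfl⟩) <;>
  · rcases Nat.lt_trichotomy k m with h | h | h
    · have := key k h
      omega
    · subst h
      omega
    · have := key2 k h
      omega

lemma ES_small (e : ℕ) (h1 : e < a) : ¬ ES M a b e := by
  rintro (⟨k, rfl⟩ | ⟨k, rfl⟩ | ⟨k, rfl⟩) <;> omega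

variable (g : ℕ → ℕ) (hg : ∀ e, 0 < g e)
include hg

lemma ES_V_small (e : ℕ) (h1 : e < a) : V g (ES M a b) e = 1 := by
  rw [V_const g (ES M a b) hg 0 e (Nat.zero_le _)
    (fun e' _ h2 => ES_small M a b ha hab hbM e' (by omega)), V_zero]

lemma ES_step1 (m : ℕ) : sq g (ES M a b) a M (m + 1) = sq g (ES M a b) (a + b) M m +
    X ^ (a + M * m) * V g (ES M a b) (a + M * m - g (a + M * m)) := by
  rcases m with _ | m
  · unfold sq
    have h1 := V_step g (ES M a b) hg 0 (a + M * 0) (by omega) (Or.inl ⟨0, rfl⟩)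
      (fun e h1 h2 => ES_small M a b ha hab hbM e (by simpa using h2))
    rw [V_zero] at h1
    exact h1
  · exact V_step g (ES M a b) hg (a + b + M * m) (a + M * (m + 1))
      (by rw [mul_add, mul_one]; omega) (Or.inl ⟨m + 1, rfl⟩)
      (fun e h1 h2 => ES_between3 M a b ha hab hbM m e h1 h2)

lemma ES_step2 (m : ℕ) : sq g (ES M a b) b M (m + 1) = sq g (ES M a b) a M (m + 1) +
    X ^ (b + M * m) * V g (ES M a b) (b + M * m - g (b + M * m)) :=
  V_step g (ES M a b) hg (a + M * m) (b + M * m) (by omega) (Or.inr (Or.inl ⟨m, rfl⟩))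
      (fun e h1 h2 => ES_between1 M a b ha hab hbM m e h1 h2)

lemma ES_step3 (m : ℕ) : sq g (ES M a b) (a + b) M (m + 1) = sq g (ES M a b) b M (m + 1) +
    X ^ (a + b + M * m) * V g (ES M a b) (a + b + M * m - g (a + b + M * m)) :=
  V_step g (ES M a b) hg (b + M * m) (a + b + M * m) (by omega) (Or.inr (Or.inr ⟨m, rfl⟩))
      (fun e h1 h2 => ES_between2 M a b ha hab hbM m e h1 h2)

omit hab hbM hg in
lemma sq_prev (c : ℕ) (hc : c < M + a) (hsm : ∀ e, e < a → V g (ES M a b) e = 1) (m : ℕ) :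
    V g (ES M a b) (c + M * m - M) = sq g (ES M a b) c M m := by
  rcases m with _ | m
  · rw [hsm _ (by rw [mul_zero]; omega)]
    rfl
  · unfold sq
    congr 1
    rw [mul_add, mul_one]
    omega

lemma schur_orig (hg1 : ∀ m, g (a + M * m) = M) (hg2 : ∀ m, g (b + M * m) = M)
    (hg3 : ∀ m, g (a + b + M * m) = M + a) (m : ℕ) :
    (sq g (ES M a b) b M m = FF (X ^ M : ℤ[X]) (X ^ a) (X ^ b) m ∧
    sq g (ES M a b) b M (m + 1) = FF (X ^ M : ℤ[X]) (X ^ a) (X ^ b) (m + 1)) ∧
    (sq g (ES M a b) (a + b) M m + X ^ a * sq g (ES M a b) a M m =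
      (1 + X ^ a) * sq g (ES M a b) b M m) ∧
    sq g (ES M a b) a M (m + 1) = sq g (ES M a b) (a + b) M m +
      X ^ (a + M * m) * sq g (ES M a b) a M m ∧
    sq g (ES M a b) b M (m + 1) = sq g (ES M a b) a M (m + 1) +
      X ^ (b + M * m) * sq g (ES M a b) b M m ∧
    sq g (ES M a b) (a + b) M (m + 1) = sq g (ES M a b) b M (m + 1) +
      X ^ (a + b + M * m) * sq g (ES M a b) b M m := by
  have hsm := ES_V_small M a b ha hab hbM g hg
  have h1 : ∀ m, sq g (ES M a b) a M (m + 1) = sq g (ES M a b) (a + b) M m +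
      X ^ (a + M * m) * sq g (ES M a b) a M m := by
    intro m
    rw [ES_step1 M a b ha hab hbM g hg, hg1, sq_prev M a b ha g a (by omega) hsm]
  have h2 : ∀ m, sq g (ES M a b) b M (m + 1) = sq g (ES M a b) a M (m + 1) +
      X ^ (b + M * m) * sq g (ES M a b) b M m := by
    intro m
    rw [ES_step2 M a b ha hab hbM g hg, hg2, sq_prev M a b ha g b (by omega) hsm]
  have h3 : ∀ m, sq g (ES M a b) (a + b) M (m + 1) = sq g (ES M a b) b M (m + 1) +
      X ^ (a + b + M * m) * sq g (ES M a b) b M m := by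
    intro m
    rw [ES_step3 M a b ha hab hbM g hg, hg3]
    have : a + b + M * m - (M + a) = b + M * m - M := by omega
    rw [this, sq_prev M a b ha g b (by omega) hsm]
  have p1 : ∀ c i, (X : ℤ[X]) ^ (c + M * i) = X ^ c * (X ^ M) ^ i := by
    intro c i
    rw [← pow_mul, ← pow_add]
  refine ⟨?_, ?_, h1 m, h2 m, h3 m⟩
  · induction m with
    | zero =>
      refine ⟨by rw [FF_zero]; rfl, ?_⟩
      rw [h2, h1, FF_one]
      simp [sq]
    | succ m ih =>
      refine ⟨ih.2, ?_⟩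
      rw [FF_rec, ← ih.1, ← ih.2, h2 (m + 1), h1 (m + 1), h3 m]
      have h2' := h2 m
      rw [p1] at h2'
      rw [p1 a (m + 1), p1 b (m + 1), p1 (a + b) m, pow_add X a b]
      linear_combination (-(X ^ a * (X ^ M) ^ (m + 1))) * h2'
  · rcases m with _ | m
    · unfold sq
      ring
    · have h2' := h2 m
      have h3' := h3 m
      rw [p1] at h2' h3'
      rw [pow_add X a b] at h3'
      linear_combination h3' - X ^ a * h2'

lemma schur_swap (g' : ℕ → ℕ) (hg' : ∀ e, 0 < g' e)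
    (hg1 : ∀ m, g (a + M * m) = M) (hg2 : ∀ m, g (b + M * m) = M)
    (hg3 : ∀ m, g (a + b + M * m) = M + a)
    (hg1' : ∀ m, g' (a + M * m) = M) (hg2' : ∀ m, g' (b + M * m) = M - a)
    (hg3' : ∀ m, g' (a + b + M * m) = M + b) (m : ℕ) :
    sq g' (ES M a b) a M m = sq g (ES M a b) a M m ∧
    sq g' (ES M a b) (a + b) M m = sq g (ES M a b) (a + b) M m := by
  have hsm := ES_V_small M a b ha hab hbM g' hg'
  have ho := schur_orig M a b ha hab hbM g hg hg1 hg2 hg3
  have h1 : ∀ m, sq g' (ES M a b) a M (m + 1) = sq g' (ES M a b) (a + b) M m +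
      X ^ (a + M * m) * sq g' (ES M a b) a M m := by
    intro m
    rw [ES_step1 M a b ha hab hbM g' hg', hg1', sq_prev M a b ha g' a (by omega) hsm]
  have h2 : ∀ m, sq g' (ES M a b) b M (m + 1) = sq g' (ES M a b) a M (m + 1) +
      X ^ (b + M * m) * sq g' (ES M a b) (a + b) M m := by
    intro m
    rw [ES_step2 M a b ha hab hbM g' hg', hg2']
    have : b + M * m - (M - a) = a + b + M * m - M := by omega
    rw [this, sq_prev M a b ha g' (a + b) (by omega) hsm]
  have h3 : ∀ m, sq g' (ES M a b) (a + b) M (m + 1) = sq g' (ES M a b) b M (m + 1) +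
      X ^ (a + b + M * m) * sq g' (ES M a b) a M m := by
    intro m
    rw [ES_step3 M a b ha hab hbM g' hg', hg3']
    have : a + b + M * m - (M + b) = a + M * m - M := by omega
    rw [this, sq_prev M a b ha g' a (by omega) hsm]
  have p1 : ∀ c i, (X : ℤ[X]) ^ (c + M * i) = X ^ c * (X ^ M) ^ i := by
    intro c i
    rw [← pow_mul, ← pow_add]
  induction m with
  | zero => exact ⟨rfl, rfl⟩
  | succ m ih =>
    obtain ⟨_, hr, k1, k2, k3⟩ := ho m
    constructor
    · rw [h1, k1, ih.1, ih.2]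
    · rw [h3, h2, h1, ih.1, ih.2, k3, k2, k1]
      rw [p1 a, p1 b, p1 (a + b), pow_add X a b]
      linear_combination (X ^ b * (X ^ M) ^ m) * hr

end

section
variable (M a b : ℕ) (ha : 0 < a) (hab : a < b) (hbM : b < M)
  (g : ℕ → ℕ) (hg : ∀ e, 0 < g e)
  (hg1 : ∀ m, g (a + M * m) = M) (hg2 : ∀ m, g (b + M * m) = M)
  (hg3 : ∀ m, g (a + b + M * m) = M + a)
include ha hab hbM hg hg1 hg2 hg3

/-- Schur's identity -/
theorem identII (n : ℕ) :
    cnt (admG g (ES M a b)) n = cnt (admG (fun _ => 1) (EAB M a b)) n := by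
  classical
  have hM : 0 < M := by omega
  have h1 := V_coeff g (ES M a b) (b + M * (2 * n)) n (by nlinarith)
  have h2 := (schur_orig M a b ha hab hbM g hg hg1 hg2 hg3 (2 * n)).1.2
  have h3 : V g (ES M a b) (b + M * (2 * n)) = sq g (ES M a b) b M (2 * n + 1) := rfl
  rw [h3, h2, coeff_of_dvd (FF_dvd M a b n hM ha (2 * n + 1) le_rfl),
    ← prod_image_AP a M _ hM, ← prod_image_AP b M _ hM, ← prod_union] at h1
  · rw [cnt_prod (EAB M a b)] at h1
    · exact_mod_cast h1.symm
    · intro e he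
      rw [mem_union, mem_AP, mem_AP]
      constructor
      · rintro (⟨i, _, rfl⟩ | ⟨i, _, rfl⟩)
        · exact ⟨by omega, Or.inl ⟨i, rfl⟩⟩
        · exact ⟨by omega, Or.inr ⟨i, rfl⟩⟩
      · rintro ⟨_, ⟨i, rfl⟩ | ⟨i, rfl⟩⟩
        · exact Or.inl ⟨i, by nlinarith, rfl⟩
        · exact Or.inr ⟨i, by nlinarith, rfl⟩
  · rw [disjoint_left]
    intro e h1 h2
    rw [mem_AP] at h1 h2
    obtain ⟨i, _, rfl⟩ := h1
    obtain ⟨j, _, h⟩ := h2
    rcases Nat.lt_trichotomy i j with h' | h' | h'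
    · have : M * (i + 1) ≤ M * j := Nat.mul_le_mul_left _ h'
      rw [mul_add, mul_one] at this
      omega
    · subst h'
      omega
    · have : M * (j + 1) ≤ M * i := Nat.mul_le_mul_left _ h'
      rw [mul_add, mul_one] at this
      omega

/-- Schur's identity, swapped form -/
theorem identII' (g' : ℕ → ℕ) (hg' : ∀ e, 0 < g' e)
    (hg1' : ∀ m, g' (a + M * m) = M) (hg2' : ∀ m, g' (b + M * m) = M - a)
    (hg3' : ∀ m, g' (a + b + M * m) = M + b) (n : ℕ) :
    cnt (admG g' (ES M a b)) n = cnt (admG (fun _ => 1) (EAB M a b)) n := by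
  have hM : 0 < M := by omega
  rw [← identII M a b ha hab hbM g hg hg1 hg2 hg3]
  have h1 := V_coeff g (ES M a b) (a + b + M * n) n (by nlinarith)
  have h2 := V_coeff g' (ES M a b) (a + b + M * n) n (by nlinarith)
  have h3 := (schur_swap M a b ha hab hbM g hg g' hg' hg1 hg2 hg3 hg1' hg2' hg3' (n + 1)).2
  have h4 : V g' (ES M a b) (a + b + M * n) = V g (ES M a b) (a + b + M * n) := h3
  rw [h4, h1] at h2
  exact_mod_cast h2.symm

end

end Pool.Agent.H38.DP
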