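import Pool.Agent.H38.DP.Rules

/-! The solutions with modulus at most 4. -/

open Finset

namespace Pool.Agent.H38.DP

variable {M : ℕ}

lemma mkSol {R : Finset (ZMod M)} {b : ZMod M → ℕ} {C : Finset ℕ} (hb : ∀ j, 0 < b j)
    (hC : ∀ c ∈ C, 0 < c) (g : ℕ → ℕ) (E EA : ℕ → Prop)
    (hE : ∀ e, 0 < e → (e ∉ C ↔ E e)) (hg : ∀ e : ℕ, 0 < e → b (e : ZMod M) = g e)
    (hA : ∀ e : ℕ, 0 < e → ((e : ZMod M) ∈ R ↔ EA e))
    (h : ∀ n, cnt (admG g E) n = cnt (admG (fun _ => 1) EA) n) : IsSolution M R b C := by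
  refine ⟨hb, hC, fun n hn => ?_⟩
  rw [countA_eq, countB_eq b hb]
  have h1 : cnt (admA R) n = cnt (admG (fun _ => 1) EA) n := by
    apply cnt_congr
    intro S
    constructor
    · intro hS
      exact ⟨fun e he => ⟨(hS e he).1, (hA e (hS e he).1).1 (hS e he).2⟩, fun _ _ _ _ h => h⟩
    · intro hS e he
      exact ⟨(hS.1 e he).1, (hA e (hS.1 e he).1).2 (hS.1 e he).2⟩
  have h2 : cnt (adm b C) n = cnt (admG g E) n := by
    apply cnt_congr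
    intro S
    constructor
    · intro hS
      refine ⟨fun e he => ⟨(hS.1 e he).1, (hE e (hS.1 e he).1).1 (hS.1 e he).2⟩,
        fun x hx y hy hyx => ?_⟩
      rw [← hg x (hS.1 x hx).1]
      exact hS.2 x hx y hy hyx
    · intro hS
      refine ⟨fun e he => ⟨(hS.1 e he).1, (hE e (hS.1 e he).1).2 (hS.1 e he).2⟩,
        fun x hx y hy hyx => ?_⟩
      rw [hg x (hS.1 x hx).1]
      exact hS.2 x hx y hy hyx
  rw [h1, h2, h]

lemma cast2 (e : ℕ) : (e % 2 = 0 ∧ (e : ZMod 2) = 0) ∨ (e % 2 = 1 ∧ (e : ZMod 2) = 1) := by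
  have h : (e : ZMod 2) = ((e % 2 : ℕ) : ZMod 2) := (ZMod.natCast_mod e 2).symm
  have h1 : e % 2 = 0 ∨ e % 2 = 1 := by omega
  rcases h1 with h1 | h1
  · left; rw [h, h1]; exact ⟨rfl, by simp⟩
  · right; rw [h, h1]; exact ⟨rfl, by simp⟩

lemma cast3 (e : ℕ) : (e % 3 = 0 ∧ (e : ZMod 3) = 0) ∨ (e % 3 = 1 ∧ (e : ZMod 3) = 1) ∨
    (e % 3 = 2 ∧ (e : ZMod 3) = 2) := by
  have h : (e : ZMod 3) = ((e % 3 : ℕ) : ZMod 3) := (ZMod.natCast_mod e 3).symm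
  have h1 : e % 3 = 0 ∨ e % 3 = 1 ∨ e % 3 = 2 := by omega
  rcases h1 with h1 | h1 | h1
  · left; rw [h, h1]; exact ⟨rfl, by simp⟩
  · right; left; rw [h, h1]; exact ⟨rfl, by simp⟩
  · right; right; rw [h, h1]; exact ⟨rfl, by simp⟩

lemma cast4 (e : ℕ) : (e % 4 = 0 ∧ (e : ZMod 4) = 0) ∨ (e % 4 = 1 ∧ (e : ZMod 4) = 1) ∨
    (e % 4 = 2 ∧ (e : ZMod 4) = 2) ∨ (e % 4 = 3 ∧ (e : ZMod 4) = 3) := by
  have h : (e : ZMod 4) = ((e % 4 : ℕ) : ZMod 4) := (ZMod.natCast_mod e 4).symm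
  have h1 : e % 4 = 0 ∨ e % 4 = 1 ∨ e % 4 = 2 ∨ e % 4 = 3 := by omega
  rcases h1 with h1 | h1 | h1 | h1
  · left; rw [h, h1]; exact ⟨rfl, by simp⟩
  · right; left; rw [h, h1]; exact ⟨rfl, by simp⟩
  · right; right; left; rw [h, h1]; exact ⟨rfl, by simp⟩
  · right; right; right; rw [h, h1]; exact ⟨rfl, by simp⟩

lemma EI_two (e : ℕ) (he : 0 < e) : EI 2 1 e ↔ e ≠ 2 := by
  constructor
  · rintro (⟨m, rfl⟩ | ⟨m, rfl⟩) <;> omega
  · intro h
    rcases Nat.even_or_odd e with ⟨i, hi⟩ | ⟨i, hi⟩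
    · exact Or.inr ⟨i - 2, by omega⟩
    · exact Or.inl ⟨i, by omega⟩

lemma EA_two (e : ℕ) : EA 2 1 e ↔ e % 2 = 1 := by
  constructor
  · rintro ⟨m, rfl⟩
    omega
  · intro h
    exact ⟨e / 2, by omega⟩

theorem sol2 (b : ZMod 2 → ℕ) (h1 : b 1 = 6) (h0 : b 0 = 7) : IsSolution 2 {1} b {2} := by
  have hv : ∀ e : ℕ, b (e : ZMod 2) = if e % 2 = 1 then 6 else 7 := by
    intro e
    rcases cast2 e with ⟨h, h'⟩ | ⟨h, h'⟩ <;> rw [h', h] <;> simp [h1, h0]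
  have hpos : ∀ j, 0 < b j := by
    intro j
    have h := hv j.val
    rw [ZMod.natCast_zmod_val] at h
    rw [h]
    split_ifs <;> norm_num
  refine mkSol hpos (by simp) (fun e => if e % 2 = 1 then 6 else 7) (EI 2 1) (EA 2 1)
    (fun e he => by rw [EI_two e he, mem_singleton]) (fun e _ => hv e) (fun e _ => ?_) ?_
  · rw [EA_two, mem_singleton]
    rcases cast2 e with ⟨h, h'⟩ | ⟨h, h'⟩ <;> rw [h', h] <;> decide
  · intro n
    exact identI 2 1 _ (by norm_num) (by norm_num)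
      (fun m => by rw [if_pos (by omega)])
      (fun m => by rw [if_neg (by omega)])
      (fun e => by split_ifs <;> norm_num) n

theorem sol4a (b : ZMod 4 → ℕ) (h1 : b 1 = 6) (h2 : b 2 = 7) (h3 : b 3 = 6) (h0 : b 0 = 7) :
    IsSolution 4 {1, 3} b {2} := by
  have hv : ∀ e : ℕ, b (e : ZMod 4) = if e % 2 = 1 then 6 else 7 := by
    intro e
    rcases cast4 e with ⟨h, h'⟩ | ⟨h, h'⟩ | ⟨h, h'⟩ | ⟨h, h'⟩
    · rw [h', h0, if_neg (by omega)]
    · rw [h', h1, if_pos (by omega)]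
    · rw [h', h2, if_neg (by omega)]
    · rw [h', h3, if_pos (by omega)]
  have hpos : ∀ j, 0 < b j := by
    intro j
    have h := hv j.val
    rw [ZMod.natCast_zmod_val] at h
    rw [h]
    split_ifs <;> norm_num
  refine mkSol hpos (by simp) (fun e => if e % 2 = 1 then 6 else 7) (EI 2 1) (EA 2 1)
    (fun e he => by rw [EI_two e he, mem_singleton]) (fun e _ => hv e) (fun e _ => ?_) ?_
  · rw [EA_two]
    rcases cast4 e with ⟨h, h'⟩ | ⟨h, h'⟩ | ⟨h, h'⟩ | ⟨h, h'⟩ <;> rw [h']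
    · exact ⟨fun h3 => absurd h3 (by decide), fun h3 => by omega⟩
    · exact ⟨fun _ => by omega, fun _ => by decide⟩
    · exact ⟨fun h3 => absurd h3 (by decide), fun h3 => by omega⟩
    · exact ⟨fun _ => by omega, fun _ => by decide⟩
  · intro n
    exact identI 2 1 _ (by norm_num) (by norm_num)
      (fun m => by rw [if_pos (by omega)])
      (fun m => by rw [if_neg (by omega)])
      (fun e => by split_ifs <;> norm_num) n

lemma ES_three (e : ℕ) (he : 0 < e) : ES 3 1 2 e := by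
  have h : e % 3 = 0 ∨ e % 3 = 1 ∨ e % 3 = 2 := by omega
  rcases h with h | h | h
  · exact Or.inr (Or.inr ⟨e / 3 - 1, by omega⟩)
  · exact Or.inl ⟨e / 3, by omega⟩
  · exact Or.inr (Or.inl ⟨e / 3, by omega⟩)

lemma EAB_three (e : ℕ) : EAB 3 1 2 e ↔ e % 3 ≠ 0 := by
  constructor
  · rintro (⟨m, rfl⟩ | ⟨m, rfl⟩) <;> omega
  · intro h
    have h : e % 3 = 1 ∨ e % 3 = 2 := by omega
    rcases h with h | h
    · exact Or.inl ⟨e / 3, by omega⟩
    · exact Or.inr ⟨e / 3, by omega⟩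

theorem sol3a (b : ZMod 3 → ℕ) (h1 : b 1 = 3) (h2 : b 2 = 3) (h0 : b 0 = 4) :
    IsSolution 3 {1, 2} b ∅ := by
  have hv : ∀ e : ℕ, b (e : ZMod 3) = gS 3 1 2 e := by
    intro e
    unfold gS
    rcases cast3 e with ⟨h, h'⟩ | ⟨h, h'⟩ | ⟨h, h'⟩ <;> rw [h', h] <;> simp [h0, h1, h2]
  have hpos : ∀ j, 0 < b j := by
    intro j
    have h := hv j.val
    rw [ZMod.natCast_zmod_val] at h
    rw [h]
    exact gS_pos 1 2 (by norm_num) (by norm_num) (by norm_num) _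
  refine mkSol hpos (by simp) _ (ES 3 1 2) (EAB 3 1 2)
    (fun e he => by simp [ES_three e he]) (fun e _ => hv e) (fun e _ => ?_) ?_
  · rw [EAB_three]
    rcases cast3 e with ⟨h, h'⟩ | ⟨h, h'⟩ | ⟨h, h'⟩ <;> rw [h', h] <;> decide
  · exact schurS 1 2 (by norm_num) (by norm_num) (by norm_num)

theorem sol3b (b : ZMod 3 → ℕ) (h1 : b 1 = 3) (h2 : b 2 = 2) (h0 : b 0 = 5) :
    IsSolution 3 {1, 2} b ∅ := by
  have hv : ∀ e : ℕ, b (e : ZMod 3) = gS' 3 1 2 e := by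
    intro e
    unfold gS'
    rcases cast3 e with ⟨h, h'⟩ | ⟨h, h'⟩ | ⟨h, h'⟩ <;> rw [h', h] <;> simp [h0, h1, h2]
  have hpos : ∀ j, 0 < b j := by
    intro j
    have h := hv j.val
    rw [ZMod.natCast_zmod_val] at h
    rw [h]
    exact gS'_pos 1 2 (by norm_num) (by norm_num) (by norm_num) _
  refine mkSol hpos (by simp) _ (ES 3 1 2) (EAB 3 1 2)
    (fun e he => by simp [ES_three e he]) (fun e _ => hv e) (fun e _ => ?_) ?_
  · rw [EAB_three]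
    rcases cast3 e with ⟨h, h'⟩ | ⟨h, h'⟩ | ⟨h, h'⟩ <;> rw [h', h] <;> decide
  · exact schurS' 1 2 (by norm_num) (by norm_num) (by norm_num)

/-- the values of the gaps (3,2,3,2) and (4,1,4,1) -/
lemma hv4 (b : ZMod 4 → ℕ) (u v : ℕ) (h1 : b 1 = u) (h2 : b 2 = v) (h3 : b 3 = u)
    (h0 : b 0 = v) (e : ℕ) : b (e : ZMod 4) = if e % 2 = 1 then u else v := by
  rcases cast4 e with ⟨h, h'⟩ | ⟨h, h'⟩ | ⟨h, h'⟩ | ⟨h, h'⟩
  · rw [h', h0, if_neg (by omega)]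
  · rw [h', h1, if_pos (by omega)]
  · rw [h', h2, if_neg (by omega)]
  · rw [h', h3, if_pos (by omega)]

lemma hpos4 (b : ZMod 4 → ℕ) (u v : ℕ) (hu : 0 < u) (hv : 0 < v)
    (h : ∀ e : ℕ, b (e : ZMod 4) = if e % 2 = 1 then u else v) (j : ZMod 4) : 0 < b j := by
  have h := h j.val
  rw [ZMod.natCast_zmod_val] at h
  rw [h]
  split_ifs <;> assumption

lemma A012 (e : ℕ) : (e : ZMod 4) ∈ ({0, 1, 2} : Finset (ZMod 4)) ↔ e % 4 ≠ 3 := by
  rcases cast4 e with ⟨h, h'⟩ | ⟨h, h'⟩ | ⟨h, h'⟩ | ⟨h, h'⟩ <;> rw [h', h] <;> decide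

lemma A023 (e : ℕ) : (e : ZMod 4) ∈ ({0, 2, 3} : Finset (ZMod 4)) ↔ e % 4 ≠ 1 := by
  rcases cast4 e with ⟨h, h'⟩ | ⟨h, h'⟩ | ⟨h, h'⟩ | ⟨h, h'⟩ <;> rw [h', h] <;> decide

theorem sol4b (b : ZMod 4 → ℕ) (h1 : b 1 = 3) (h2 : b 2 = 2) (h3 : b 3 = 3) (h0 : b 0 = 2) :
    IsSolution 4 {0, 1, 2} b ∅ := by
  have hv := hv4 b 3 2 h1 h2 h3 h0
  refine mkSol (hpos4 b 3 2 (by norm_num) (by norm_num) hv) (by simp)
    (fun e => if e % 2 = 1 then 3 else 2) (fun _ => True) (fun e => e % 4 ≠ 3)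
    (fun e he => by simp) (fun e _ => hv e) (fun e _ => A012 e) ?_
  exact identL1 _ (fun e => by split_ifs <;> norm_num)
    (fun m => by rw [if_pos (by omega)])
    (fun m => by rw [if_neg (by omega)])

theorem sol4c (b : ZMod 4 → ℕ) (h1 : b 1 = 4) (h2 : b 2 = 1) (h3 : b 3 = 4) (h0 : b 0 = 1) :
    IsSolution 4 {0, 1, 2} b {3} := by
  have hv := hv4 b 4 1 h1 h2 h3 h0
  refine mkSol (hpos4 b 4 1 (by norm_num) (by norm_num) hv) (by simp)
    (fun e => if e % 2 = 1 then 4 else 1) (fun e => e ≠ 3) (fun e => e % 4 ≠ 3)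
    (fun e he => by simp) (fun e _ => hv e) (fun e _ => A012 e) ?_
  exact identL4 _ (fun e => by split_ifs <;> norm_num)
    (fun m => by rw [if_pos (by omega)])
    (fun m => by rw [if_neg (by omega)])

theorem sol4d (b : ZMod 4 → ℕ) (h1 : b 1 = 3) (h2 : b 2 = 2) (h3 : b 3 = 3) (h0 : b 0 = 2) :
    IsSolution 4 {0, 2, 3} b {1} := by
  have hv := hv4 b 3 2 h1 h2 h3 h0
  refine mkSol (hpos4 b 3 2 (by norm_num) (by norm_num) hv) (by simp)
    (fun e => if e % 2 = 1 then 3 else 2) (fun e => e ≠ 1) (fun e => e % 4 ≠ 1)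
    (fun e he => by simp) (fun e _ => hv e) (fun e _ => A023 e) ?_
  exact identL2 _ (fun e => by split_ifs <;> norm_num)
    (fun m => by rw [if_pos (by omega)])
    (fun m => by rw [if_neg (by omega)])

theorem sol4e (b : ZMod 4 → ℕ) (h1 : b 1 = 4) (h2 : b 2 = 1) (h3 : b 3 = 4) (h0 : b 0 = 1) :
    IsSolution 4 {0, 2, 3} b {1} := by
  have hv := hv4 b 4 1 h1 h2 h3 h0
  refine mkSol (hpos4 b 4 1 (by norm_num) (by norm_num) hv) (by simp)
    (fun e => if e % 2 = 1 then 4 else 1) (fun e => e ≠ 1) (fun e => e % 4 ≠ 1)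
    (fun e he => by simp) (fun e _ => hv e) (fun e _ => A023 e) ?_
  exact identL3 _ (fun e => by split_ifs <;> norm_num)
    (fun m => by rw [if_pos (by omega)])
    (fun m => by rw [if_neg (by omega)])

end Pool.Agent.H38.DP
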