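import Pool.Agent.H38.DP.CT
import Pool.Agent.H38.DP.Engine

/-! Correctness of the search. -/

open Finset

namespace Pool.Agent.H38.DP

lemma lit_eq {α : Type} (x : ℕ) (k : ℕ → α) : lit x k = k x := rfl

lemma shl_eq (a b : ℕ) : Nat.shiftLeft a b = a * 2 ^ b := Nat.shiftLeft_eq a b

lemma shr_eq (a b : ℕ) : Nat.shiftRight a b = a / 2 ^ b := Nat.shiftRight_eq_div_pow a b

lemma comp_zero (K S P mask : ℕ) (cls : List ℕ) (kt st W v : ℕ) :
    comp K S P 0 mask cls kt st W v = v := rfl

lemma comp_succ (K S P n mask c : ℕ) (cls : List ℕ) (kt st W v : ℕ) :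
    comp K S P (n + 1) mask (c :: cls) kt st W v =
      if mask % 2 = 0 then comp K S P n (mask / 2) cls (kt + K) (st + S) (W + v * 2 ^ st) v
      else comp K S P n (mask / 2) cls (kt + K) (st + S)
        (W + (v + (W / 2 ^ (st - c)) % P * 2 ^ kt) % P * 2 ^ st)
        ((v + (W / 2 ^ (st - c)) % P * 2 ^ kt) % P) := by
  have key : comp K S P (n + 1) mask (c :: cls) kt st W v =
      Nat.rec (motive := fun _ => ℕ)
        (comp K S P n (mask / 2) cls (kt + K) (st + S) (W + Nat.shiftLeft v st) v)
        (fun _ _ => comp K S P n (mask / 2) cls (kt + K) (st + S)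
          (W + Nat.shiftLeft
            ((v + Nat.shiftLeft (Nat.shiftRight W (st - c) % P) kt) % P) st)
          ((v + Nat.shiftLeft (Nat.shiftRight W (st - c) % P) kt) % P)) (mask % 2) := rfl
  rw [key]
  simp only [shl_eq, shr_eq]
  cases mask % 2 with
  | zero => simp
  | succ x => simp

lemma store (P T W v : ℕ) (hW : W < P ^ (T + 1)) (hv : v < P) :
    (∀ t, t ≤ T → (W + v * P ^ (T + 1)) / P ^ t % P = W / P ^ t % P) ∧
    (W + v * P ^ (T + 1)) / P ^ (T + 1) % P = v ∧ W + v * P ^ (T + 1) < P ^ (T + 1 + 1) := by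
  have hP : 0 < P := by omega
  refine ⟨fun t ht => ?_, ?_, ?_⟩
  · obtain ⟨d, rfl⟩ := Nat.exists_eq_add_of_le ht
    have e : v * P ^ (t + d + 1) = P ^ t * (P * (v * P ^ d)) := by ring
    rw [e, Nat.add_mul_div_left _ _ (pow_pos hP t), Nat.add_mul_mod_self_left]
  · rw [mul_comm v, Nat.add_mul_div_left _ _ (pow_pos hP _), Nat.div_eq_of_lt hW, zero_add,
      Nat.mod_eq_of_lt hv]
  · have h1 : (v + 1) * P ^ (T + 1) ≤ P * P ^ (T + 1) := Nat.mul_le_mul_right _ hv
    rw [pow_succ P (T + 1)]
    nlinarith

lemma comp_spec (g : ℕ → ℕ) (E : ℕ → Prop) (hg : ∀ e, 0 < e → 0 < g e) (K S : ℕ) (n : ℕ) :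
    ∀ (T mask : ℕ) (cls : List ℕ) (W v : ℕ),
      (∀ i, i < n → (mask / 2 ^ i % 2 = 1 ↔ E (T + 1 + i))) →
      (∀ i, i < n → cls[i]? = some (S * g (T + 1 + i))) →
      (∀ t, t ≤ T → W / (2 ^ S) ^ t % 2 ^ S = Wt g E (2 ^ K) t % 2 ^ S) →
      W < (2 ^ S) ^ (T + 1) → v = Wt g E (2 ^ K) T % 2 ^ S →
      comp K S (2 ^ S) n mask cls (K * (T + 1)) (S * (T + 1)) W v =
        Wt g E (2 ^ K) (T + n) % 2 ^ S := by
  induction n with
  | zero =>
    intro T mask cls W v _ _ _ _ hv
    rw [comp_zero, hv, add_zero]
  | succ n ih =>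
    intro T mask cls W v hmask hcls hW hWlt hv
    have hP : 0 < 2 ^ S := pow_pos (by norm_num) S
    have hc0 := hcls 0 (by omega)
    rcases cls with _ | ⟨c, cls⟩
    · simp at hc0
    · simp only [List.getElem?_cons_zero, add_zero, Option.some.injEq] at hc0
      have hm0 := hmask 0 (by omega)
      rw [pow_zero, Nat.div_one, add_zero] at hm0
      have hmask' : ∀ i, i < n → (mask / 2 / 2 ^ i % 2 = 1 ↔ E (T + 1 + 1 + i)) := by
        intro i hi
        have h1 := hmask (i + 1) (by omega)
        rw [Nat.div_div_eq_div_mul, ← pow_succ']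
        rw [show T + 1 + 1 + i = T + 1 + (i + 1) by ring]
        exact h1
      have hcls' : ∀ i, i < n → cls[i]? = some (S * g (T + 1 + 1 + i)) := by
        intro i hi
        have h1 := hcls (i + 1) (by omega)
        rw [List.getElem?_cons_succ] at h1
        rw [show T + 1 + 1 + i = T + 1 + (i + 1) by ring]
        exact h1
      have e2S : (2 : ℕ) ^ (S * (T + 1)) = (2 ^ S) ^ (T + 1) := pow_mul 2 S (T + 1)
      rw [comp_succ, e2S, show T + (n + 1) = T + 1 + n by ring]
      have hWs := Wt_succ g E (2 ^ K) T (hg _ (by omega))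
      by_cases hm : mask % 2 = 0
      · rw [if_pos hm]
        have hE : ¬ E (T + 1) := fun h => by
          have := hm0.2 h
          omega
        rw [if_neg hE, add_zero] at hWs
        have hvlt : v < 2 ^ S := by rw [hv]; exact Nat.mod_lt _ hP
        obtain ⟨s1, s2, s3⟩ := store (2 ^ S) T W v hWlt hvlt
        exact ih (T + 1) (mask / 2) cls (W + v * (2 ^ S) ^ (T + 1)) v hmask' hcls'
          (fun t ht => by
            rcases Nat.lt_or_ge T t with h | h
            · have : t = T + 1 := by omega
              subst this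
              rw [s2, hWs, hv]
            · rw [s1 t h]
              exact hW t h) s3 (by rw [hWs]; exact hv)
      · rw [if_neg hm]
        have hE : E (T + 1) := hm0.1 (by omega)
        rw [if_pos hE] at hWs
        have hsub : S * (T + 1) - c = S * (T + 1 - g (T + 1)) := by
          rw [hc0, Nat.mul_sub]
        have hgp := hg (T + 1) (by omega)
        have hget : W / 2 ^ (S * (T + 1) - c) % 2 ^ S =
            Wt g E (2 ^ K) (T + 1 - g (T + 1)) % 2 ^ S := by
          rw [hsub, pow_mul]
          exact hW _ (by omega)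
        set u := (v + W / 2 ^ (S * (T + 1) - c) % 2 ^ S * 2 ^ (K * (T + 1))) % 2 ^ S with hu
        have hu' : u = Wt g E (2 ^ K) (T + 1) % 2 ^ S := by
          rw [hu, hget, hWs, hv, pow_mul, mul_comm ((2 ^ K) ^ (T + 1))]
          conv_rhs => rw [Nat.add_mod, Nat.mul_mod]
          conv_lhs => rw [Nat.add_mod, Nat.mod_mod, Nat.mul_mod, Nat.mod_mod]
        have hult : u < 2 ^ S := by rw [hu]; exact Nat.mod_lt _ hP
        obtain ⟨s1, s2, s3⟩ := store (2 ^ S) T W u hWlt hult
        exact ih (T + 1) (mask / 2) cls (W + u * (2 ^ S) ^ (T + 1)) u hmask' hcls'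
          (fun t ht => by
            rcases Nat.lt_or_ge T t with h | h
            · have : t = T + 1 := by omega
              subst this
              rw [s2, hu']
            · rw [s1 t h]
              exact hW t h) s3 hu'

lemma scale_getElem? (S : ℕ) (L : List ℕ) (i : ℕ) :
    (scale S L)[i]? = (L[i]?).map (fun a => S * a) := by
  induction L generalizing i with
  | nil => rfl
  | cons a L ih =>
    have : scale S (a :: L) = (S * a) :: scale S L := rfl
    rw [this]
    cases i with
    | zero => rfl
    | succ i =>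
      rw [List.getElem?_cons_succ, List.getElem?_cons_succ]
      exact ih i

lemma scale_length (S : ℕ) (L : List ℕ) : (scale S L).length = L.length := by
  induction L with
  | nil => rfl
  | cons a L ih =>
    have : scale S (a :: L) = (S * a) :: scale S L := rfl
    rw [this, List.length_cons, List.length_cons, ih]

lemma app_eq (L L' : List ℕ) : app L L' = L ++ L' := by
  induction L with
  | nil => rfl
  | cons a L ih =>
    have : app (a :: L) L' = a :: app L L' := rfl
    rw [this, ih]
    rfl

lemma cyc_getElem? (L : List ℕ) (k : ℕ) : ∀ i, i < k * L.length →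
    (cyc k L)[i]? = L[i % L.length]? := by
  induction k with
  | zero => intro i hi; omega
  | succ k ih =>
    intro i hi
    have h1 : cyc (k + 1) L = L ++ cyc k L := app_eq L (cyc k L)
    rw [h1]
    have h2 : (k + 1) * L.length = k * L.length + L.length := by ring
    rcases Nat.lt_or_ge i L.length with h | h
    · rw [List.getElem?_append_left h, Nat.mod_eq_of_lt h]
    · rw [List.getElem?_append_right h, ih _ (by omega), Nat.mod_eq_sub_mod h]

lemma nth_eq (L : List ℕ) : ∀ i, nth L i = L.getD i 0 := by
  induction L with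
  | nil => intro i; rfl
  | cons a L ih =>
    intro i
    cases i with
    | zero => rfl
    | succ i => exact ih i

lemma packL_eq (K : ℕ) (L : List ℕ) :
    packL K L = ∑ i ∈ range L.length, L.getD i 0 * (2 ^ K) ^ i := by
  induction L with
  | nil => rfl
  | cons a L ih =>
    have h1 : packL K (a :: L) = a + 2 ^ K * packL K L := rfl
    rw [h1, ih, List.length_cons, sum_range_succ', mul_sum, add_comm]
    congr 1
    · apply sum_congr rfl
      intro i _
      rw [pow_succ]
      simp only [List.getD_cons_succ]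
      ring
    · simp

end Pool.Agent.H38.DP
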