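import Pool.Agent.H38.DP.Sound

/-! Correctness of the search, second part. -/

open Finset

namespace Pool.Agent.H38.DP

/-- gap function given by a list of period `M` -/
def gapOf (M : ℕ) (L : List ℕ) (e : ℕ) : ℕ := L.getD ((e - 1) % M) 0

/-- the gap function `gb` lies in the box -/
def InBox (M : ℕ) (gb : ℕ → ℕ) (lo hi : List ℕ) : Prop :=
  lo.length = M ∧ hi.length = M ∧ (∀ x ∈ lo, 0 < x) ∧
    ∀ e, 0 < e → gapOf M lo e ≤ gb e ∧ (gb e ≤ gapOf M hi e ∨ 60000 ≤ gapOf M hi e)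

/-- the hypotheses on the unknown solution -/
def Good (M : ℕ) (As : List ℕ) (gb : ℕ → ℕ) (EC : ℕ → Prop) : Prop :=
  (∀ e, 0 < gb e) ∧ (∀ e, 0 < e → gb e = gb ((e - 1) % M + 1)) ∧
    ∀ i, i < As.length → As.getD i 0 = cnt (admG gb EC) i

/-- bound for the number of partitions into distinct parts -/
def QB : Prop := ∀ i, i < 160 → cnt (admG (fun _ => 1) (fun _ => True)) i < 2 ^ (i / 8 + 8)

section
variable (g : ℕ → ℕ) (E : ℕ → Prop)

lemma cT_T_zero (T : ℕ) : cT g E T 0 = 1 := by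
  classical
  unfold cT
  rw [card_eq_one]
  refine ⟨∅, ?_⟩
  ext S
  rw [mem_filter, mem_singleton, mem_powerset]
  constructor
  · rintro ⟨h1, h2, h3⟩
    by_contra hne
    obtain ⟨x, hx⟩ := nonempty_iff_ne_empty.2 hne
    have h4 : x ≤ ∑ e ∈ S, e := single_le_sum (f := fun e => e) (fun _ _ => Nat.zero_le _) hx
    have := (h2.1 x hx).1
    omega
  · rintro rfl
    exact ⟨by simp, ⟨by simp, by simp⟩, by simp⟩

/-- the last step of the counting -/
lemma cT_self (e : ℕ) (hg : 0 < g (e + 1)) : cT g E (e + 1) (e + 1) = cT g E e (e + 1) +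
    (open Classical in if E (e + 1) then 1 else 0) := by
  classical
  rw [cT_succ g E e (e + 1) hg, Nat.sub_self, cT_T_zero]
  simp

lemma cT_eq_self (T m : ℕ) (h : m ≤ T) : cT g E T m = cT g E m m := by
  rw [cT_eq_cnt g E T m h, cT_eq_cnt g E m m le_rfl]

end

section
variable {M : ℕ} {As : List ℕ} {gb : ℕ → ℕ} {EC : ℕ → Prop} {lo hi : List ℕ}

lemma gapOf_pos (hM : 0 < M) (L : List ℕ) (hL : L.length = M) (hpos : ∀ x ∈ L, 0 < x) (e : ℕ) :
    0 < gapOf M L e := by
  unfold gapOf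
  have h1 : (e - 1) % M < L.length := by rw [hL]; exact Nat.mod_lt _ hM
  rw [List.getD_eq_getElem _ _ h1]
  exact hpos _ (List.getElem_mem h1)

/-- the computed side -/
lemma side_eq (hM : 0 < M) (L : List ℕ) (hL : L.length = M) (hpos : ∀ e, 0 < e → 0 < gapOf M L e)
    (K n mask : ℕ) (hK : 0 < K) :
    comp K (K * (n + 1)) (2 ^ (K * (n + 1))) (n - 1) mask (cyc n (scale (K * (n + 1)) L))
      K (K * (n + 1)) 1 1 =
      Wt (gapOf M L) (fun e => mask / 2 ^ (e - 1) % 2 = 1) (2 ^ K) (n - 1) %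
        2 ^ (K * (n + 1)) := by
  have h1lt : 1 < 2 ^ (K * (n + 1)) := Nat.one_lt_two_pow (by
    have : 0 < K * (n + 1) := by positivity
    omega)
  have h := comp_spec (gapOf M L) (fun e => mask / 2 ^ (e - 1) % 2 = 1) hpos K (K * (n + 1))
    (n - 1) 0 mask (cyc n (scale (K * (n + 1)) L)) 1 1
    (fun i _ => by
      rw [show 0 + 1 + i - 1 = i by omega])
    (fun i hi => by
      have h1 : i < n * (scale (K * (n + 1)) L).length := by
        rw [scale_length, hL]
        calc i < n := by omega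
          _ ≤ n * M := Nat.le_mul_of_pos_right n hM
      rw [cyc_getElem? _ _ i h1, scale_getElem?, scale_length, hL]
      have h2 : i % M < L.length := by rw [hL]; exact Nat.mod_lt _ hM
      rw [List.getElem?_eq_getElem h2]
      unfold gapOf
      rw [show 0 + 1 + i - 1 = i by omega, List.getD_eq_getElem _ _ h2]
      rfl)
    (fun t ht => by
      have : t = 0 := by omega
      subst this
      rw [pow_zero, Nat.div_one, Wt_zero])
    (by rw [zero_add, pow_one]; exact h1lt)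
    (by rw [Wt_zero, Nat.mod_eq_of_lt h1lt])
  rw [zero_add, mul_one, mul_one, zero_add] at h
  exact h

/-- digits of the computed side -/
lemma side_digit (hq : QB) (g : ℕ → ℕ) (E : ℕ → Prop) (n T m : ℕ) (hn : n < 160) (hm : m ≤ n) :
    Wt g E (2 ^ (n / 8 + 8)) T % 2 ^ ((n / 8 + 8) * (n + 1)) / (2 ^ (n / 8 + 8)) ^ m %
      2 ^ (n / 8 + 8) = cT g E T m := by
  rw [pow_mul, mod_div_mod _ _ _ _ (by omega),
    Wt_digits g E (2 ^ (n / 8 + 8)) T ((T + 1) ^ 2 + m + 1) (by omega)]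
  apply digit
  · omega
  · intro i hi
    calc cT g E T i ≤ _ := cT_le_all g E T i
      _ < 2 ^ (i / 8 + 8) := hq i (by omega)
      _ ≤ 2 ^ (n / 8 + 8) := Nat.pow_le_pow_right (by norm_num) (by omega)

lemma pack_digit (hq : QB) (hAs : Good M As gb EC) (n m : ℕ) (hn : n < 160)
    (hlen : n < As.length) (hm : m ≤ n) :
    packL (n / 8 + 8) As / (2 ^ (n / 8 + 8)) ^ m % 2 ^ (n / 8 + 8) = cnt (admG gb EC) m := by
  rw [packL_eq, digit _ _ _ _ (by omega)]
  · exact hAs.2.2 m (by omega)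
  · intro i hi
    rw [hAs.2.2 i (by omega), ← cT_eq_cnt gb EC i i le_rfl]
    calc cT gb EC i i ≤ _ := cT_le_all gb EC i i
      _ < 2 ^ (i / 8 + 8) := hq i (by omega)
      _ ≤ 2 ^ (n / 8 + 8) := Nat.pow_le_pow_right (by norm_num) (by omega)

/-- the numbers of the box around the solution: the solution is determined below `n` -/
lemma agree (hAs : Good M As gb EC) (ghi glo : ℕ → ℕ) (E : ℕ → Prop) (n : ℕ)
    (hpos1 : ∀ e, 0 < e → 0 < ghi e) (hpos2 : ∀ e, 0 < e → 0 < glo e)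
    (hhi : ∀ e, 0 < e → e < n → gb e ≤ ghi e ∨ n < ghi e)
    (hlo : ∀ e, 0 < e → e < n → glo e ≤ gb e)
    (h1 : ∀ m, m < n → cT ghi E (n - 1) m = cnt (admG gb EC) m)
    (h2 : ∀ m, m < n → cT glo E (n - 1) m = cnt (admG gb EC) m) :
    (∀ e, 0 < e → e < n → (EC e ↔ E e)) := by
  classical
  intro e he hen
  induction e using Nat.strong_induction_on with
  | _ e ih =>
  obtain ⟨k, rfl⟩ := Nat.exists_eq_succ_of_ne_zero he.ne'
  have hE : ∀ e', 0 < e' → e' ≤ k → (EC e' ↔ E e') := fun e' h0 h3 =>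
    ih e' (by omega) h0 (by omega)
  have a1 := h1 (k + 1) hen
  have a2 := h2 (k + 1) hen
  rw [cT_eq_self ghi E _ _ (by omega), cT_self ghi E k (hpos1 _ he)] at a1
  rw [cT_eq_self glo E _ _ (by omega), cT_self glo E k (hpos2 _ he)] at a2
  rw [← cT_eq_cnt gb EC (k + 1) (k + 1) le_rfl, cT_self gb EC k (hAs.1 _),
    cT_congr_E gb hE] at a1 a2
  have b1 : cT ghi E k (k + 1) ≤ cT gb E k (k + 1) := by
    apply cT_mono_g
    intro e' h0 he'
    rcases hhi e' h0 (by omega) with h | h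
    · exact Or.inl h
    · exact Or.inr (by omega)
  have b2 : cT gb E k (k + 1) ≤ cT glo E k (k + 1) := by
    apply cT_mono_g
    intro e' h0 he'
    exact Or.inl (hlo e' h0 (by omega))
  by_cases c1 : EC (k + 1) <;> by_cases c2 : E (k + 1) <;> simp only [c1, c2, if_true, if_false,
    iff_true, iff_false] at a1 a2 ⊢ <;> omega

/-- meaning of the check -/
lemma leafChk_true {a n mask Apk : ℕ} (h : leafChk a lo hi n mask Apk = true) :
    ∀ K S P Q vh vl : ℕ, K = n / 8 + 8 → S = K * (n + 1) → P = 2 ^ S → Q = 2 ^ (K * n) →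
      vh = comp K S P (n - 1) mask (cyc n (scale S hi)) K S 1 1 →
      vl = comp K S P (n - 1) mask (cyc n (scale S lo)) K S 1 1 →
      vh % Q = Apk % Q ∧ vl % Q = Apk % Q ∧ (a < vh / Q % 2 ^ K ∨ vl / Q % 2 ^ K + 2 ≤ a) := by
  rintro K S P Q vh vl rfl rfl rfl rfl rfl rfl
  have key : leafChk a lo hi n mask Apk =
      Bool.rec (motive := fun _ => Bool) false
        (Bool.rec (motive := fun _ => Bool) false
          (Bool.rec (motive := fun _ => Bool)
            (Nat.ble (comp (n / 8 + 8) ((n / 8 + 8) * (n + 1)) (2 ^ ((n / 8 + 8) * (n + 1)))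
                (n - 1) mask (cyc n (scale ((n / 8 + 8) * (n + 1)) lo)) (n / 8 + 8)
                ((n / 8 + 8) * (n + 1)) 1 1 / 2 ^ ((n / 8 + 8) * n) % 2 ^ (n / 8 + 8) + 2) a) true
            (Nat.ble (a + 1) (comp (n / 8 + 8) ((n / 8 + 8) * (n + 1))
                (2 ^ ((n / 8 + 8) * (n + 1)))
                (n - 1) mask (cyc n (scale ((n / 8 + 8) * (n + 1)) hi)) (n / 8 + 8)
                ((n / 8 + 8) * (n + 1)) 1 1 / 2 ^ ((n / 8 + 8) * n) % 2 ^ (n / 8 + 8))))
          (Nat.beq (comp (n / 8 + 8) ((n / 8 + 8) * (n + 1)) (2 ^ ((n / 8 + 8) * (n + 1)))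
                (n - 1) mask (cyc n (scale ((n / 8 + 8) * (n + 1)) lo)) (n / 8 + 8)
                ((n / 8 + 8) * (n + 1)) 1 1 % 2 ^ ((n / 8 + 8) * n))
                (Apk % 2 ^ ((n / 8 + 8) * n))))
        (Nat.beq (comp (n / 8 + 8) ((n / 8 + 8) * (n + 1)) (2 ^ ((n / 8 + 8) * (n + 1)))
                (n - 1) mask (cyc n (scale ((n / 8 + 8) * (n + 1)) hi)) (n / 8 + 8)
                ((n / 8 + 8) * (n + 1)) 1 1 % 2 ^ ((n / 8 + 8) * n))
                (Apk % 2 ^ ((n / 8 + 8) * n))) := rfl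
  rw [key] at h
  revert h
  generalize comp (n / 8 + 8) ((n / 8 + 8) * (n + 1)) (2 ^ ((n / 8 + 8) * (n + 1)))
                (n - 1) mask (cyc n (scale ((n / 8 + 8) * (n + 1)) hi)) (n / 8 + 8)
                ((n / 8 + 8) * (n + 1)) 1 1 = vh
  generalize comp (n / 8 + 8) ((n / 8 + 8) * (n + 1)) (2 ^ ((n / 8 + 8) * (n + 1)))
                (n - 1) mask (cyc n (scale ((n / 8 + 8) * (n + 1)) lo)) (n / 8 + 8)
                ((n / 8 + 8) * (n + 1)) 1 1 = vl
  intro h
  cases h1 : Nat.beq (vh % 2 ^ ((n / 8 + 8) * n)) (Apk % 2 ^ ((n / 8 + 8) * n)) with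
  | false => rw [h1] at h; exact absurd h (by simp)
  | true =>
    rw [h1] at h
    cases h2 : Nat.beq (vl % 2 ^ ((n / 8 + 8) * n)) (Apk % 2 ^ ((n / 8 + 8) * n)) with
    | false => rw [h2] at h; exact absurd h (by simp)
    | true =>
      rw [h2] at h
      refine ⟨Nat.eq_of_beq_eq_true h1, Nat.eq_of_beq_eq_true h2, ?_⟩
      cases h3 : Nat.ble (a + 1) (vh / 2 ^ ((n / 8 + 8) * n) % 2 ^ (n / 8 + 8)) with
      | true => exact Or.inl (Nat.le_of_ble_eq_true h3)
      | false =>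
        rw [h3] at h
        exact Or.inr (Nat.le_of_ble_eq_true h)

lemma gapOf_hi_pos (hbox : InBox M gb lo hi) (hgb : ∀ e, 0 < gb e) (e : ℕ) (he : 0 < e) :
    0 < gapOf M hi e := by
  have h1 := (hbox.2.2.2 e he).2
  have h2 := hgb e
  omega

/-- a dead box contains no solution -/
theorem leafChk_sound (hq : QB) (hM : 0 < M) (hAs : Good M As gb EC) (hbox : InBox M gb lo hi)
    {n mask : ℕ} (hn1 : 1 ≤ n) (hn : n < 160) (hlen : n < As.length)
    (h : leafChk (nth As n) lo hi n mask (packL (n / 8 + 8) As) = true) : False := by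
  classical
  obtain ⟨h1, h2, h3⟩ := leafChk_true h _ _ _ _ _ _ rfl rfl rfl rfl rfl rfl
  have hhipos : ∀ e, 0 < e → 0 < gapOf M hi e := gapOf_hi_pos hbox hAs.1
  have hlopos : ∀ e, 0 < e → 0 < gapOf M lo e := fun e _ => gapOf_pos hM lo hbox.1 hbox.2.2.1 e
  rw [side_eq hM hi hbox.2.1 hhipos _ _ _ (by omega)] at h1 h3
  rw [side_eq hM lo hbox.1 hlopos _ _ _ (by omega)] at h2 h3
  set E : ℕ → Prop := fun e => mask / 2 ^ (e - 1) % 2 = 1 with hE
  have eQ : 2 ^ ((n / 8 + 8) * n) = (2 ^ (n / 8 + 8)) ^ n := pow_mul 2 _ _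
  rw [eQ] at h1 h2 h3
  have d1 : ∀ m, m < n → cT (gapOf M hi) E (n - 1) m = cnt (admG gb EC) m := by
    intro m hm
    rw [← side_digit hq _ _ n (n - 1) m hn hm.le, ← pack_digit hq hAs n m hn hlen hm.le,
      ← mod_div_mod _ _ _ _ hm, h1, mod_div_mod _ _ _ _ hm]
  have d2 : ∀ m, m < n → cT (gapOf M lo) E (n - 1) m = cnt (admG gb EC) m := by
    intro m hm
    rw [← side_digit hq _ _ n (n - 1) m hn hm.le, ← pack_digit hq hAs n m hn hlen hm.le,
      ← mod_div_mod _ _ _ _ hm, h2, mod_div_mod _ _ _ _ hm]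
  rw [side_digit hq _ _ n (n - 1) n hn le_rfl, side_digit hq _ _ n (n - 1) n hn le_rfl,
    nth_eq, hAs.2.2 n hlen] at h3
  have hag := agree hAs (gapOf M hi) (gapOf M lo) E n hhipos hlopos
    (fun e he hen => by
      rcases (hbox.2.2.2 e he).2 with h | h
      · exact Or.inl h
      · exact Or.inr (by omega))
    (fun e he _ => (hbox.2.2.2 e he).1) d1 d2
  obtain ⟨k, rfl⟩ := Nat.exists_eq_succ_of_ne_zero (show n ≠ 0 by omega)
  have e1 : k.succ - 1 = k := rfl
  rw [e1] at h3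
  have a0 := cT_self gb EC k (hAs.1 _)
  rw [cT_eq_cnt gb EC (k + 1) (k + 1) le_rfl,
    cT_congr_E gb (fun e h0 h4 => hag e h0 (by omega))] at a0
  have b1 : cT (gapOf M hi) E k (k + 1) ≤ cT gb E k (k + 1) := by
    apply cT_mono_g
    intro e' h0 he'
    rcases (hbox.2.2.2 e' h0).2 with h | h
    · exact Or.inl h
    · exact Or.inr (by omega)
  have b2 : cT gb E k (k + 1) ≤ cT (gapOf M lo) E k (k + 1) := by
    apply cT_mono_g
    intro e' h0 he'
    exact Or.inl (hbox.2.2.2 e' h0).1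
  have e2 : k.succ = k + 1 := rfl
  rw [e2] at h3
  split_ifs at a0 <;> omega

end

end Pool.Agent.H38.DP
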