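import Pool.Agent.H38.DP.Sound2

/-! Correctness of the search, third part. -/

open Finset

namespace Pool.Agent.H38.DP

/-- the solution lies below one of the listed vectors -/
def Concl (M : ℕ) (prs : List (List ℕ)) (gb : ℕ → ℕ) : Prop :=
  ∃ g ∈ prs, ∀ e, 0 < e → gb e ≤ gapOf M g e ∨ 60000 ≤ gapOf M g e

/-- every solution in the box lies below one of the listed vectors -/
def Excl (M : ℕ) (As : List ℕ) (prs : List (List ℕ)) (p : List ℕ × List ℕ) : Prop :=
  ∀ gb EC, Good M As gb EC → InBox M gb p.1 p.2 → Concl M prs gb

lemma setL_eq (L : List ℕ) : ∀ j d, setL L j d = L.set j d := by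
  induction L with
  | nil => intro j d; rfl
  | cons a L ih =>
    intro j d
    cases j with
    | zero => rfl
    | succ j =>
      have : setL (a :: L) (j + 1) d = a :: setL L j d := rfl
      rw [this, ih, List.set_cons_succ]

lemma belowOne_true {g h : List ℕ} (hb : belowOne g h = true) :
    g.length = h.length ∧ ∀ i, h.getD i 0 ≤ g.getD i 0 := by
  induction g generalizing h with
  | nil =>
    cases h with
    | nil => exact ⟨rfl, fun i => le_rfl⟩
    | cons a h => exact absurd hb (by simp [belowOne])
  | cons a g ih =>
    cases h with
    | nil => exact absurd hb (by simp [belowOne])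
    | cons b h =>
      have key : belowOne (a :: g) (b :: h) =
        Bool.rec (motive := fun _ => Bool) false (belowOne g h) (Nat.ble b a) := rfl
      rw [key] at hb
      cases h1 : Nat.ble b a with
      | false => rw [h1] at hb; exact absurd hb (by simp)
      | true =>
        rw [h1] at hb
        obtain ⟨h2, h3⟩ := ih hb
        refine ⟨by rw [List.length_cons, List.length_cons, h2], fun i => ?_⟩
        cases i with
        | zero => exact Nat.le_of_ble_eq_true h1
        | succ i => simpa using h3 i

lemma below_true {prs : List (List ℕ)} {h : List ℕ} (hb : below prs h = true) :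
    ∃ g ∈ prs, g.length = h.length ∧ ∀ i, h.getD i 0 ≤ g.getD i 0 := by
  induction prs with
  | nil => exact absurd hb (by simp [below])
  | cons g prs ih =>
    have key : below (g :: prs) h =
      Bool.rec (motive := fun _ => Bool) (below prs h) true (belowOne g h) := rfl
    rw [key] at hb
    cases h1 : belowOne g h with
    | true => exact ⟨g, by simp, belowOne_true h1⟩
    | false =>
      rw [h1] at hb
      obtain ⟨g', h2, h3⟩ := ih hb
      exact ⟨g', by simp [h2], h3⟩

lemma eqL_true {g h : List ℕ} (hb : eqL g h = true) : g = h := by
  induction g generalizing h with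
  | nil =>
    cases h with
    | nil => rfl
    | cons a h => exact absurd hb (by simp [eqL])
  | cons a g ih =>
    cases h with
    | nil => exact absurd hb (by simp [eqL])
    | cons b h =>
      have key : eqL (a :: g) (b :: h) =
        Bool.rec (motive := fun _ => Bool) false (eqL g h) (Nat.beq b a) := rfl
      rw [key] at hb
      cases h1 : Nat.beq b a with
      | false => rw [h1] at hb; exact absurd hb (by simp)
      | true =>
        rw [h1] at hb
        rw [ih hb, Nat.eq_of_beq_eq_true h1]

lemma memB_true {lo hi : List ℕ} {ext : List (List ℕ × List ℕ)} (hb : memB lo hi ext = true) :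
    (lo, hi) ∈ ext := by
  induction ext with
  | nil => exact absurd hb (by simp [memB])
  | cons p ext ih =>
    have key : memB lo hi (p :: ext) =
      Bool.rec (motive := fun _ => Bool) (memB lo hi ext)
        (Bool.rec (motive := fun _ => Bool) (memB lo hi ext) true (eqL hi p.2)) (eqL lo p.1) := rfl
    rw [key] at hb
    cases h1 : eqL lo p.1 with
    | false =>
      rw [h1] at hb
      exact List.mem_cons_of_mem _ (ih hb)
    | true =>
      rw [h1] at hb
      cases h2 : eqL hi p.2 with
      | false =>
        rw [h2] at hb
        exact List.mem_cons_of_mem _ (ih hb)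
      | true =>
        have e1 := eqL_true h1
        have e2 := eqL_true h2
        rw [e1, e2]
        exact List.mem_cons_self

section
attribute [local irreducible] Nat.ble Nat.beq Nat.sub Nat.pow

lemma run_step (len : ℕ) (As Apks : List ℕ) (prs : List (List ℕ))
    (ext : List (List ℕ × List ℕ)) (fuel code : ℕ) (p : List ℕ × List ℕ)
    (st : List (List ℕ × List ℕ)) :
  run len As Apks prs ext (fuel + 1) code (p :: st) =
    Bool.rec (motive := fun _ => Bool)
      (run len As Apks prs ext fuel (Nat.div code 4096)
        ((p.1, setL p.2 (Nat.div (Nat.mod code 4096) 256) (Nat.mod (Nat.mod code 4096) 256)) ::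
          (setL p.1 (Nat.div (Nat.mod code 4096) 256)
            (Nat.succ (Nat.mod (Nat.mod code 4096) 256)), p.2) :: st))
      (Bool.rec (motive := fun _ => Bool)
        (Bool.rec (motive := fun _ => Bool)
          (Bool.rec (motive := fun _ => Bool) false
            (Bool.rec (motive := fun _ => Bool) false
              (Bool.rec (motive := fun _ => Bool) false
                (run len As Apks prs ext fuel
                  (Nat.div (Nat.div code 4096) (Nat.pow 2 (Nat.sub (Nat.mod code 4096) 2048))) st)
                (leafChk (nth As (Nat.sub (Nat.mod code 4096) 2048)) p.1 p.2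
                  (Nat.sub (Nat.mod code 4096) 2048)
                  (Nat.mod (Nat.div code 4096) (Nat.pow 2 (Nat.sub (Nat.mod code 4096) 2048)))
                  (nth Apks (Nat.div (Nat.sub (Nat.mod code 4096) 2048) 8))))
              (Nat.ble (Nat.succ (Nat.sub (Nat.mod code 4096) 2048)) len))
            (Nat.ble 1 (Nat.sub (Nat.mod code 4096) 2048)))
          (Bool.rec (motive := fun _ => Bool) false
            (run len As Apks prs ext fuel (Nat.div code 4096) st) (memB p.1 p.2 ext))
          (Nat.beq (Nat.mod code 4096) 4094))
        (Bool.rec (motive := fun _ => Bool) false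
          (run len As Apks prs ext fuel (Nat.div code 4096) st) (below prs p.2))
        (Nat.beq (Nat.mod code 4096) 4095))
      (Nat.ble 2048 (Nat.mod code 4096)) := rfl

end

lemma run_cases {len : ℕ} {As Apks : List ℕ} {prs : List (List ℕ)}
    {ext : List (List ℕ × List ℕ)} {fuel code : ℕ} {p : List ℕ × List ℕ}
    {st : List (List ℕ × List ℕ)} (h : run len As Apks prs ext (fuel + 1) code (p :: st) = true) :
    (∃ code' j d, run len As Apks prs ext fuel code'
      ((p.1, setL p.2 j d) :: (setL p.1 j (d + 1), p.2) :: st) = true) ∨
    (∃ code', below prs p.2 = true ∧ run len As Apks prs ext fuel code' st = true) ∨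
    (∃ code', memB p.1 p.2 ext = true ∧ run len As Apks prs ext fuel code' st = true) ∨
    (∃ code' n mask, 1 ≤ n ∧ n + 1 ≤ len ∧
      leafChk (nth As n) p.1 p.2 n mask (nth Apks (n / 8)) = true ∧
      run len As Apks prs ext fuel code' st = true) := by
  rw [run_step] at h
  generalize Nat.div code 4096 = code1 at h
  generalize Nat.mod code 4096 = t at h
  cases h1 : Nat.ble 2048 t with
  | false =>
    rw [h1] at h
    exact Or.inl ⟨_, _, _, h⟩
  | true =>
    rw [h1] at h
    cases h2 : Nat.beq t 4095 with
    | true =>
      rw [h2] at h
      cases h3 : below prs p.2 with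
      | false => rw [h3] at h; exact absurd h (by simp)
      | true =>
        rw [h3] at h
        exact Or.inr (Or.inl ⟨_, rfl, h⟩)
    | false =>
      rw [h2] at h
      cases h3 : Nat.beq t 4094 with
      | true =>
        rw [h3] at h
        cases h4 : memB p.1 p.2 ext with
        | false => rw [h4] at h; exact absurd h (by simp)
        | true =>
          rw [h4] at h
          exact Or.inr (Or.inr (Or.inl ⟨_, rfl, h⟩))
      | false =>
        rw [h3] at h
        generalize Nat.sub t 2048 = n at h
        cases h4 : Nat.ble 1 n with
        | false => rw [h4] at h; exact absurd h (by simp)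
        | true =>
          rw [h4] at h
          cases h5 : Nat.ble (Nat.succ n) len with
          | false => rw [h5] at h; exact absurd h (by simp)
          | true =>
            rw [h5] at h
            cases h6 : leafChk (nth As n) p.1 p.2 n (Nat.mod code1 (Nat.pow 2 n))
                  (nth Apks (Nat.div n 8)) with
            | false => rw [h6] at h; exact absurd h (by simp)
            | true =>
              rw [h6] at h
              exact Or.inr (Or.inr (Or.inr ⟨_, n, _, Nat.le_of_ble_eq_true h4,
                Nat.le_of_ble_eq_true h5, h6, h⟩))

lemma getD_set (L : List ℕ) (j i d : ℕ) :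
    (L.set j d).getD i 0 = if j = i ∧ i < L.length then d else L.getD i 0 := by
  rw [List.getD_eq_getElem?_getD, List.getD_eq_getElem?_getD, List.getElem?_set]
  by_cases h : j = i
  · subst h
    by_cases h2 : j < L.length
    · simp [h2]
    · simp [h2]
  · simp [h]

lemma packs_nth (As : List ℕ) (k : ℕ) (hk : k < 20) : nth (packs As) k = packL (k + 8) As := by
  rw [nth_eq]
  interval_cases k <;> simp [packs]

/-- soundness -/
theorem run_sound (hq : QB) {M : ℕ} (hM : 0 < M) {As : List ℕ} {len : ℕ}
    (hlen : As.length = len) (hlen' : len ≤ 160) {prs : List (List ℕ)}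
    {ext : List (List ℕ × List ℕ)} (hext : ∀ p ∈ ext, Excl M As prs p) :
    ∀ (fuel code : ℕ) (st : List (List ℕ × List ℕ)),
      run len As (packs As) prs ext fuel code st = true → ∀ p ∈ st, Excl M As prs p := by
  intro fuel
  induction fuel with
  | zero =>
    intro code st h
    exact absurd h (by simp [run])
  | succ fuel ih =>
    intro code st h
    cases st with
    | nil => simp
    | cons p st =>
      rcases run_cases h with ⟨code', j, d, h⟩ | ⟨code', h1, h⟩ | ⟨code', h1, h⟩ |
        ⟨code', n, mask, h1, h2, h3, h⟩
      · have hall := ih _ _ h
        have e1 : Excl M As prs (p.1, setL p.2 j d) := hall _ (by simp)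
        have e2 : Excl M As prs (setL p.1 j (d + 1), p.2) := hall _ (by simp)
        intro p' hp'
        rcases List.mem_cons.1 hp' with rfl | hp'
        · intro gb EC hgood hbox
          obtain ⟨b1, b2, b3, b4⟩ := hbox
          by_cases hjd : gb (j + 1) ≤ d
          · apply e1 gb EC hgood
            refine ⟨b1, ?_, b3, fun e he => ⟨(b4 e he).1, ?_⟩⟩
            · rw [setL_eq, List.length_set, b2]
            · unfold gapOf
              simp only
              rw [setL_eq, getD_set]
              split_ifs with hc
              · left
                rw [hgood.2.1 e he, ← hc.1]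
                exact hjd
              · exact (b4 e he).2
          · apply e2 gb EC hgood
            refine ⟨?_, b2, ?_, fun e he => ⟨?_, (b4 e he).2⟩⟩
            · rw [setL_eq, List.length_set, b1]
            · intro x hx
              simp only at hx
              rw [setL_eq] at hx
              rcases List.mem_or_eq_of_mem_set hx with hx | hx
              · exact b3 x hx
              · omega
            · unfold gapOf
              simp only
              rw [setL_eq, getD_set]
              split_ifs with hc
              · rw [hgood.2.1 e he, ← hc.1]
                omega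
              · exact (b4 e he).1
        · exact hall _ (by simp [hp'])
      · intro p' hp'
        rcases List.mem_cons.1 hp' with rfl | hp'
        · intro gb EC hgood hbox
          obtain ⟨g, hg, hl, hle⟩ := below_true h1
          refine ⟨g, hg, fun e he => ?_⟩
          have h2 := (hbox.2.2.2 e he).2
          have h3 : gapOf M p'.2 e ≤ gapOf M g e := hle _
          omega
        · exact ih _ _ h _ hp'
      · intro p' hp'
        rcases List.mem_cons.1 hp' with rfl | hp'
        · exact hext _ (memB_true h1)
        · exact ih _ _ h _ hp'
      · intro p' hp'
        rcases List.mem_cons.1 hp' with rfl | hp'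
        · intro gb EC hgood hbox
          exfalso
          rw [packs_nth As (n / 8) (by omega)] at h3
          exact leafChk_sound hq hM hgood hbox h1 (by omega) (by omega) h3
        · exact ih _ _ h _ hp'

end Pool.Agent.H38.DP
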