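import Pool.Agent.H38.DP.IdentI

/-! Recurrences: one step, and the swapped form of Alladi's system. -/

open Finset Polynomial

namespace Pool.Agent.H38.DP

lemma V_step (g : ℕ → ℕ) (E : ℕ → Prop) (hg : ∀ e, 0 < g e) (e0 e : ℕ) (h0 : e0 < e)
    (hE : E e) (hno : ∀ e', e0 < e' → e' < e → ¬ E e') :
    V g E e = V g E e0 + X ^ e * V g E (e - g e) := by
  obtain ⟨d, rfl⟩ := Nat.exists_eq_succ_of_ne_zero (show e ≠ 0 by omega)
  have h1 := V_succ g E d (hg _)
  rw [if_pos hE] at h1
  rw [Nat.succ_eq_add_one, h1, V_const g E hg e0 d (by omega)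
    (fun e' h1 h2 => hno e' h1 (by omega))]

/-- the allowed parts -/
def E1 (M a e : ℕ) : Prop := (∃ m, e = a + M * (m + 1)) ∨ ∃ m, e = 2 * a + M * (m + 1)

lemma E1_small (M a : ℕ) (e : ℕ) (h1 : e < a + M) : ¬ E1 M a e := by
  rintro (⟨k, rfl⟩ | ⟨k, rfl⟩)
  · rw [mul_add, mul_one] at h1; omega
  · rw [mul_add, mul_one] at h1; omega

lemma E1_EI {M a e : ℕ} (h : E1 M a e) : EI M a e := by
  rcases h with ⟨k, rfl⟩ | ⟨k, rfl⟩
  · exact Or.inl ⟨k + 1, rfl⟩
  · exact Or.inr ⟨k, rfl⟩

lemma V_small (M a : ℕ) (g : ℕ → ℕ) (hg : ∀ e, 0 < g e) (e : ℕ)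
    (h : e < a + M) : V g (E1 M a) e = 1 := by
  rw [V_const g (E1 M a) hg 0 e (Nat.zero_le _)
    (fun e' _ h2 => E1_small M a e' (by omega)), V_zero]

section
variable (M a : ℕ) (g : ℕ → ℕ) (ha : 0 < a) (haM : a < M) (hg : ∀ e, 0 < g e)
include ha haM hg

lemma E1_stepA (m : ℕ) :
    V g (E1 M a) (a + M * (m + 1)) = V g (E1 M a) (2 * a + M * m) +
      X ^ (a + M * (m + 1)) * V g (E1 M a) (a + M * (m + 1) - g (a + M * (m + 1))) := by
  apply V_step g (E1 M a) hg
  · have : M * (m + 1) = M * m + M := by ring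
    omega
  · exact Or.inl ⟨m, rfl⟩
  · intro e h1 h2 h3
    exact not_EI_between M a ha haM m e h1 h2 (E1_EI h3)

lemma E1_stepB (m : ℕ) :
    V g (E1 M a) (2 * a + M * (m + 1)) = V g (E1 M a) (a + M * (m + 1)) +
      X ^ (2 * a + M * (m + 1)) *
        V g (E1 M a) (2 * a + M * (m + 1) - g (2 * a + M * (m + 1))) := by
  apply V_step g (E1 M a) hg
  · omega
  · exact Or.inr ⟨m, rfl⟩
  · intro e h1 h2 h3
    exact not_EI_between' M a ha haM (m + 1) e h1 h2 (E1_EI h3)

lemma E1_rec_orig (hg1 : ∀ m, g (a + M * (m + 1)) = 3 * M)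
    (hg2 : ∀ m, g (2 * a + M * (m + 1)) = 3 * M + a) (m : ℕ) :
    V g (E1 M a) (2 * a + M * (m + 1)) = V g (E1 M a) (2 * a + M * m) +
      X ^ (a + M * (m + 1)) * V g (E1 M a) (2 * a + M * (m - 2)) +
      X ^ (2 * a + M * (m + 1)) * V g (E1 M a) (2 * a + M * (m - 3)) := by
  have hA := E1_stepA M a g ha haM hg
  have hB := E1_stepB M a g ha haM hg
  have key : ∀ m, V g (E1 M a) (a + M * (m + 1) - g (a + M * (m + 1))) =
      V g (E1 M a) (a + M * (m - 2)) := by
    intro m
    rw [hg1]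
    match m with
    | 0 => rw [V_small M a g hg _ (by omega), V_small M a g hg _ (by simp; omega)]
    | 1 => rw [V_small M a g hg _ (by omega), V_small M a g hg _ (by simp; omega)]
    | m + 2 =>
      congr 1
      have : M * (m + 2 + 1) = M * m + 3 * M := by ring
      have h2 : m + 2 - 2 = m := by omega
      rw [h2]
      omega
  have key2 : ∀ m, V g (E1 M a) (2 * a + M * (m + 1) - g (2 * a + M * (m + 1))) =
      V g (E1 M a) (a + M * (m - 2)) := by
    intro m
    rw [← key m, hg1, hg2]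
    congr 1
    omega
  rw [hB m, key2, hA m, key]
  match m with
  | 0 =>
    rw [V_small M a g hg (a + M * (0 - 2)) (by simp; omega),
      V_small M a g hg (2 * a + M * (0 - 2)) (by simp; omega)]
  | 1 =>
    rw [V_small M a g hg (a + M * (1 - 2)) (by simp; omega),
      V_small M a g hg (2 * a + M * (1 - 2)) (by simp; omega)]
  | 2 =>
    rw [V_small M a g hg (a + M * (2 - 2)) (by simp; omega),
      V_small M a g hg (2 * a + M * (2 - 2)) (by simp; omega)]
  | k + 3 =>
    have e1 : k + 3 - 2 = k + 1 := by omega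
    have e2 : k + 3 - 3 = k := by omega
    rw [e1, e2]
    have h1 := hB k
    have h2 := hA k
    rw [key2] at h1
    rw [key] at h2
    rw [h1, h2]
    have p1 : ∀ i, (X : ℤ[X]) ^ (a + M * i) = X ^ a * (X ^ M) ^ i := by
      intro i
      rw [← pow_mul, ← pow_add]
    have p2 : ∀ i, (X : ℤ[X]) ^ (2 * a + M * i) = (X ^ a) ^ 2 * (X ^ M) ^ i := by
      intro i
      rw [← pow_mul, ← pow_mul, ← pow_add, mul_comm 2 a]
    rw [p1, p1, p2, p2]
    ring

lemma E1_rec_swap (hg1 : ∀ m, g (a + M * (m + 1)) = 3 * M - a)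
    (hg2 : ∀ m, g (2 * a + M * (m + 1)) = 4 * M) (m : ℕ) :
    V g (E1 M a) (2 * a + M * (m + 1)) = V g (E1 M a) (2 * a + M * m) +
      X ^ (a + M * (m + 1)) * V g (E1 M a) (2 * a + M * (m - 2)) +
      X ^ (2 * a + M * (m + 1)) * V g (E1 M a) (2 * a + M * (m - 3)) := by
  have hA := E1_stepA M a g ha haM hg
  have hB := E1_stepB M a g ha haM hg
  have key : V g (E1 M a) (a + M * (m + 1) - g (a + M * (m + 1))) =
      V g (E1 M a) (2 * a + M * (m - 2)) := by
    rw [hg1]
    match m with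
    | 0 => rw [V_small M a g hg _ (by omega), V_small M a g hg _ (by simp; omega)]
    | 1 => rw [V_small M a g hg _ (by omega), V_small M a g hg _ (by simp; omega)]
    | m + 2 =>
      congr 1
      have : M * (m + 2 + 1) = M * m + 3 * M := by ring
      have h2 : m + 2 - 2 = m := by omega
      rw [h2]
      omega
  have key2 : V g (E1 M a) (2 * a + M * (m + 1) - g (2 * a + M * (m + 1))) =
      V g (E1 M a) (2 * a + M * (m - 3)) := by
    rw [hg2]
    match m with
    | 0 => rw [V_small M a g hg _ (by omega), V_small M a g hg _ (by simp; omega)]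
    | 1 => rw [V_small M a g hg _ (by omega), V_small M a g hg _ (by simp; omega)]
    | 2 => rw [V_small M a g hg _ (by omega), V_small M a g hg _ (by simp; omega)]
    | m + 3 =>
      congr 1
      have : M * (m + 3 + 1) = M * m + 4 * M := by ring
      have h2 : m + 3 - 3 = m := by omega
      rw [h2]
      omega
  rw [hB m, key2, hA m, key]

end

/-- the two systems have the same numbers of sets -/
theorem identSwapI (M a : ℕ) (g g' : ℕ → ℕ) (ha : 0 < a) (haM : a < M)
    (hg : ∀ e, 0 < g e) (hg' : ∀ e, 0 < g' e)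
    (hg1 : ∀ m, g (a + M * (m + 1)) = 3 * M)
    (hg2 : ∀ m, g (2 * a + M * (m + 1)) = 3 * M + a)
    (hg1' : ∀ m, g' (a + M * (m + 1)) = 3 * M - a)
    (hg2' : ∀ m, g' (2 * a + M * (m + 1)) = 4 * M) (n : ℕ) :
    cnt (admG g (E1 M a)) n = cnt (admG g' (E1 M a)) n := by
  have h : ∀ m, V g (E1 M a) (2 * a + M * m) = V g' (E1 M a) (2 * a + M * m) := by
    intro m
    induction m using Nat.strong_induction_on with
    | _ m ih =>
    rcases m with _ | m
    · rw [V_small M a g hg _ (by omega), V_small M a g' hg' _ (by omega)]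
    · rw [E1_rec_orig M a g ha haM hg hg1 hg2, E1_rec_swap M a g' ha haM hg' hg1' hg2',
        ih m (by omega), ih (m - 2) (by omega), ih (m - 3) (by omega)]
  have hM : 0 < M := by omega
  have h1 := V_coeff g (E1 M a) (2 * a + M * n) n (by nlinarith)
  have h2 := V_coeff g' (E1 M a) (2 * a + M * n) n (by nlinarith)
  rw [h n, h2] at h1
  exact_mod_cast h1.symm

end Pool.Agent.H38.DP
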