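import Pool.Agent.H38.DP.SwapI

/-! The swap principle: two adjacent classes with gaps `k` and `k + 1`, where the modulus
divides `k`, may get the gaps `k - 1` and `k + 2`. -/

open Finset Polynomial

namespace Pool.Agent.H38.DP

variable {M : ℕ}

/-- the new gaps: the gap of the class `j` is lowered by one and that of `j + 1` raised by
one, the others are kept -/
def swapGap (b : ZMod M → ℕ) (j : ZMod M) : ZMod M → ℕ :=
  fun u => if u = j then b j - 1 else if u = j + 1 then b (j + 1) + 1 else b u

/-- the new exceptions: the same ones, together with `b_j + 1` if `j = 0` and `1` is not an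
exception -/
def swapExc (b : ZMod M → ℕ) (j : ZMod M) (C : Finset ℕ) : Finset ℕ :=
  if j = 0 ∧ 1 ∉ C then insert (b j + 1) C else C

section
variable (b b' : ZMod M → ℕ) (C C' : Finset ℕ) (j : ZMod M) (hb : ∀ i, 0 < b i)
  (hM2 : 2 ≤ M) (h1 : b (j + 1) = b j + 1) (h2 : M ∣ b j)
  (h3 : ∀ u, u ≠ j → u ≠ j + 1 → u - (b u : ZMod M) ≠ j)
  (h4 : ∀ x : ℕ, 0 < x → (x : ZMod M) = j → (x ∈ C ↔ x + 1 ∈ C))
  (hj : b' j = b j - 1) (hj1 : b' (j + 1) = b (j + 1) + 1)
  (hu : ∀ u, u ≠ j → u ≠ j + 1 → b' u = b u)
  (hC' : ∀ e, e ∈ C' ↔ (e ∈ C ∨ (j = 0 ∧ 1 ∉ C ∧ e = b j + 1)))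
include hb hM2 h1 h2 h3 h4 hj hj1 hu hC'

lemma swap_V : ∀ e : ℕ, (e : ZMod M) ≠ j →
    V (fun e => b' (e : ZMod M)) (fun e => e ∉ C') e =
      V (fun e => b (e : ZMod M)) (fun e => e ∉ C) e := by
  classical
  have hk : 2 ≤ b j := by
    obtain ⟨t, ht⟩ := h2
    rcases t with _ | t
    · have := hb j
      omega
    · rw [ht]
      calc 2 ≤ M * 1 := by omega
        _ ≤ M * (t + 1) := Nat.mul_le_mul_left _ (by omega)
  have hkz : ((b j : ℕ) : ZMod M) = 0 := (ZMod.natCast_eq_zero_iff _ _).2 h2
  have one_ne : (1 : ZMod M) ≠ 0 := by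
    intro h
    have h' : ((1 : ℕ) : ZMod M) = 0 := by rw [Nat.cast_one]; exact h
    have := (ZMod.natCast_eq_zero_iff _ _).1 h'
    have := Nat.le_of_dvd Nat.one_pos this
    omega
  have hb' : ∀ i, 0 < b' i := by
    intro i
    by_cases hi : i = j
    · rw [hi, hj]; omega
    · by_cases hi1 : i = j + 1
      · rw [hi1, hj1]; omega
      · rw [hu i hi hi1]; exact hb i
  set g : ℕ → ℕ := fun e => b (e : ZMod M) with hg
  set g' : ℕ → ℕ := fun e => b' (e : ZMod M) with hg'
  set E : ℕ → Prop := fun e => e ∉ C with hE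
  set E' : ℕ → Prop := fun e => e ∉ C' with hE'
  have gpos : ∀ e, 0 < g e := fun e => hb _
  have gpos' : ∀ e, 0 < g' e := fun e => hb' _
  -- the exceptions agree except possibly at `b j + 1`
  have hEE : ∀ e : ℕ, (e = b j + 1 → j = 0 → 1 ∈ C) → (E' e ↔ E e) := by
    intro e he
    show e ∉ C' ↔ e ∉ C
    rw [hC' e]
    constructor
    · intro h h'
      exact h (Or.inl h')
    · rintro h (h' | ⟨h5, h6, h7⟩)
      · exact h h'
      · exact h6 (he h7 h5)
  intro e
  induction e using Nat.strong_induction_on with
  | _ e ih =>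
  intro he
  rcases e with _ | e
  · rw [V_zero, V_zero]
  · by_cases hej : ((e + 1 : ℕ) : ZMod M) = j + 1
    · -- the second element of a pair
      have hx : (e : ZMod M) = j := by
        rw [Nat.cast_add, Nat.cast_one] at hej
        exact add_right_cancel hej
      rcases e with _ | x
      · -- the element 1
        have e0 : 0 + 1 - g (0 + 1) = 0 := by have := gpos (0 + 1); omega
        have e0' : 0 + 1 - g' (0 + 1) = 0 := by have := gpos' (0 + 1); omega
        have h5 : E' (0 + 1) ↔ E (0 + 1) := hEE _ (fun h => by omega)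
        rw [V_succ g' E' 0 (gpos' _), V_succ g E 0 (gpos _), e0, e0', V_zero, V_zero]
        by_cases hc : E (0 + 1)
        · rw [if_pos hc, if_pos (h5.2 hc)]
        · rw [if_neg hc, if_neg (fun h => hc (h5.1 h))]
      · have hxC : (x + 1 ∈ C ↔ x + 1 + 1 ∈ C) := h4 (x + 1) (by omega) hx
        have hxj : (x : ZMod M) ≠ j := by
          intro h
          rw [Nat.cast_add, Nat.cast_one, h] at hx
          exact one_ne (add_eq_left.1 hx)
        have ihx : V g' E' x = V g E x := ih x (by omega) hxj
        rw [V_succ g' E' (x + 1) (gpos' _), V_succ g' E' x (gpos' _),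
          V_succ g E (x + 1) (gpos _), V_succ g E x (gpos _), ihx]
        have e1 : g' (x + 1) = b j - 1 := by
          show b' ((x + 1 : ℕ) : ZMod M) = b j - 1
          rw [hx, hj]
        have e2 : g' (x + 1 + 1) = b j + 2 := by
          show b' ((x + 1 + 1 : ℕ) : ZMod M) = b j + 2
          rw [hej, hj1, h1]
        have e3 : g (x + 1) = b j := by
          show b ((x + 1 : ℕ) : ZMod M) = b j
          rw [hx]
        have e4 : g (x + 1 + 1) = b j + 1 := by
          show b ((x + 1 + 1 : ℕ) : ZMod M) = b j + 1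
          rw [hej, h1]
        have hx1 : E' (x + 1) ↔ E (x + 1) := hEE _ (fun h h0 => by
          exfalso
          rw [h, Nat.cast_add, hkz, zero_add, Nat.cast_one, h0] at hx
          exact one_ne hx)
        by_cases hc : x + 1 ∈ C
        · have h5 : ¬ E' (x + 1 + 1) := fun h => h ((hC' _).2 (Or.inl (hxC.1 hc)))
          rw [if_neg (show ¬ E' (x + 1) from fun h => hx1.1 h hc), if_neg h5,
            if_neg (show ¬ E (x + 1) from fun h => h hc),
            if_neg (show ¬ E (x + 1 + 1) from fun h => h (hxC.1 hc))]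
        · have hc1 : E (x + 1) := hc
          have hc1' : E' (x + 1) := hx1.2 hc1
          have hc2 : E (x + 1 + 1) := fun h => hc (hxC.2 h)
          rw [if_pos hc1, if_pos hc2, if_pos hc1', e1, e2, e3, e4]
          set k := b j with hkdef
          rcases Nat.lt_trichotomy (x + 1) k with hlt | heq | hgt
          · have hc2' : E' (x + 1 + 1) := (hEE _ (fun h => by omega)).2 hc2
            have a1 : x + 1 - (k - 1) = 0 := by omega
            have a2 : x + 1 + 1 - (k + 2) = 0 := by omega
            have a3 : x + 1 - k = 0 := by omega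
            have a4 : x + 1 + 1 - (k + 1) = 0 := by omega
            rw [if_pos hc2', a1, a2, a3, a4, V_zero, V_zero]
          · have a1 : x + 1 - (k - 1) = 1 := by omega
            have a2 : x + 1 + 1 - (k + 2) = 0 := by omega
            have a3 : x + 1 - k = 0 := by omega
            have a4 : x + 1 + 1 - (k + 1) = 0 := by omega
            rw [a1, a2, a3, a4, V_zero, V_zero]
            have hj0 : j = 0 := by rw [← hx, heq, hkz]
            have b1 : 0 + 1 - g' (0 + 1) = 0 := by have := gpos' (0 + 1); omega
            by_cases h6 : 1 ∈ C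
            · have hc2' : E' (x + 1 + 1) := (hEE _ (fun _ _ => h6)).2 hc2
              have h7 : V g' E' 1 = 1 := by
                have := V_succ g' E' 0 (gpos' _)
                rw [if_neg (show ¬ E' (0 + 1) from fun h => h ((hC' _).2 (Or.inl h6))), V_zero,
                  add_zero] at this
                exact this
              rw [if_pos hc2', h7]
            · have hc2' : ¬ E' (x + 1 + 1) :=
                fun h => h ((hC' _).2 (Or.inr ⟨hj0, h6, by omega⟩))
              have h7 : V g' E' 1 = 1 + X ^ 1 := by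
                have := V_succ g' E' 0 (gpos' _)
                rw [if_pos (show E' (0 + 1) from (hEE _ (fun h => by omega)).2 h6), b1, V_zero,
                  mul_one] at this
                exact this
              rw [if_neg hc2', h7]
              ring
          · have hc2' : E' (x + 1 + 1) := (hEE _ (fun h => by omega)).2 hc2
            rw [if_pos hc2']
            obtain ⟨y, hy⟩ : ∃ y, x + 1 = k + (y + 1) := ⟨x - k, by omega⟩
            have a1 : x + 1 - (k - 1) = y + 1 + 1 := by omega
            have a2 : x + 1 + 1 - (k + 2) = y := by omega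
            have a3 : x + 1 - k = y + 1 := by omega
            have a4 : x + 1 + 1 - (k + 1) = y + 1 := by omega
            rw [a1, a2, a3, a4]
            have hyj : ((y + 1 : ℕ) : ZMod M) = j := by
              have : ((x + 1 : ℕ) : ZMod M) = ((k + (y + 1) : ℕ) : ZMod M) := by rw [hy]
              rw [hx] at this
              rw [this, Nat.cast_add k, hkz, zero_add]
            have hyj1 : ((y + 1 + 1 : ℕ) : ZMod M) ≠ j := by
              rw [Nat.cast_add (y + 1), hyj, Nat.cast_one]
              intro h
              exact one_ne (add_eq_left.1 h)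
            have hyj0 : ((y : ℕ) : ZMod M) ≠ j := by
              intro h
              rw [Nat.cast_add, Nat.cast_one, h] at hyj
              exact one_ne (add_eq_left.1 hyj)
            rw [ih (y + 1 + 1) (by omega) hyj1, ih y (by omega) hyj0]
            have hyC : (y + 1 ∈ C ↔ y + 1 + 1 ∈ C) := h4 (y + 1) (by omega) hyj
            have f1 : g (y + 1) = k := by
              show b ((y + 1 : ℕ) : ZMod M) = k
              rw [hyj]
            have f2 : g (y + 1 + 1) = k + 1 := by
              show b ((y + 1 + 1 : ℕ) : ZMod M) = k + 1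
              rw [Nat.cast_add (y + 1), hyj, Nat.cast_one, h1]
            rw [V_succ g E (y + 1) (gpos _), V_succ g E y (gpos _), f1, f2]
            have f3 : y + 1 + 1 - (k + 1) = y + 1 - k := by omega
            rw [f3]
            by_cases hc' : y + 1 ∈ C
            · rw [if_neg (show ¬ E (y + 1) from fun h => h hc'),
                if_neg (show ¬ E (y + 1 + 1) from fun h => h (hyC.1 hc'))]
              ring
            · rw [if_pos (show E (y + 1 + 1) from fun h => hc' (hyC.2 h)),
                if_pos (show E (y + 1) from hc')]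
              ring
    · -- the other classes
      have he1 : ((e + 1 : ℕ) : ZMod M) ≠ j := he
      have hee : (e : ZMod M) ≠ j := by
        intro h
        apply hej
        rw [Nat.cast_add, h, Nat.cast_one]
      have e1 : g' (e + 1) = g (e + 1) := hu _ he1 hej
      have hE1 : E' (e + 1) ↔ E (e + 1) := hEE _ (fun h h0 => by
        exfalso
        apply hej
        rw [h, Nat.cast_add, hkz, h0, Nat.cast_one])
      rw [V_succ g' E' e (gpos' _), V_succ g E e (gpos _), ih e (by omega) hee, e1]
      have h5 : V g' E' (e + 1 - g (e + 1)) = V g E (e + 1 - g (e + 1)) := by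
        rcases Nat.lt_or_ge (e + 1) (g (e + 1)) with h | h
        · have : e + 1 - g (e + 1) = 0 := by omega
          rw [this, V_zero, V_zero]
        · apply ih
          · have := gpos (e + 1)
            omega
          · rw [Nat.cast_sub h]
            exact h3 _ he1 hej
      rw [h5]
      by_cases hc : E (e + 1)
      · rw [if_pos hc, if_pos (hE1.2 hc)]
      · rw [if_neg hc, if_neg (fun h => hc (hE1.1 h))]

/-- the swap principle -/
theorem swap_cnt (n : ℕ) : cnt (adm b' C') n = cnt (adm b C) n := by
  have one_ne : (1 : ZMod M) ≠ 0 := by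
    intro h
    have h' : ((1 : ℕ) : ZMod M) = 0 := by rw [Nat.cast_one]; exact h
    have := (ZMod.natCast_eq_zero_iff _ _).1 h'
    have := Nat.le_of_dvd Nat.one_pos this
    omega
  obtain ⟨e, he, hej⟩ : ∃ e, n ≤ e ∧ (e : ZMod M) ≠ j := by
    by_cases h : (n : ZMod M) = j
    · refine ⟨n + 1, by omega, ?_⟩
      rw [Nat.cast_add, h, Nat.cast_one]
      intro h'
      exact one_ne (add_eq_left.1 h')
    · exact ⟨n, le_rfl, h⟩
  have hV := swap_V b b' C C' j hb hM2 h1 h2 h3 h4 hj hj1 hu hC' e hej
  have c1 := V_coeff (fun e => b' (e : ZMod M)) (fun e => e ∉ C') e n he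
  have c2 := V_coeff (fun e => b (e : ZMod M)) (fun e => e ∉ C) e n he
  rw [hV, c2] at c1
  have d1 : cnt (admG (fun e => b' (e : ZMod M)) (fun e => e ∉ C')) n = cnt (adm b' C') n :=
    cnt_congr (fun S => Iff.rfl) n
  have d2 : cnt (admG (fun e => b (e : ZMod M)) (fun e => e ∉ C)) n = cnt (adm b C) n :=
    cnt_congr (fun S => Iff.rfl) n
  rw [d1, d2] at c1
  exact_mod_cast c1.symm

end

/-- the swap principle for the counting functions and for the solutions -/
theorem swap_principle (b : ZMod M → ℕ) (C : Finset ℕ) (j : ZMod M) (hb : ∀ i, 0 < b i)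
    (h1 : b (j + 1) = b j + 1) (h2 : M ∣ b j)
    (h3 : ∀ u, u ≠ j → u ≠ j + 1 → u - (b u : ZMod M) ≠ j)
    (h4 : ∀ x : ℕ, 0 < x → (x : ZMod M) = j → (x ∈ C ↔ x + 1 ∈ C)) :
    (∀ n, countB M (swapGap b j) (swapExc b j C) n = countB M b C n) ∧
      ∀ R : Finset (ZMod M),
        IsSolution M R (swapGap b j) (swapExc b j C) ↔ IsSolution M R b C := by
  have hM2 : 2 ≤ M := by
    rcases M with _ | _ | M
    · have h5 := hb j
      have h6 : b j = 0 := Nat.eq_zero_of_zero_dvd h2
      omega
    · have h5 : j + 1 = j := by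
        have : ∀ x y : ZMod (0 + 1), x = y := by decide
        exact this _ _
      rw [h5] at h1
      omega
    · omega
  have one_ne : (1 : ZMod M) ≠ 0 := by
    intro h
    have h' : ((1 : ℕ) : ZMod M) = 0 := by rw [Nat.cast_one]; exact h
    have := (ZMod.natCast_eq_zero_iff _ _).1 h'
    have := Nat.le_of_dvd Nat.one_pos this
    omega
  have hne : j + 1 ≠ j := fun h => one_ne (add_eq_left.1 h)
  have hk : 2 ≤ b j := by
    obtain ⟨t, ht⟩ := h2
    rcases t with _ | t
    · have := hb j
      omega
    · rw [ht]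
      calc 2 ≤ M * 1 := by omega
        _ ≤ M * (t + 1) := Nat.mul_le_mul_left _ (by omega)
  have hj : swapGap b j j = b j - 1 := by
    unfold swapGap
    rw [if_pos rfl]
  have hj1 : swapGap b j (j + 1) = b (j + 1) + 1 := by
    unfold swapGap
    rw [if_neg hne, if_pos rfl]
  have hu : ∀ u, u ≠ j → u ≠ j + 1 → swapGap b j u = b u := by
    intro u h5 h6
    unfold swapGap
    rw [if_neg h5, if_neg h6]
  have hC' : ∀ e, e ∈ swapExc b j C ↔ (e ∈ C ∨ (j = 0 ∧ 1 ∉ C ∧ e = b j + 1)) := by
    intro e
    unfold swapExc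
    split_ifs with h
    · rw [mem_insert]
      constructor
      · rintro (h5 | h5)
        · exact Or.inr ⟨h.1, h.2, h5⟩
        · exact Or.inl h5
      · rintro (h5 | h5)
        · exact Or.inr h5
        · exact Or.inl h5.2.2
    · constructor
      · exact Or.inl
      · rintro (h5 | h5)
        · exact h5
        · exact absurd ⟨h5.1, h5.2.1⟩ h
  have hb' : ∀ i, 0 < swapGap b j i := by
    intro i
    by_cases hi : i = j
    · rw [hi, hj]; omega
    · by_cases hi1 : i = j + 1
      · rw [hi1, hj1]; omega
      · rw [hu i hi hi1]; exact hb i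
  have hcnt : ∀ n, countB M (swapGap b j) (swapExc b j C) n = countB M b C n := by
    intro n
    rw [countB_eq _ hb', countB_eq _ hb]
    exact swap_cnt b (swapGap b j) C (swapExc b j C) j hb hM2 h1 h2 h3 h4 hj hj1 hu hC' n
  refine ⟨hcnt, fun R => ?_⟩
  constructor
  · rintro ⟨_, h6, h7⟩
    exact ⟨hb, fun c hc => h6 c ((hC' c).2 (Or.inl hc)), fun n hn => by rw [h7 n hn, hcnt n]⟩
  · rintro ⟨_, h6, h7⟩
    refine ⟨hb', fun c hc => ?_, fun n hn => by rw [h7 n hn, hcnt n]⟩
    rcases (hC' c).1 hc with h8 | ⟨_, _, h8⟩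
    · exact h6 c h8
    · omega

end Pool.Agent.H38.DP
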